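import Pool.Agent.H82.HEDefs

/-!
# More relations that are defined by one formula in all transitive classes
-/

set_option autoImplicit false
set_option linter.unreachableTactic false
set_option linter.unusedTactic false

namespace Pool.Agent.H82.HE

open Pool.Agent.W868
open ZFSet (pair)

section

variable {n : ℕ} {F G H : (Fin n → ZFSet.{0}) → ZFSet.{0}}

theorem D0.isFunc (hF : D0v F) (hG : D0v G) (hH : D0v H) :
    D0 fun v => ZFSet.IsFunc (F v) (G v) (H v) := by
  have h : D0 fun w => (∀ p ∈ H w, ∃ a ∈ F w, ∃ b ∈ G w, p = pair a b) ∧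
      ∀ a ∈ F w, ∃ b ∈ G w, pair a b ∈ H w ∧ ∀ c ∈ G w, pair a c ∈ H w → c = b := by
    have h1 := hF.tail
    have h2 := hG.tail
    have h3 := hH.tail
    have h4 := h1.tail
    have h5 := h2.tail
    have h6 := h3.tail
    have h7 := h4.tail
    have h8 := h5.tail
    have h9 := h6.tail
    (repeat' first
        | assumption
        | exact D0v.proj _
        | apply D0.not | apply D0.and | apply D0.or | apply D0.imp | apply D0.iff
        | apply D0.bex | apply D0.ball
        | apply D0.isPair | apply D0.pairMem | apply D0.subset | apply D0.eq | apply D0.mem)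
  refine h.congr fun v => ?_
  constructor
  · rintro ⟨h1, h2⟩
    have h3 : H v ⊆ ZFSet.prod (F v) (G v) := by
      intro p hp
      obtain ⟨a, ha, b, hb, rfl⟩ := h1 p hp
      exact ZFSet.mem_prod.2 ⟨a, ha, b, hb, rfl⟩
    refine ⟨h3, fun z hz => ?_⟩
    obtain ⟨b, hb, h4, h5⟩ := h2 z hz
    exact ⟨b, h4, fun c hc => h5 c (ZFSet.pair_mem_prod.1 (h3 hc)).2 hc⟩
  · rintro ⟨h1, h2⟩
    refine ⟨fun p hp => ZFSet.mem_prod.1 (h1 hp), fun a ha => ?_⟩
    obtain ⟨b, hb, h3⟩ := h2 a ha
    exact ⟨b, (ZFSet.pair_mem_prod.1 (h1 hb)).2, hb, fun c _ hc => h3 c hc⟩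

end

theorem D0.sat {A : Type} {n : ℕ} (φ : Fml A n) : ∀ {m : ℕ} {F : (Fin m → ZFSet.{0}) → ZFSet.{0}}
    {P : A → (Fin m → ZFSet.{0}) → ZFSet.{0}} {G : Fin n → (Fin m → ZFSet.{0}) → ZFSet.{0}},
    D0v F → (∀ a, D0v (P a)) → (∀ k, D0v (G k)) →
    D0 fun w => Sat {x | x ∈ F w} (fun a => P a w) φ (fun k => G k w) := by
  induction φ with
  | mem s t =>
    intro m F P G hF hP hG
    have h : ∀ u : Fin _ ⊕ A, D0v fun w : Fin m → ZFSet.{0} =>
        Sum.elim (fun k => G k w) (fun a => P a w) u := by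
      rintro (u | u)
      · exact hG u
      · exact hP u
    exact D0.mem (h s) (h t)
  | eq s t =>
    intro m F P G hF hP hG
    have h : ∀ u : Fin _ ⊕ A, D0v fun w : Fin m → ZFSet.{0} =>
        Sum.elim (fun k => G k w) (fun a => P a w) u := by
      rintro (u | u)
      · exact hG u
      · exact hP u
    exact D0.eq (h s) (h t)
  | neg φ ih =>
    intro m F P G hF hP hG
    exact (ih hF hP hG).not
  | and φ ψ ih1 ih2 =>
    intro m F P G hF hP hG
    exact (ih1 hF hP hG).and (ih2 hF hP hG)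
  | @ex n φ ih =>
    intro m F P G hF hP hG
    refine D0.bex (Q := fun a w => Sat {x | x ∈ F w} (fun a => P a w) φ
      (Fin.cons a fun k => G k w)) hF ?_
    have h := ih (m := m + 1) (F := fun w => F (Fin.tail w)) (P := fun a w => P a (Fin.tail w))
      (G := Fin.cases (fun w => w 0) fun k w => G k (Fin.tail w)) hF.tail (fun a => (hP a).tail)
      (fun k => by
        refine Fin.cases ?_ (fun k => ?_) k
        · exact D0v.proj 0
        · exact (hG k).tail)
    refine h.congr fun w => ?_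
    have h1 : (fun k => (Fin.cases (fun w => w 0) (fun k w => G k (Fin.tail w)) k :
        (Fin (m + 1) → ZFSet.{0}) → ZFSet.{0}) w) =
        (Fin.cons (w 0) fun k => G k (Fin.tail w) : Fin (n + 1) → ZFSet.{0}) := by
      funext k
      refine Fin.cases ?_ (fun k => ?_) k <;> rfl
    rw [h1]

/-- Quantification over tuples. -/
theorem D0.ballT {m : ℕ} (i : Fin m) (n : ℕ) :
    ∀ R : (Fin n → ZFSet.{0}) → (Fin m → ZFSet.{0}) → Prop,
    D0 (fun w : Fin (n + m) → ZFSet.{0} =>
      R (fun k => w (Fin.castAdd m k)) fun k => w (Fin.natAdd n k)) →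
    D0 fun w : Fin m → ZFSet.{0} => ∀ v : Fin n → ZFSet.{0}, (∀ k, v k ∈ w i) → R v w := by
  induction n with
  | zero =>
    intro R hR
    refine (hR.comp fun k => Fin.cast (Nat.zero_add m) k).congr fun w => ?_
    have h1 : (fun k => w (Fin.cast (Nat.zero_add m) (Fin.natAdd 0 k))) = w := by
      funext k
      congr 1
      ext
      simp
    constructor
    · intro h v _
      have h2 : v = fun k => w (Fin.cast (Nat.zero_add m) (Fin.castAdd m k)) :=
        funext fun k => k.elim0
      rw [h1] at h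
      rw [h2]
      exact h
    · intro h
      rw [h1]
      exact h _ fun k => k.elim0
  | succ n ih =>
    intro R hR
    have h1 : D0 fun w : Fin m → ZFSet.{0} => ∀ v : Fin n → ZFSet.{0}, (∀ k, v k ∈ w i) →
        ∀ a ∈ w i, R (Fin.cons a v) w := by
      refine ih (fun v w => ∀ a ∈ w i, R (Fin.cons a v) w) ?_
      refine D0.ball (F := fun w : Fin (n + m) → ZFSet.{0} => w (Fin.natAdd n i))
        (Q := fun a w => R (Fin.cons a fun k => w (Fin.castAdd m k))
          fun k => w (Fin.natAdd n k)) (D0v.proj _) ?_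
      refine (hR.comp (Fin.addCases (Fin.cases 0 fun k => (Fin.castAdd m k).succ)
        fun k => (Fin.natAdd n k).succ)).congr fun w => ?_
      have h2 : (fun k => w (Fin.addCases (Fin.cases 0 fun k => (Fin.castAdd m k).succ)
          (fun k => (Fin.natAdd n k).succ) (Fin.castAdd m k))) =
          (Fin.cons (w 0) fun k => Fin.tail w (Fin.castAdd m k) :
            Fin (n + 1) → ZFSet.{0}) := by
        funext k
        rw [Fin.addCases_left]
        refine Fin.cases ?_ (fun k => ?_) k <;> rfl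
      have h3 : (fun k => w (Fin.addCases (Fin.cases 0 fun k => (Fin.castAdd m k).succ)
          (fun k => (Fin.natAdd n k).succ) (Fin.natAdd (n + 1) k))) =
          fun k => Fin.tail w (Fin.natAdd n k) := by
        funext k
        rw [Fin.addCases_right]
        rfl
      rw [h2, h3]
    refine h1.congr fun w => ?_
    constructor
    · intro h v hv
      have h2 := h (Fin.tail v) (fun k => hv k.succ) (v 0) (hv 0)
      rwa [Fin.cons_self_tail] at h2
    · intro h v hv a ha
      refine h _ fun k => ?_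
      refine Fin.cases ?_ (fun k => ?_) k
      · exact ha
      · exact hv k

/-- Every formula has finitely many parameters. -/
theorem exists_map {n : ℕ} (φ : Fml ZFSet.{0} n) : ∃ (k : ℕ) (ψ : Fml (Fin k) n)
    (p : Fin k → ZFSet.{0}), (∀ S : Set ZFSet.{0}, φ.Over S → ∀ l, p l ∈ S) ∧ ψ.map p = φ := by
  have hc : ∀ {n : ℕ} (s t : Fin n ⊕ ZFSet.{0}), ∃ (k : ℕ) (s' t' : Fin n ⊕ Fin k)
      (p : Fin k → ZFSet.{0}), (∀ S : Set ZFSet.{0}, TOver S s → TOver S t → ∀ l, p l ∈ S) ∧
        Sum.map id p s' = s ∧ Sum.map id p t' = t := by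
    intro n s t
    rcases s with s | s <;> rcases t with t | t
    · exact ⟨0, Sum.inl s, Sum.inl t, Fin.elim0, fun _ _ _ l => l.elim0, rfl, rfl⟩
    · exact ⟨1, Sum.inl s, Sum.inr 0, fun _ => t, fun S _ h _ => tOver_inr.1 h, rfl, rfl⟩
    · exact ⟨1, Sum.inr 0, Sum.inl t, fun _ => s, fun S h _ _ => tOver_inr.1 h, rfl, rfl⟩
    · refine ⟨2, Sum.inr 0, Sum.inr 1, ![s, t], fun S h h' l => ?_, rfl, rfl⟩
      fin_cases l
      · exact tOver_inr.1 h
      · exact tOver_inr.1 h'
  induction φ with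
  | mem s t =>
    obtain ⟨k, s', t', p, h1, rfl, rfl⟩ := hc s t
    exact ⟨k, .mem s' t', p, fun S h => h1 S h.1 h.2, rfl⟩
  | eq s t =>
    obtain ⟨k, s', t', p, h1, rfl, rfl⟩ := hc s t
    exact ⟨k, .eq s' t', p, fun S h => h1 S h.1 h.2, rfl⟩
  | neg φ ih =>
    obtain ⟨k, ψ, p, h1, rfl⟩ := ih
    exact ⟨k, .neg ψ, p, h1, rfl⟩
  | ex φ ih =>
    obtain ⟨k, ψ, p, h1, rfl⟩ := ih
    exact ⟨k, .ex ψ, p, h1, rfl⟩
  | and φ φ' ih ih' =>
    obtain ⟨k, ψ, p, h1, rfl⟩ := ih
    obtain ⟨k', ψ', p', h1', rfl⟩ := ih'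
    refine ⟨k + k', .and (ψ.map (Fin.castAdd k')) (ψ'.map (Fin.natAdd k)), Fin.append p p', ?_, ?_⟩
    · intro S h l
      refine Fin.addCases (fun l => ?_) (fun l => ?_) l
      · rw [Fin.append_left]
        exact h1 S h.1 l
      · rw [Fin.append_right]
        exact h1' S h.2 l
    · simp only [Fml.map, map_map]
      have e1 : Fin.append p p' ∘ Fin.castAdd k' = p := by
        funext l
        simp
      have e2 : Fin.append p p' ∘ Fin.natAdd k = p' := by
        funext l
        simp
      rw [e1, e2]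

end Pool.Agent.H82.HE
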