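import Pool.Agent.H82.HEA

/-!
# Basic facts on the embedding
-/

set_option autoImplicit false
set_option linter.unreachableTactic false
set_option linter.unusedTactic false

namespace Pool.Agent.H82.HE

open Pool.Agent.W868
open ZFSet (pair)

/-! ### Functions -/

/-- The graph of `g` on `a`. -/
noncomputable def gph (g : ZFSet.{0} → ZFSet.{0}) (a : ZFSet.{0}) : ZFSet.{0} :=
  im (fun x => pair x (g x)) a

theorem mem_gph {g : ZFSet.{0} → ZFSet.{0}} {a p : ZFSet.{0}} :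
    p ∈ gph g a ↔ ∃ x ∈ a, p = pair x (g x) := mem_im

theorem pair_mem_gph {g : ZFSet.{0} → ZFSet.{0}} {a x y : ZFSet.{0}} :
    pair x y ∈ gph g a ↔ x ∈ a ∧ y = g x := by
  rw [mem_gph]
  constructor
  · rintro ⟨x', hx', h⟩
    obtain ⟨rfl, rfl⟩ := ZFSet.pair_inj.1 h
    exact ⟨hx', rfl⟩
  · rintro ⟨hx, rfl⟩
    exact ⟨x, hx, rfl⟩

theorem isFunc_gph {g : ZFSet.{0} → ZFSet.{0}} {a b : ZFSet.{0}} (h : ∀ x ∈ a, g x ∈ b) :
    ZFSet.IsFunc a b (gph g a) := by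
  constructor
  · intro p hp
    obtain ⟨x, hx, rfl⟩ := mem_gph.1 hp
    exact ZFSet.pair_mem_prod.2 ⟨hx, h x hx⟩
  · intro x hx
    exact ⟨g x, pair_mem_gph.2 ⟨hx, rfl⟩, fun y hy => (pair_mem_gph.1 hy).2⟩

theorem isFunc_eq_gph {a b f : ZFSet.{0}} (h : ZFSet.IsFunc a b f) :
    ∃ g : ZFSet.{0} → ZFSet.{0}, (∀ x ∈ a, g x ∈ b) ∧ f = gph g a := by
  classical
  have h1 : ∀ x : ZFSet.{0}, ∃ y, x ∈ a → pair x y ∈ f := by
    intro x
    by_cases hx : x ∈ a
    · obtain ⟨y, hy, -⟩ := h.2 x hx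
      exact ⟨y, fun _ => hy⟩
    · exact ⟨∅, fun h => absurd h hx⟩
  choose g hg using h1
  refine ⟨g, fun x hx => (ZFSet.pair_mem_prod.1 (h.1 (hg x hx))).2, ?_⟩
  ext p
  rw [mem_gph]
  constructor
  · intro hp
    obtain ⟨x, hx, y, hy, rfl⟩ := ZFSet.mem_prod.1 (h.1 hp)
    refine ⟨x, hx, ?_⟩
    obtain ⟨y', -, h3⟩ := h.2 x hx
    rw [h3 y hp, h3 (g x) (hg x hx)]
  · rintro ⟨x, hx, rfl⟩
    exact hg x hx

/-- `f` is a function from `a` onto `b`. -/
def Surj (a b f : ZFSet.{0}) : Prop :=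
  ZFSet.IsFunc a b f ∧ ∀ y ∈ b, ∃ x ∈ a, pair x y ∈ f

theorem D0.surj {n : ℕ} {F G H : (Fin n → ZFSet.{0}) → ZFSet.{0}} (hF : D0v F) (hG : D0v G)
    (hH : D0v H) : D0 fun v => Surj (F v) (G v) (H v) := by
  refine (D0.isFunc hF hG hH).and ?_
  have h1 := hF.tail
  have h2 := hH.tail
  have h3 := h2.tail
  (repeat' first
      | assumption
      | exact D0v.proj _
      | apply D0.not | apply D0.and | apply D0.or | apply D0.imp | apply D0.iff
      | apply D0.bex | apply D0.ball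
      | apply D0.isPair | apply D0.pairMem | apply D0.subset | apply D0.eq | apply D0.mem)

theorem exists_surj {a b : ZFSet.{0}} (hb : ∃ y, y ∈ b) (h : b.card ≤ a.card) :
    ∃ g : ZFSet.{0} → ZFSet.{0}, (∀ x ∈ a, g x ∈ b) ∧ ∀ y ∈ b, ∃ x ∈ a, g x = y := by
  classical
  obtain ⟨y0, hy0⟩ := hb
  obtain ⟨e⟩ := h
  let i : b → a := fun y => (equivShrink a).symm (e (equivShrink b y))
  have hi : Function.Injective i := fun y y' hyy => by simpa [i] using hyy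
  have : Nonempty b := ⟨⟨y0, hy0⟩⟩
  let g : ZFSet.{0} → ZFSet.{0} := fun x =>
    if hx : x ∈ a then (Function.invFun i ⟨x, hx⟩ : b).1 else ∅
  refine ⟨g, fun x hx => ?_, fun y hy => ?_⟩
  · simp only [g, dif_pos hx]
    exact (Function.invFun i ⟨x, hx⟩ : b).2
  · refine ⟨(i ⟨y, hy⟩).1, (i ⟨y, hy⟩).2, ?_⟩
    simp only [g, dif_pos (i ⟨y, hy⟩).2]
    rw [show (⟨(i ⟨y, hy⟩).1, (i ⟨y, hy⟩).2⟩ : a) = i ⟨y, hy⟩ from rfl,
      Function.leftInverse_invFun hi]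

theorem surj_gph {g : ZFSet.{0} → ZFSet.{0}} {a b : ZFSet.{0}} (h : ∀ x ∈ a, g x ∈ b)
    (h' : ∀ y ∈ b, ∃ x ∈ a, g x = y) : Surj a b (gph g a) := by
  refine ⟨isFunc_gph h, fun y hy => ?_⟩
  obtain ⟨x, hx, rfl⟩ := h' y hy
  exact ⟨x, hx, pair_mem_gph.2 ⟨hx, rfl⟩⟩

theorem card_le_of_onto {g : ZFSet.{0} → ZFSet.{0}} {a b : ZFSet.{0}}
    (h : ∀ y ∈ b, ∃ x ∈ a, g x = y) : b.card ≤ a.card := by
  classical
  choose f hf hf' using h
  refine ⟨⟨fun y => equivShrink a ⟨f ((equivShrink b).symm y).1 ((equivShrink b).symm y).2,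
    hf _ _⟩, fun y y' hyy => ?_⟩⟩
  have h1 := (equivShrink a).injective hyy
  have h2 := congrArg (fun z : a => g z.1) h1
  simp only [hf'] at h2
  exact (equivShrink b).symm.injective (Subtype.ext h2)

theorem card_le_of_surj {a b f : ZFSet.{0}} (h : Surj a b f) : b.card ≤ a.card := by
  obtain ⟨g, h1, rfl⟩ := isFunc_eq_gph h.1
  refine card_le_of_onto (g := g) fun y hy => ?_
  obtain ⟨x, hx, h3⟩ := h.2 y hy
  exact ⟨x, hx, ((pair_mem_gph.1 h3).2).symm⟩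

theorem card_gph {g : ZFSet.{0} → ZFSet.{0}} {a : ZFSet.{0}} : (gph g a).card ≤ a.card := by
  refine card_le_of_onto (g := fun x => pair x (g x)) fun y hy => ?_
  obtain ⟨x, hx, rfl⟩ := mem_gph.1 hy
  exact ⟨x, hx, rfl⟩

/-! ### Ranks -/

/-- `f` witnesses that the rank of `x` is at most the rank of `y`. -/
def W (x y f : ZFSet.{0}) : Prop :=
  pair x y ∈ f ∧ ∀ p ∈ f, ∃ a b, p = pair a b ∧ ∀ z ∈ a, ∃ c ∈ b, pair z c ∈ f

theorem D0.w {n : ℕ} {F G H : (Fin n → ZFSet.{0}) → ZFSet.{0}} (hF : D0v F) (hG : D0v G)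
    (hH : D0v H) : D0 fun v => W (F v) (G v) (H v) := by
  refine (D0.pairMem hF hG hH).and ?_
  refine D0.ball (Q := fun p v => ∃ a b, p = pair a b ∧ ∀ z ∈ a, ∃ c ∈ b, pair z c ∈ H v) hH ?_
  refine D0.expair (Q := fun a b v => ∀ z ∈ a, ∃ c ∈ b, pair z c ∈ H (Fin.tail v))
    (D0v.proj 0) ?_
  have h1 := hH.tail.tail.tail.tail.tail
  (repeat' first
      | assumption
      | exact D0v.proj _
      | apply D0.not | apply D0.and | apply D0.or | apply D0.imp | apply D0.iff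
      | apply D0.bex | apply D0.ball
      | apply D0.isPair | apply D0.pairMem | apply D0.subset | apply D0.eq | apply D0.mem)

theorem rank_le_of_w {x y f : ZFSet.{0}} (h : W x y f) : x.rank ≤ y.rank := by
  have h1 : ∀ x y, pair x y ∈ f → x.rank ≤ y.rank := by
    intro x
    induction x using ZFSet.inductionOn with
    | _ x ih =>
      intro y hxy
      rw [ZFSet.rank_le_iff]
      intro z hz
      obtain ⟨a, b, hab, h2⟩ := h.2 _ hxy
      obtain ⟨rfl, rfl⟩ := ZFSet.pair_inj.1 hab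
      obtain ⟨c, hc, h3⟩ := h2 z hz
      exact (ih z hz c h3).trans_lt (ZFSet.rank_lt_of_mem hc)
  exact h1 x y h.1

theorem exists_w {x y : ZFSet.{0}} (h : x.rank ≤ y.rank) : ∃ f, W x y f := by
  set V := ZFSet.vonNeumann (y.rank + 1) with hV
  refine ⟨(ZFSet.prod V V).sep fun p => ∃ a b, p = pair a b ∧ a.rank ≤ b.rank, ?_, ?_⟩
  · rw [ZFSet.mem_sep, ZFSet.pair_mem_prod, hV, ZFSet.mem_vonNeumann, ZFSet.mem_vonNeumann]
    exact ⟨⟨Order.lt_add_one_iff.2 h, Order.lt_add_one_iff.2 le_rfl⟩, x, y, rfl, h⟩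
  · intro p hp
    obtain ⟨hp1, a, b, rfl, hab⟩ := ZFSet.mem_sep.1 hp
    refine ⟨a, b, rfl, fun z hz => ?_⟩
    obtain ⟨c, hc, hzc⟩ := ZFSet.lt_rank_iff.1 ((ZFSet.rank_lt_of_mem hz).trans_le hab)
    rw [ZFSet.pair_mem_prod] at hp1
    refine ⟨c, hc, ZFSet.mem_sep.2 ⟨ZFSet.pair_mem_prod.2 ⟨?_, ?_⟩, z, c, rfl, hzc⟩⟩
    · exact ZFSet.isTransitive_vonNeumann _ _ hp1.1 hz
    · exact ZFSet.isTransitive_vonNeumann _ _ hp1.2 hc

/-! ### Transfer -/

namespace IsHugeEmb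

variable {κ : ZFSet.{0}} {M : Set ZFSet.{0}} {j : ZFSet.{0} → ZFSet.{0}} (h : IsHugeEmb κ M j)

include h

theorem tr {n : ℕ} {R : (Fin n → ZFSet.{0}) → Prop} (hR : D0 R) (v : Fin n → ZFSet.{0}) :
    R v ↔ R fun i => j (v i) := by
  obtain ⟨φ, hφ⟩ := hR
  rw [← hφ Set.univ (fun _ _ _ _ => trivial) v fun _ => trivial, h.elem n φ v,
    hφ M h.trans _ fun _ => h.map _]

theorem cons_j {n : ℕ} (v : Fin n → ZFSet.{0}) {a : ZFSet.{0}} (ha : a ∈ M) (k : Fin (n + 1)) :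
    (Fin.cons a (fun i => j (v i)) : Fin (n + 1) → ZFSet.{0}) k ∈ M := by
  refine Fin.cases ?_ (fun k => ?_) k
  · exact ha
  · exact h.map _

theorem trE {n : ℕ} {R : ZFSet.{0} → (Fin n → ZFSet.{0}) → Prop}
    (hR : D0 fun w : Fin (n + 1) → ZFSet.{0} => R (w 0) (Fin.tail w)) (v : Fin n → ZFSet.{0}) :
    (∃ a, R a v) ↔ ∃ a ∈ M, R a fun i => j (v i) := by
  obtain ⟨φ, hφ⟩ := hR
  have h1 := h.elem n (.ex φ) v
  simp only [Sat] at h1
  have h2 : ∀ a, Sat Set.univ Empty.elim φ (Fin.cons a v) ↔ R a v := fun a =>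
    hφ Set.univ (fun _ _ _ _ => trivial) (Fin.cons a v) fun _ => trivial
  have h3 : ∀ a ∈ M, (Sat M Empty.elim φ (Fin.cons a fun i => j (v i)) ↔
      R a fun i => j (v i)) := fun a ha => hφ M h.trans _ (h.cons_j v ha)
  constructor
  · rintro ⟨a, ha⟩
    obtain ⟨b, hb, h4⟩ := h1.1 ⟨a, trivial, (h2 a).2 ha⟩
    exact ⟨b, hb, (h3 b hb).1 h4⟩
  · rintro ⟨a, ha, h4⟩
    obtain ⟨b, -, h5⟩ := h1.2 ⟨a, ha, (h3 a ha).2 h4⟩
    exact ⟨b, (h2 b).1 h5⟩

theorem trA {n : ℕ} {R : ZFSet.{0} → (Fin n → ZFSet.{0}) → Prop}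
    (hR : D0 fun w : Fin (n + 1) → ZFSet.{0} => R (w 0) (Fin.tail w)) (v : Fin n → ZFSet.{0}) :
    (∀ a, R a v) ↔ ∀ a ∈ M, R a fun i => j (v i) := by
  have h1 := h.trE (R := fun a v => ¬ R a v) hR.not v
  constructor
  · intro h2 a ha
    by_contra h3
    obtain ⟨b, hb⟩ := h1.2 ⟨a, ha, h3⟩
    exact hb (h2 b)
  · intro h2 a
    by_contra h3
    obtain ⟨b, hb, h4⟩ := h1.1 ⟨a, h3⟩
    exact h4 (h2 b hb)

theorem trAE {n : ℕ} {R : ZFSet.{0} → ZFSet.{0} → (Fin n → ZFSet.{0}) → Prop}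
    (hR : D0 fun w : Fin (n + 2) → ZFSet.{0} => R (w 1) (w 0) (Fin.tail (Fin.tail w)))
    (v : Fin n → ZFSet.{0}) :
    (∀ a, ∃ b, R a b v) ↔ ∀ a ∈ M, ∃ b ∈ M, R a b fun i => j (v i) := by
  obtain ⟨φ, hφ⟩ := hR
  have h1 := h.elem n (.neg (.ex (.neg (.ex φ)))) v
  simp only [Sat] at h1
  have h2 : ∀ a b, Sat Set.univ Empty.elim φ (Fin.cons b (Fin.cons a v)) ↔ R a b v :=
    fun a b => hφ Set.univ (fun _ _ _ _ => trivial) (Fin.cons b (Fin.cons a v)) fun _ => trivial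
  have h3 : ∀ a ∈ M, ∀ b ∈ M, (Sat M Empty.elim φ (Fin.cons b (Fin.cons a fun i => j (v i))) ↔
      R a b fun i => j (v i)) := fun a ha b hb => hφ M h.trans _ fun k => by
    refine Fin.cases ?_ (fun k => ?_) k
    · exact hb
    · exact h.cons_j v ha k
  constructor
  · intro h4 a ha
    by_contra h5
    refine h1.1 ?_ ⟨a, ha, ?_⟩
    · rintro ⟨a, -, h6⟩
      obtain ⟨b, hb⟩ := h4 a
      exact h6 ⟨b, trivial, (h2 a b).2 hb⟩
    · rintro ⟨b, hb, h6⟩
      exact h5 ⟨b, hb, (h3 a ha b hb).1 h6⟩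
  · intro h4 a
    by_contra h5
    refine h1.2 ?_ ⟨a, trivial, ?_⟩
    · rintro ⟨a, ha, h6⟩
      obtain ⟨b, hb, h7⟩ := h4 a ha
      exact h6 ⟨b, hb, (h3 a ha b hb).2 h7⟩
    · rintro ⟨b, -, h6⟩
      exact h5 ⟨b, (h2 a b).1 h6⟩

theorem j_eq {x y : ZFSet.{0}} : x = y ↔ j x = j y :=
  h.tr (D0.eq (D0v.proj 0) (D0v.proj 1)) ![x, y]

theorem j_mem {x y : ZFSet.{0}} : x ∈ y ↔ j x ∈ j y :=
  h.tr (D0.mem (D0v.proj 0) (D0v.proj 1)) ![x, y]

theorem j_pair (x y : ZFSet.{0}) : j (pair x y) = pair (j x) (j y) :=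
  (h.tr (D0.isPair (D0v.proj 0) (D0v.proj 1) (D0v.proj 2)) ![pair x y, x, y]).1 rfl

theorem j_empty : j ∅ = ∅ := by
  have h1 : D0 fun w : Fin 1 → ZFSet.{0} => ∀ x ∈ w 0, ¬ x = x := by
      (repeat' first
          | assumption
          | exact D0v.proj _
          | apply D0.not | apply D0.and | apply D0.or | apply D0.imp | apply D0.iff
          | apply D0.bex | apply D0.ball
          | apply D0.isPair | apply D0.pairMem | apply D0.subset | apply D0.eq | apply D0.mem)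
  have h2 := (h.tr h1 ![∅]).1 fun x hx => absurd hx (ZFSet.notMem_empty x)
  rw [ZFSet.eq_empty]
  exact fun x hx => h2 x hx rfl

theorem j_insert (x y : ZFSet.{0}) : j (insert x y) = insert (j x) (j y) := by
  have h1 : D0 fun w : Fin 3 → ZFSet.{0} =>
      (∀ z ∈ w 0, z = w 1 ∨ z ∈ w 2) ∧ w 1 ∈ w 0 ∧ ∀ z ∈ w 2, z ∈ w 0 := by
          (repeat' first
              | assumption
              | exact D0v.proj _
              | apply D0.not | apply D0.and | apply D0.or | apply D0.imp | apply D0.iff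
              | apply D0.bex | apply D0.ball
              | apply D0.isPair | apply D0.pairMem | apply D0.subset | apply D0.eq | apply D0.mem)
  have h2 := (h.tr h1 ![insert x y, x, y]).1 ⟨fun z hz => ZFSet.mem_insert_iff.1 hz,
    ZFSet.mem_insert _ _, fun z hz => ZFSet.mem_insert_of_mem _ hz⟩
  obtain ⟨h3, h4, h5⟩ := h2
  ext z
  rw [ZFSet.mem_insert_iff]
  exact ⟨h3 z, fun h6 => h6.elim (fun h7 => h7 ▸ h4) (h5 z)⟩

theorem j_nat (n : ℕ) : j (nat n) = nat n := by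
  induction n with
  | zero => exact h.j_empty
  | succ n ih => rw [nat, h.j_insert, ih]

theorem j_omega : j ZFSet.omega = ZFSet.omega := by
  have h1 : D0 fun w : Fin 1 → ZFSet.{0} => ∀ x ∈ w 0, (∀ y ∈ x, ¬ y = y) ∨
      ∃ y ∈ w 0, (∀ z ∈ x, z = y ∨ z ∈ y) ∧ y ∈ x ∧ ∀ z ∈ y, z ∈ x := by
          (repeat' first
              | assumption
              | exact D0v.proj _
              | apply D0.not | apply D0.and | apply D0.or | apply D0.imp | apply D0.iff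
              | apply D0.bex | apply D0.ball
              | apply D0.isPair | apply D0.pairMem | apply D0.subset | apply D0.eq | apply D0.mem)
  have h2 := (h.tr h1 ![ZFSet.omega]).1 (by
    intro x hx
    obtain ⟨n, rfl⟩ := mem_omega_iff.1 hx
    cases n with
    | zero => exact Or.inl fun y hy => absurd hy (ZFSet.notMem_empty y)
    | succ n =>
      refine Or.inr ⟨nat n, mem_omega_iff.2 ⟨n, rfl⟩, ?_, ?_, ?_⟩
      · exact fun z hz => ZFSet.mem_insert_iff.1 hz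
      · exact ZFSet.mem_insert _ _
      · exact fun z hz => ZFSet.mem_insert_of_mem _ hz)
  ext x
  constructor
  · intro hx
    induction x using ZFSet.inductionOn with
    | _ x ih =>
      rcases h2 x hx with h3 | ⟨y, hy, h3, h4, h5⟩
      · have h6 : x = ∅ := by
          rw [ZFSet.eq_empty]
          exact fun y hy => h3 y hy rfl
        rw [h6]
        exact ZFSet.omega_zero
      · obtain ⟨n, rfl⟩ := mem_omega_iff.1 (ih y h4 hy)
        refine mem_omega_iff.2 ⟨n + 1, ?_⟩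
        ext z
        rw [nat, ZFSet.mem_insert_iff]
        exact ⟨h3 z, fun h6 => h6.elim (fun h7 => h7 ▸ h4) (h5 z)⟩
  · intro hx
    obtain ⟨n, rfl⟩ := mem_omega_iff.1 hx
    rw [← h.j_nat n]
    exact h.j_mem.1 hx

theorem j_isFunc {a b f : ZFSet.{0}} : ZFSet.IsFunc a b f ↔ ZFSet.IsFunc (j a) (j b) (j f) :=
  h.tr (D0.isFunc (D0v.proj 0) (D0v.proj 1) (D0v.proj 2)) ![a, b, f]

theorem rank_mono {x y : ZFSet.{0}} (hxy : x.rank ≤ y.rank) : (j x).rank ≤ (j y).rank := by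
  obtain ⟨f, hf⟩ := exists_w hxy
  exact rank_le_of_w ((h.tr (D0.w (D0v.proj 0) (D0v.proj 1) (D0v.proj 2)) ![x, y, f]).1 hf)

theorem rank_congr {x y : ZFSet.{0}} (hxy : x.rank = y.rank) : (j x).rank = (j y).rank :=
  (h.rank_mono hxy.le).antisymm (h.rank_mono hxy.ge)

theorem rank_strict {x y : ZFSet.{0}} (hxy : x.rank < y.rank) : (j x).rank < (j y).rank := by
  obtain ⟨z, hz, hxz⟩ := ZFSet.lt_rank_iff.1 hxy
  exact (h.rank_mono hxz).trans_lt (ZFSet.rank_lt_of_mem (h.j_mem.1 hz))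

theorem toZFSet_mem {o : Ordinal.{0}} (ho : o < κ.rank) : o.toZFSet ∈ κ := by
  rw [← h.ord.toZFSet_rank_eq]
  exact Ordinal.toZFSet_mem_toZFSet_iff.2 ho

theorem j_fix {x : ZFSet.{0}} (hx : x.rank < κ.rank) : j x = x := by
  have h1 : ∀ o : Ordinal.{0}, ∀ x : ZFSet.{0}, x.rank = o → o < κ.rank → j x = x := by
    intro o
    induction o using WellFoundedLT.induction with
    | _ o ih =>
      intro x hxo ho
      have h2 : (j x).rank = o := by
        rw [h.rank_congr (y := o.toZFSet) (by rw [hxo, Ordinal.rank_toZFSet]),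
          h.fix _ (h.toZFSet_mem ho), Ordinal.rank_toZFSet]
      ext y
      constructor
      · intro hy
        have h3 : y.rank < o := h2 ▸ ZFSet.rank_lt_of_mem hy
        rw [h.j_mem, ih _ h3 y rfl (h3.trans ho)]
        exact hy
      · intro hy
        have h3 : y.rank < o := hxo ▸ ZFSet.rank_lt_of_mem hy
        rw [← ih _ h3 y rfl (h3.trans ho)]
        exact h.j_mem.1 hy
  exact h1 _ x rfl hx

theorem succ_lt {o : Ordinal.{0}} (ho : o < κ.rank) : o + 1 < κ.rank := by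
  rcases (Order.add_one_le_iff.2 ho).lt_or_eq with h1 | h1
  · exact h1
  · exfalso
    apply h.moved
    have h2 : κ = insert o.toZFSet o.toZFSet := by
      rw [← Ordinal.toZFSet_add_one, h1, h.ord.toZFSet_rank_eq]
    rw [h2, h.j_insert, h.fix _ (h.toZFSet_mem ho)]

theorem pos : 0 < κ.rank := by
  rw [pos_iff_ne_zero]
  intro h1
  apply h.moved
  have h2 : κ = ∅ := by
    rw [← h.ord.toZFSet_rank_eq, h1, Ordinal.toZFSet_zero]
  rw [h2, h.j_empty]

theorem omega_mem : ZFSet.omega ∈ κ := by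
  have h1 : ∀ n, nat n ∈ κ := by
    intro n
    induction n with
    | zero =>
      have h2 := h.toZFSet_mem h.pos
      rwa [Ordinal.toZFSet_zero] at h2
    | succ n ih =>
      have h2 := h.toZFSet_mem (h.succ_lt (ZFSet.rank_lt_of_mem ih))
      rwa [Ordinal.toZFSet_add_one, (h.ord.mem ih).toZFSet_rank_eq] at h2
  have h2 : ZFSet.omega ⊆ κ := by
    intro x hx
    obtain ⟨n, rfl⟩ := mem_omega_iff.1 hx
    exact h1 n
  have h3 : ZFSet.IsOrdinal ZFSet.omega := by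
    rw [omega_eq]
    exact ZFSet.isOrdinal_toZFSet _
  rcases (h3.subset_iff_eq_or_mem h.ord).1 h2 with h4 | h4
  · exact absurd (h4 ▸ h.j_omega) h.moved
  · exact h4

theorem ord' : (j κ).IsOrdinal :=
  (h.tr (D0.isOrdinal (D0v.proj 0)) ![κ]).1 h.ord

theorem mem_lam : κ ∈ j κ := by
  have h1 : κ ⊆ j κ := fun x hx => by
    rw [← h.fix x hx]
    exact h.j_mem.1 hx
  rcases (h.ord.subset_iff_eq_or_mem h.ord').1 h1 with h2 | h2
  · exact absurd h2.symm h.moved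
  · exact h2

theorem rank_lt : κ.rank < (j κ).rank := ZFSet.rank_lt_of_mem h.mem_lam

end IsHugeEmb

end Pool.Agent.H82.HE
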