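import Pool.Agent.H82.HEB

/-!
# Closure properties of the four sets
-/

set_option autoImplicit false
set_option linter.unreachableTactic false
set_option linter.unusedTactic false

namespace Pool.Agent.H82.HE

open Pool.Agent.W868
open ZFSet (pair)

/-- `V_κ`. -/
noncomputable def VK (κ : ZFSet.{0}) : ZFSet.{0} := ZFSet.vonNeumann κ.rank

theorem mem_VK {κ x : ZFSet.{0}} : x ∈ VK κ ↔ x.rank < κ.rank := ZFSet.mem_vonNeumann

/-- `X` is the range of `f`. -/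
def Rng (X f : ZFSet.{0}) : Prop :=
  (∀ y ∈ X, ∃ p ∈ f, ∃ a b, p = pair a b ∧ y = b) ∧ ∀ p ∈ f, ∃ a b, p = pair a b ∧ b ∈ X

theorem D0.rng {n : ℕ} {F G : (Fin n → ZFSet.{0}) → ZFSet.{0}} (hF : D0v F) (hG : D0v G) :
    D0 fun v => Rng (F v) (G v) := by
  refine D0.and ?_ ?_
  · refine D0.ball hF (Q := fun y v => ∃ p ∈ G v, ∃ a b, p = pair a b ∧ y = b) ?_
    refine D0.bex (Q := fun p w => ∃ a b, p = pair a b ∧ w 0 = b) hG.tail ?_
    refine D0.expair (Q := fun a b w => w 1 = b) (D0v.proj 0) ?_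
    (repeat' first
        | assumption
        | exact D0v.proj _
        | apply D0.not | apply D0.and | apply D0.or | apply D0.imp | apply D0.iff
        | apply D0.bex | apply D0.ball
        | apply D0.isPair | apply D0.pairMem | apply D0.subset | apply D0.eq | apply D0.mem)
  · refine D0.ball hG (Q := fun p v => ∃ a b, p = pair a b ∧ b ∈ F v) ?_
    refine D0.expair (Q := fun a b w => b ∈ F (Fin.tail w)) (D0v.proj 0) ?_
    exact D0.mem (D0v.proj 0) hF.tail.tail.tail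

theorem rng_gph {a X : ZFSet.{0}} {g : ZFSet.{0} → ZFSet.{0}} :
    Rng X (gph g a) ↔ X = im g a := by
  constructor
  · rintro ⟨h1, h2⟩
    ext y
    rw [mem_im]
    constructor
    · intro hy
      obtain ⟨p, hp, a', b, rfl, rfl⟩ := h1 y hy
      obtain ⟨h3, h4⟩ := pair_mem_gph.1 hp
      exact ⟨a', h3, h4⟩
    · rintro ⟨x, hx, rfl⟩
      obtain ⟨a', b, h3, h4⟩ := h2 _ (pair_mem_gph.2 ⟨hx, rfl⟩)
      obtain ⟨rfl, rfl⟩ := ZFSet.pair_inj.1 h3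
      exact h4
  · rintro rfl
    constructor
    · intro y hy
      obtain ⟨x, hx, rfl⟩ := mem_im.1 hy
      exact ⟨_, pair_mem_gph.2 ⟨hx, rfl⟩, x, g x, rfl, rfl⟩
    · intro p hp
      obtain ⟨x, hx, rfl⟩ := mem_gph.1 hp
      exact ⟨x, g x, rfl, mem_im.2 ⟨x, hx, rfl⟩⟩

theorem rank_pair' (x y : ZFSet.{0}) : (pair x y).rank = max x.rank y.rank + 1 + 1 := by
  rw [ZFSet.pair, ZFSet.rank_pair, ZFSet.rank_singleton, ZFSet.rank_pair,
    ← Order.succ_eq_add_one, ← Order.succ_eq_add_one]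
  rw [← Order.succ_max, ← Order.succ_max, ← Order.succ_max, ← max_assoc, max_self]

theorem rank_left_lt (x y : ZFSet.{0}) : x.rank < (pair x y).rank := by
  rw [rank_pair']
  exact (le_max_left _ _).trans_lt ((Order.lt_add_one_iff.2 le_rfl).trans (Order.lt_add_one_iff.2 le_rfl))

theorem rank_right_lt (x y : ZFSet.{0}) : y.rank < (pair x y).rank := by
  rw [rank_pair']
  exact (le_max_right _ _).trans_lt ((Order.lt_add_one_iff.2 le_rfl).trans (Order.lt_add_one_iff.2 le_rfl))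

theorem j_one {j : ZFSet.{0} → ZFSet.{0}} (a : ZFSet.{0}) : (fun i => j (![a] i)) = ![j a] := by
  funext i
  fin_cases i
  rfl

theorem j_two {j : ZFSet.{0} → ZFSet.{0}} (a b : ZFSet.{0}) :
    (fun i => j (![a, b] i)) = ![j a, j b] := by
  funext i
  fin_cases i <;> rfl

namespace IsHugeEmb

variable {κ : ZFSet.{0}} {M : Set ZFSet.{0}} {j : ZFSet.{0} → ZFSet.{0}} (h : IsHugeEmb κ M j)

include h

theorem fixVK {x : ZFSet.{0}} (hx : x ∈ VK κ) : j x = x := h.j_fix (mem_VK.1 hx)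

theorem pair_VK {x y : ZFSet.{0}} (hx : x ∈ VK κ) (hy : y ∈ VK κ) : pair x y ∈ VK κ := by
  rw [mem_VK] at *
  rw [rank_pair']
  exact h.succ_lt (h.succ_lt (max_lt hx hy))

theorem mem_VL_iff {x : ZFSet.{0}} (hx : x ∈ M) : x ∈ j (VK κ) ↔ x.rank < (j κ).rank := by
  have h1 : D0 fun w : Fin 4 → ZFSet.{0} => (w 1 ∈ w 2 ∧ ∃ z ∈ w 3, W (w 1) z (w 0)) ∨
      (¬ w 1 ∈ w 2 ∧ W (w 3) (w 1) (w 0)) := by
    refine D0.or (D0.and (D0.mem (D0v.proj 1) (D0v.proj 2)) ?_)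
      (D0.and (D0.not (D0.mem (D0v.proj 1) (D0v.proj 2)))
        (D0.w (D0v.proj 3) (D0v.proj 1) (D0v.proj 0)))
    exact D0.bex (Q := fun z w => W (w 1) z (w 0)) (D0v.proj 3)
      (D0.w (D0v.proj 2) (D0v.proj 0) (D0v.proj 1))
  have h2 := (h.trAE (n := 2) (R := fun x f v => (x ∈ v 0 ∧ ∃ z ∈ v 1, W x z f) ∨
      (¬ x ∈ v 0 ∧ W (v 1) x f)) h1 ![VK κ, κ]).1 (by
    intro x
    by_cases hx : x ∈ VK κ
    · obtain ⟨z, hz, hxz⟩ := ZFSet.lt_rank_iff.1 (mem_VK.1 hx)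
      obtain ⟨f, hf⟩ := exists_w hxz
      exact ⟨f, Or.inl ⟨hx, z, hz, hf⟩⟩
    · obtain ⟨f, hf⟩ := exists_w (not_lt.1 fun h1 => hx (mem_VK.2 h1))
      exact ⟨f, Or.inr ⟨hx, hf⟩⟩) x hx
  obtain ⟨f, hf, ⟨h3, z, hz, h4⟩ | ⟨h3, h4⟩⟩ := h2
  · exact ⟨fun _ => (rank_le_of_w h4).trans_lt (ZFSet.rank_lt_of_mem hz), fun _ => h3⟩
  · exact ⟨fun h5 => absurd h5 h3, fun h5 => absurd (rank_le_of_w h4) (not_le.2 h5)⟩

theorem c0' {a : ZFSet.{0}} {g : ZFSet.{0} → ZFSet.{0}} (ha : a ∈ VK κ)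
    (hg : ∀ x ∈ a, g x ∈ VK κ) : gph g a ∈ VK κ := by
  have haV : ∀ x ∈ a, x ∈ VK κ := fun x hx =>
    ZFSet.isTransitive_vonNeumann _ _ ha hx
  have h1 := h.j_isFunc.1 (isFunc_gph hg)
  rw [h.fixVK ha] at h1
  have h2 : ∀ x ∈ a, pair x (g x) ∈ j (gph g a) := by
    intro x hx
    have h3 := h.j_mem.1 (pair_mem_gph.2 ⟨hx, rfl⟩ : pair x (g x) ∈ gph g a)
    rwa [h.fixVK (h.pair_VK (haV x hx) (hg x hx))] at h3
  have h3 : j (gph g a) = gph g a := by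
    ext p
    rw [mem_gph]
    constructor
    · intro hp
      obtain ⟨x, hx, y, hy, rfl⟩ := ZFSet.mem_prod.1 (h1.1 hp)
      obtain ⟨y', -, h4⟩ := h1.2 x hx
      exact ⟨x, hx, by rw [h4 y hp, h4 _ (h2 x hx)]⟩
    · rintro ⟨x, hx, rfl⟩
      exact h2 x hx
  have h4 : gph g a ∈ j (VK κ) := by
    rw [h.mem_VL_iff (h3 ▸ h.map _)]
    refine lt_of_le_of_lt ?_ h.rank_lt
    rw [ZFSet.rank_le_iff]
    intro p hp
    obtain ⟨x, hx, rfl⟩ := mem_gph.1 hp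
    exact mem_VK.1 (h.pair_VK (haV x hx) (hg x hx))
  rw [h.j_mem, h3]
  exact h4

theorem c0 {a f : ZFSet.{0}} (ha : a ∈ VK κ) (hf : ZFSet.IsFunc a (VK κ) f) : f ∈ VK κ := by
  obtain ⟨g, hg, rfl⟩ := isFunc_eq_gph hf
  exact h.c0' ha hg

omit h in
theorem kappa_sub : κ ⊆ VK κ := fun _ hx => mem_VK.2 (ZFSet.rank_lt_of_mem hx)

theorem card_lt {a : ZFSet.{0}} (ha : a ∈ VK κ) : a.card < κ.card := by
  by_contra h1
  obtain ⟨g, hg, hg'⟩ := exists_surj (b := κ) ⟨_, h.omega_mem⟩ (not_lt.1 h1)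
  have h2 := mem_VK.1 (h.c0' ha fun x hx => kappa_sub (hg x hx))
  have h3 : κ.rank ≤ (gph g a).rank := by
    rw [ZFSet.rank_le_iff]
    intro y hy
    obtain ⟨x, hx, rfl⟩ := hg' y hy
    exact (rank_right_lt _ _).trans (ZFSet.rank_lt_of_mem (pair_mem_gph.2 ⟨hx, rfl⟩))
  exact absurd h3 (not_le.2 h2)

theorem card_VK : (VK κ).card ≤ κ.card := by
  rw [VK, ZFSet.card_vonNeumann, Cardinal.preBeth_limit
    (Order.isSuccPrelimit_of_succ_lt fun o ho => by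
      rw [Order.succ_eq_add_one]
      exact h.succ_lt ho)]
  refine ciSup_le' fun a => ?_
  rw [← ZFSet.card_vonNeumann]
  refine (h.card_lt (a := ZFSet.vonNeumann a.1) ?_).le
  rw [mem_VK, ZFSet.rank_vonNeumann]
  exact a.2

theorem card_VL : (j (VK κ)).card ≤ (j κ).card := by
  have h1 : ∅ ∈ VK κ := by
    rw [mem_VK, ZFSet.rank_empty]
    exact h.pos
  obtain ⟨g, hg, hg'⟩ := exists_surj ⟨_, h1⟩ h.card_VK
  exact card_le_of_surj ((h.tr (D0.surj (D0v.proj 0) (D0v.proj 1) (D0v.proj 2))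
    ![κ, VK κ, gph g κ]).1 (surj_gph hg hg'))

theorem rng_M {f : ZFSet.{0}} (hf : f ∈ M) {a b : ZFSet.{0}} (hab : ZFSet.IsFunc a b f) :
    ∃ X ∈ M, Rng X f := by
  have h1 : D0 fun w : Fin 2 → ZFSet.{0} => (∀ p ∈ w 1, ∃ a b, p = pair a b) →
      Rng (w 0) (w 1) := by
    refine D0.imp ?_ (D0.rng (D0v.proj 0) (D0v.proj 1))
    refine D0.ball (Q := fun p w => ∃ a b, p = pair a b) (D0v.proj 1) ?_
    have h2 := D0.expair (n := 3) (F := fun w => w 0) (Q := fun a b w => True) (D0v.proj 0) D0.tt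
    exact h2.congr fun w => by simp
  have h2 := (h.trAE (n := 0) (R := fun f X v => (∀ p ∈ f, ∃ a b, p = pair a b) → Rng X f)
    (h1.comp ![0, 1]) ![]).1 (by
      intro f
      by_cases h3 : ∀ p ∈ f, ∃ a b, p = pair a b
      · refine ⟨im sn f, fun _ => ⟨fun y hy => ?_, fun p hp => ?_⟩⟩
        · obtain ⟨p, hp, rfl⟩ := mem_im.1 hy
          obtain ⟨a, b, rfl⟩ := h3 p hp
          exact ⟨_, hp, a, b, rfl, by rw [sn_pair]⟩
        · obtain ⟨a, b, rfl⟩ := h3 p hp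
          exact ⟨a, b, rfl, mem_im.2 ⟨_, hp, by rw [sn_pair]⟩⟩
      · exact ⟨∅, fun h4 => absurd h4 h3⟩) f hf
  obtain ⟨X, hX, h3⟩ := h2
  refine ⟨X, hX, h3 fun p hp => ?_⟩
  obtain ⟨x, -, y, -, rfl⟩ := ZFSet.mem_prod.1 (hab.1 hp)
  exact ⟨x, y, rfl⟩

theorem mem_of_card {X : ZFSet.{0}} (hX : ∀ z ∈ X, z ∈ M) (hc : X.card ≤ (j κ).card) :
    X ∈ M := by
  by_cases h1 : ∃ y, y ∈ X
  · obtain ⟨g, hg, hg'⟩ := exists_surj h1 hc
    have h2 : gph g (j κ) ∈ M := h.closed X _ (isFunc_gph hg) hX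
    obtain ⟨X', hX', h3⟩ := h.rng_M h2 (isFunc_gph hg)
    rw [rng_gph] at h3
    have h4 : X = X' := by
      rw [h3]
      ext y
      rw [mem_im]
      constructor
      · intro hy
        obtain ⟨x, hx, rfl⟩ := hg' y hy
        exact ⟨x, hx, rfl⟩
      · rintro ⟨x, hx, rfl⟩
        exact hg x hx
    exact h4 ▸ hX'
  · have h2 : X = ∅ := by
      rw [ZFSet.eq_empty]
      exact fun y hy => h1 ⟨y, hy⟩
    rw [h2, ← h.j_empty]
    exact h.map _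

/-- Every subset of `V_λ` is in `M`. -/
theorem sub_VL_mem {X : ZFSet.{0}} (hX : X ⊆ j (VK κ)) : X ∈ M :=
  h.mem_of_card (fun z hz => h.trans _ (h.map _) z (hX hz))
    ((ZFSet.card_mono hX).trans h.card_VL)

theorem mem_VL {x : ZFSet.{0}} : x ∈ j (VK κ) ↔ x.rank < (j κ).rank := by
  constructor
  · exact fun hx => (h.mem_VL_iff (h.trans _ (h.map _) x hx)).1 hx
  · intro hx
    induction x using ZFSet.inductionOn with
    | _ x ih =>
      exact (h.mem_VL_iff (h.sub_VL_mem fun y hy =>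
        ih y hy ((ZFSet.rank_lt_of_mem hy).trans hx))).2 hx

theorem VL_eq : j (VK κ) = VK (j κ) := by
  ext x
  rw [h.mem_VL, mem_VK]

/-! ### Transfer along the chain -/

theorem up1 {R : (Fin 1 → ZFSet.{0}) → Prop} (hR : D0 R) (h0 : R ![VK κ]) :
    R ![j (VK κ)] ∧ R ![j (j (VK κ))] ∧ R ![j (j (j (VK κ)))] := by
  have h1 := (h.tr hR _).1 h0
  rw [j_one] at h1
  have h2 := (h.tr hR _).1 h1
  rw [j_one] at h2
  have h3 := (h.tr hR _).1 h2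
  rw [j_one] at h3
  exact ⟨h1, h2, h3⟩

theorem up2 {R : (Fin 2 → ZFSet.{0}) → Prop} (hR : D0 R) (h0 : R ![VK κ, j (VK κ)]) :
    R ![j (VK κ), j (j (VK κ))] ∧ R ![j (j (VK κ)), j (j (j (VK κ)))] := by
  have h1 := (h.tr hR _).1 h0
  rw [j_two] at h1
  have h2 := (h.tr hR _).1 h1
  rw [j_two] at h2
  exact ⟨h1, h2⟩

theorem trans_all : (∀ x ∈ j (VK κ), ∀ y ∈ x, y ∈ j (VK κ)) ∧
    (∀ x ∈ j (j (VK κ)), ∀ y ∈ x, y ∈ j (j (VK κ))) ∧
    ∀ x ∈ j (j (j (VK κ))), ∀ y ∈ x, y ∈ j (j (j (VK κ))) :=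
  h.up1 (R := fun w => ∀ x ∈ w 0, ∀ y ∈ x, y ∈ w 0) (by
      (repeat' first
          | assumption
          | exact D0v.proj _
          | apply D0.not | apply D0.and | apply D0.or | apply D0.imp | apply D0.iff
          | apply D0.bex | apply D0.ball
          | apply D0.isPair | apply D0.pairMem | apply D0.subset | apply D0.eq | apply D0.mem))
    fun x hx _ hy => ZFSet.isTransitive_vonNeumann _ _ hx hy

theorem pair_all : (∀ x ∈ j (VK κ), ∀ y ∈ j (VK κ), ∃ p ∈ j (VK κ), p = pair x y) ∧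
    (∀ x ∈ j (j (VK κ)), ∀ y ∈ j (j (VK κ)), ∃ p ∈ j (j (VK κ)), p = pair x y) ∧
    ∀ x ∈ j (j (j (VK κ))), ∀ y ∈ j (j (j (VK κ))), ∃ p ∈ j (j (j (VK κ))), p = pair x y :=
  h.up1 (R := fun w => ∀ x ∈ w 0, ∀ y ∈ w 0, ∃ p ∈ w 0, p = pair x y) (by
      (repeat' first
          | assumption
          | exact D0v.proj _
          | apply D0.not | apply D0.and | apply D0.or | apply D0.imp | apply D0.iff
          | apply D0.bex | apply D0.ball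
          | apply D0.isPair | apply D0.pairMem | apply D0.subset | apply D0.eq | apply D0.mem))
    fun _ hx _ hy => ⟨_, h.pair_VK hx hy, rfl⟩

theorem sub_all : VK κ ⊆ j (VK κ) ∧ j (VK κ) ⊆ j (j (VK κ)) ∧
    j (j (VK κ)) ⊆ j (j (j (VK κ))) := by
  have h1 : VK κ ⊆ j (VK κ) := fun x hx => by
    rw [h.mem_VL]
    exact (mem_VK.1 hx).trans h.rank_lt
  have h2 := h.up2 (R := fun w => w 0 ⊆ w 1) (D0.subset (D0v.proj 0) (D0v.proj 1)) h1
  exact ⟨h1, h2.1, h2.2⟩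

theorem rng_all : (∀ f ∈ j (VK κ), ((∀ p ∈ f, ∃ a b, p = pair a b) →
      ∃ X ∈ j (VK κ), Rng X f)) ∧
    (∀ f ∈ j (j (VK κ)), ((∀ p ∈ f, ∃ a b, p = pair a b) → ∃ X ∈ j (j (VK κ)), Rng X f)) ∧
    ∀ f ∈ j (j (j (VK κ))), ((∀ p ∈ f, ∃ a b, p = pair a b) →
      ∃ X ∈ j (j (j (VK κ))), Rng X f) := by
  refine h.up1 (R := fun w => ∀ f ∈ w 0, ((∀ p ∈ f, ∃ a b, p = pair a b) →
    ∃ X ∈ w 0, Rng X f)) ?_ fun f hf hp => ?_
  · refine D0.ball (Q := fun f w => (∀ p ∈ f, ∃ a b, p = pair a b) →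
      ∃ X ∈ w 0, Rng X f) (D0v.proj 0) ?_
    refine D0.imp ?_ ?_
    · refine D0.ball (Q := fun p w => ∃ a b, p = pair a b) (D0v.proj 0) ?_
      have h2 := D0.expair (n := 3) (F := fun w => w 0) (Q := fun a b w => True) (D0v.proj 0)
        D0.tt
      exact h2.congr fun w => by simp
    · exact D0.bex (Q := fun X w => Rng X (w 0)) (D0v.proj 1)
        (D0.rng (D0v.proj 0) (D0v.proj 1))
  · refine ⟨im sn f, ?_, fun y hy => ?_, fun p hp' => ?_⟩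
    · change im sn f ∈ VK κ
      rw [mem_VK]
      refine lt_of_le_of_lt ?_ (mem_VK.1 hf)
      rw [ZFSet.rank_le_iff]
      intro y hy
      obtain ⟨p, hp', rfl⟩ := mem_im.1 hy
      obtain ⟨a, b, rfl⟩ := hp p hp'
      rw [sn_pair]
      exact (rank_right_lt a b).trans (ZFSet.rank_lt_of_mem hp')
    · obtain ⟨p, hp', rfl⟩ := mem_im.1 hy
      obtain ⟨a, b, rfl⟩ := hp p hp'
      exact ⟨_, hp', a, b, rfl, by rw [sn_pair]⟩
    · obtain ⟨a, b, rfl⟩ := hp p hp'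
      exact ⟨a, b, rfl, mem_im.2 ⟨_, hp', by rw [sn_pair]⟩⟩

/-! ### Functions into the sets of the chain -/

theorem c1 {a f : ZFSet.{0}} (ha : a ∈ j (VK κ)) (hf : ZFSet.IsFunc a (j (VK κ)) f) :
    f ∈ j (VK κ) := by
  have h1 : D0 fun w : Fin 2 → ZFSet.{0} => ∀ a ∈ w 1, ZFSet.IsFunc a (w 1) (w 0) →
      w 0 ∈ w 1 := by
    refine D0.ball (Q := fun a w => ZFSet.IsFunc a (w 1) (w 0) → w 0 ∈ w 1) (D0v.proj 1) ?_
    exact D0.imp (D0.isFunc (D0v.proj 0) (D0v.proj 2) (D0v.proj 1))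
      (D0.mem (D0v.proj 1) (D0v.proj 2))
  have h2 := (h.trA (n := 1) (R := fun f v => ∀ a ∈ v 0, ZFSet.IsFunc a (v 0) f → f ∈ v 0)
    h1 ![VK κ]).1 fun f a ha hf => h.c0 ha hf
  refine h2 f (h.sub_VL_mem fun p hp => ?_) a ha hf
  obtain ⟨x, hx, y, hy, rfl⟩ := ZFSet.mem_prod.1 (hf.1 hp)
  obtain ⟨q, hq, rfl⟩ := h.pair_all.1 x (h.trans_all.1 a ha x hx) y hy
  exact hq

theorem c1' {a f : ZFSet.{0}} (ha : a ∈ j (j (VK κ))) (hfM : f ∈ M)
    (hf : ZFSet.IsFunc a (j (j (VK κ))) f) : f ∈ j (j (VK κ)) := by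
  have h1 : D0 fun w : Fin 2 → ZFSet.{0} => ∀ a ∈ w 1, ZFSet.IsFunc a (w 1) (w 0) →
      w 0 ∈ w 1 := by
    refine D0.ball (Q := fun a w => ZFSet.IsFunc a (w 1) (w 0) → w 0 ∈ w 1) (D0v.proj 1) ?_
    exact D0.imp (D0.isFunc (D0v.proj 0) (D0v.proj 2) (D0v.proj 1))
      (D0.mem (D0v.proj 1) (D0v.proj 2))
  exact (h.trA (n := 1) (R := fun f v => ∀ a ∈ v 0, ZFSet.IsFunc a (v 0) f → f ∈ v 0)
    h1 ![j (VK κ)]).1 (fun f a ha hf => h.c1 ha hf) f hfM a ha hf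

theorem kappa_VL : κ ∈ j (VK κ) := h.mem_VL.2 h.rank_lt

theorem lam_N : j κ ∈ j (j (VK κ)) := h.j_mem.1 h.kappa_VL

theorem N_M {x : ZFSet.{0}} (hx : x ∈ j (j (VK κ))) : x ∈ M := h.trans _ (h.map _) x hx

theorem N'_M {x : ZFSet.{0}} (hx : x ∈ j (j (j (VK κ)))) : x ∈ M := h.trans _ (h.map _) x hx

theorem c2 {f : ZFSet.{0}} (hf : ZFSet.IsFunc (j κ) (j (j (VK κ))) f) : f ∈ j (j (VK κ)) :=
  h.c1' h.lam_N (h.closed _ f hf fun _ hz => h.N_M hz) hf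

theorem c2κ {f : ZFSet.{0}} (hf : ZFSet.IsFunc κ (j (j (VK κ))) f) : f ∈ j (j (VK κ)) := by
  have h1 : κ ∈ j (j (VK κ)) := h.sub_all.2.1 h.kappa_VL
  refine h.c1' h1 ?_ hf
  refine h.mem_of_card (fun p hp => ?_) ?_
  · obtain ⟨x, hx, y, hy, rfl⟩ := ZFSet.mem_prod.1 (hf.1 hp)
    obtain ⟨q, hq, rfl⟩ := h.pair_all.2.1 x (h.trans_all.2.1 _ h1 x hx) y hy
    exact h.N_M hq
  · obtain ⟨g, -, rfl⟩ := isFunc_eq_gph hf
    exact card_gph.trans (ZFSet.card_mono (h.ord'.subset_of_mem h.mem_lam))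

theorem c3 {f : ZFSet.{0}} (hf : ZFSet.IsFunc (j κ) (j (j (j (VK κ)))) f) :
    f ∈ j (j (j (VK κ))) := by
  have h1 : D0 fun w : Fin 3 → ZFSet.{0} => ZFSet.IsFunc (w 1) (w 2) (w 0) → w 0 ∈ w 2 :=
    D0.imp (D0.isFunc (D0v.proj 1) (D0v.proj 2) (D0v.proj 0)) (D0.mem (D0v.proj 0) (D0v.proj 2))
  exact (h.trA (n := 2) (R := fun f v => ZFSet.IsFunc (v 0) (v 1) f → f ∈ v 1)
    h1 ![κ, j (j (VK κ))]).1 (fun f hf => h.c2κ hf) f
      (h.closed _ f hf fun _ hz => h.N'_M hz) hf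

theorem empty_all : ∅ ∈ j (VK κ) ∧ ∅ ∈ j (j (VK κ)) ∧ ∅ ∈ j (j (j (VK κ))) := by
  have h1 : ∅ ∈ j (VK κ) := h.mem_VL.2 (by
    rw [ZFSet.rank_empty]
    exact h.pos.trans h.rank_lt)
  have h2 := h.sub_all
  exact ⟨h1, h2.2.1 h1, h2.2.2 (h2.2.1 h1)⟩

/-- `N` contains all its subsets of size `λ`. -/
theorem mem_N {X : ZFSet.{0}} (hX : X ⊆ j (j (VK κ))) (hc : X.card ≤ (j κ).card) :
    X ∈ j (j (VK κ)) := by
  by_cases h1 : ∃ y, y ∈ X
  · obtain ⟨g, hg, hg'⟩ := exists_surj h1 hc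
    have h2 := h.c2 (isFunc_gph fun x hx => hX (hg x hx))
    obtain ⟨Y, hY, h3⟩ := h.rng_all.2.1 _ h2 fun p hp => by
      obtain ⟨x, -, rfl⟩ := mem_gph.1 hp
      exact ⟨_, _, rfl⟩
    rw [rng_gph] at h3
    have h4 : X = Y := by
      rw [h3]
      ext y
      rw [mem_im]
      constructor
      · intro hy
        obtain ⟨x, hx, rfl⟩ := hg' y hy
        exact ⟨x, hx, rfl⟩
      · rintro ⟨x, hx, rfl⟩
        exact hg x hx
    exact h4 ▸ hY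
  · have h2 : X = ∅ := by
      rw [ZFSet.eq_empty]
      exact fun y hy => h1 ⟨y, hy⟩
    rw [h2]
    exact h.empty_all.2.1

/-- `N'` contains all its subsets of size `λ`. -/
theorem mem_N' {X : ZFSet.{0}} (hX : X ⊆ j (j (j (VK κ)))) (hc : X.card ≤ (j κ).card) :
    X ∈ j (j (j (VK κ))) := by
  by_cases h1 : ∃ y, y ∈ X
  · obtain ⟨g, hg, hg'⟩ := exists_surj h1 hc
    have h2 := h.c3 (isFunc_gph fun x hx => hX (hg x hx))
    obtain ⟨Y, hY, h3⟩ := h.rng_all.2.2 _ h2 fun p hp => by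
      obtain ⟨x, -, rfl⟩ := mem_gph.1 hp
      exact ⟨_, _, rfl⟩
    rw [rng_gph] at h3
    have h4 : X = Y := by
      rw [h3]
      ext y
      rw [mem_im]
      constructor
      · intro hy
        obtain ⟨x, hx, rfl⟩ := hg' y hy
        exact ⟨x, hx, rfl⟩
      · rintro ⟨x, hx, rfl⟩
        exact hg x hx
    exact h4 ▸ hY
  · have h2 : X = ∅ := by
      rw [ZFSet.eq_empty]
      exact fun y hy => h1 ⟨y, hy⟩
    rw [h2]
    exact h.empty_all.2.2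

/-- `N` contains all subsets of `V_λ`. -/
theorem sub_VL_N {X : ZFSet.{0}} (hX : X ⊆ j (VK κ)) : X ∈ j (j (VK κ)) :=
  h.mem_N (fun _ hx => h.sub_all.2.1 (hX hx)) ((ZFSet.card_mono hX).trans h.card_VL)

end IsHugeEmb

end Pool.Agent.H82.HE
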