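import Pool.Agent.H82.HEC

/-!
# Elementarity and ZFC
-/

set_option autoImplicit false
set_option linter.unreachableTactic false
set_option linter.unusedTactic false

namespace Pool.Agent.H82.HE

open Pool.Agent.W868
open ZFSet (pair)

theorem D0.sat1 {A : Type} (φ : Fml A 1) {m : ℕ} {F G : (Fin m → ZFSet.{0}) → ZFSet.{0}}
    {P : A → (Fin m → ZFSet.{0}) → ZFSet.{0}} (hF : D0v F) (hP : ∀ a, D0v (P a)) (hG : D0v G) :
    D0 fun w => Sat {x | x ∈ F w} (fun a => P a w) φ ![G w] := by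
  refine (D0.sat φ (F := F) (P := P) (G := fun _ => G) hF hP fun _ => hG).congr fun w => ?_
  have h1 : (fun _ => G w : Fin 1 → ZFSet.{0}) = ![G w] := by
    funext i
    fin_cases i
    rfl
  rw [h1]

theorem D0.sat2 {A : Type} (φ : Fml A 2) {m : ℕ} {F G H : (Fin m → ZFSet.{0}) → ZFSet.{0}}
    {P : A → (Fin m → ZFSet.{0}) → ZFSet.{0}} (hF : D0v F) (hP : ∀ a, D0v (P a)) (hG : D0v G)
    (hH : D0v H) :
    D0 fun w => Sat {x | x ∈ F w} (fun a => P a w) φ ![G w, H w] := by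
  refine (D0.sat φ (F := F) (P := P) (G := ![G, H]) hF hP fun i => ?_).congr fun w => ?_
  · fin_cases i
    exacts [hG, hH]
  · have h1 : (fun k => (![G, H] : Fin 2 → (Fin m → ZFSet.{0}) → ZFSet.{0}) k w) =
        ![G w, H w] := by
      funext i
      fin_cases i <;> rfl
    rw [h1]

theorem over_univ {A : Type} {n : ℕ} (φ : Fml A n) : φ.Over Set.univ := by
  induction φ with
  | mem s t => exact ⟨fun _ _ => trivial, fun _ _ => trivial⟩
  | eq s t => exact ⟨fun _ _ => trivial, fun _ _ => trivial⟩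
  | neg φ ih => exact ih
  | and φ ψ ih1 ih2 => exact ⟨ih1, ih2⟩
  | ex φ ih => exact ih

namespace IsHugeEmb

variable {κ : ZFSet.{0}} {M : Set ZFSet.{0}} {j : ZFSet.{0} → ZFSet.{0}} (h : IsHugeEmb κ M j)

include h

theorem elem_VK_VL {n : ℕ} (φ : Fml Empty n) (v : Fin n → ZFSet.{0}) (hv : ∀ k, v k ∈ VK κ) :
    Sat {x | x ∈ VK κ} Empty.elim φ v ↔ Sat {x | x ∈ j (VK κ)} Empty.elim φ v := by
  have h1 := D0.sat φ (m := 1 + n) (F := fun w => w (Fin.castAdd n 0))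
    (P := fun a : Empty => a.elim) (G := fun k w => w (Fin.natAdd 1 k)) (D0v.proj _)
    (fun a => a.elim) fun k => D0v.proj _
  have h2 := h.tr h1 (Fin.append ![VK κ] v)
  simp only [Fin.append_left, Fin.append_right] at h2
  have h3 : (fun k => j (v k)) = v := funext fun k => h.fixVK (hv k)
  rw [h3] at h2
  have h4 : ∀ w : Fin (1 + n) → ZFSet.{0},
      (fun a => (Empty.elim a : (Fin (1 + n) → ZFSet.{0}) → ZFSet.{0}) w) = Empty.elim :=
    fun w => funext fun a => a.elim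
  simp only [h4] at h2
  exact h2

theorem elem_chain {n : ℕ} (φ : Fml Empty n) :
    (∀ v : Fin n → ZFSet.{0}, (∀ k, v k ∈ j (VK κ)) →
      (Sat {x | x ∈ j (VK κ)} Empty.elim φ v ↔ Sat {x | x ∈ j (j (VK κ))} Empty.elim φ v)) ∧
    ∀ v : Fin n → ZFSet.{0}, (∀ k, v k ∈ j (j (VK κ))) →
      (Sat {x | x ∈ j (j (VK κ))} Empty.elim φ v ↔
        Sat {x | x ∈ j (j (j (VK κ)))} Empty.elim φ v) := by
  refine h.up2 (R := fun w => ∀ v : Fin n → ZFSet.{0}, (∀ k, v k ∈ w 0) →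
    (Sat {x | x ∈ w 0} Empty.elim φ v ↔ Sat {x | x ∈ w 1} Empty.elim φ v)) ?_
    fun v hv => h.elem_VK_VL φ v hv
  refine D0.ballT 0 n (fun v w => (Sat {x | x ∈ w 0} Empty.elim φ v ↔
    Sat {x | x ∈ w 1} Empty.elim φ v)) ?_
  have h4 : ∀ w : Fin (n + 2) → ZFSet.{0},
      (fun a => (Empty.elim a : (Fin (n + 2) → ZFSet.{0}) → ZFSet.{0}) w) = Empty.elim :=
    fun w => funext fun a => a.elim
  have h1 : ∀ i : Fin 2, D0 fun w : Fin (n + 2) → ZFSet.{0} =>
      Sat {x | x ∈ w (Fin.natAdd n i)} Empty.elim φ fun k => w (Fin.castAdd 2 k) := by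
    intro i
    refine (D0.sat φ (m := n + 2) (F := fun w => w (Fin.natAdd n i))
      (P := fun a : Empty => a.elim) (G := fun k w => w (Fin.castAdd 2 k)) (D0v.proj _)
      (fun a => a.elim) fun k => D0v.proj _).congr fun w => ?_
    simp only [h4]
  exact (h1 0).iff (h1 1)

/-- `V_κ` is an elementary substructure of `N`. -/
theorem elem_VK_N {n : ℕ} (φ : Fml Empty n) (v : Fin n → ZFSet.{0}) (hv : ∀ k, v k ∈ VK κ) :
    Sat {x | x ∈ VK κ} Empty.elim φ v ↔ Sat {x | x ∈ j (j (VK κ))} Empty.elim φ v :=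
  (h.elem_VK_VL φ v hv).trans ((h.elem_chain φ).1 v fun k => h.sub_all.1 (hv k))

theorem isZF_VK : IsZFC {x | x ∈ VK κ} where
  trans x hx y hy := ZFSet.isTransitive_vonNeumann _ _ hx hy
  pairing x hx y hy := by
    rw [Set.mem_ofPred_eq, mem_VK] at *
    rw [ZFSet.rank_pair, Order.succ_eq_add_one, Order.succ_eq_add_one]
    exact max_lt (h.succ_lt hx) (h.succ_lt hy)
  union x hx := by
    rw [Set.mem_ofPred_eq, mem_VK] at *
    exact (ZFSet.rank_sUnion_le x).trans_lt hx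
  infinity := kappa_sub h.omega_mem
  power x hx := by
    refine ⟨ZFSet.powerset x, ?_, fun z => ?_⟩
    · rw [Set.mem_ofPred_eq, mem_VK] at *
      rw [ZFSet.rank_powerset, Order.succ_eq_add_one]
      exact h.succ_lt hx
    · rw [ZFSet.mem_powerset]
      exact ⟨fun hz => ⟨ZFSet.mem_vonNeumann_of_subset hz hx, hz⟩, fun hz => hz.2⟩
  separation φ _ x hx := by
    refine ⟨x.sep fun z => Sat {x | x ∈ VK κ} id φ ![z], ?_, fun z => ZFSet.mem_sep⟩
    exact ZFSet.mem_vonNeumann_of_subset (fun z hz => (ZFSet.mem_sep.1 hz).1) hx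
  replacement φ _ x hx hfun := by
    classical
    have h1 : ∀ z : ZFSet.{0}, ∃ w, z ∈ x → (w ∈ VK κ ∧ Sat {x | x ∈ VK κ} id φ ![z, w]) ∧
        ∀ w', w' ∈ VK κ → Sat {x | x ∈ VK κ} id φ ![z, w'] → w' = w := by
      intro z
      by_cases hz : z ∈ x
      · obtain ⟨w, h2, h3⟩ := hfun z hz
        exact ⟨w, fun _ => ⟨h2, fun w' h4 h5 => h3 w' ⟨h4, h5⟩⟩⟩
      · exact ⟨∅, fun h4 => absurd h4 hz⟩
    choose g hg using h1
    have h2 := mem_VK.1 (h.c0' hx fun z hz => (hg z hz).1.1)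
    refine ⟨im g x, ?_, fun w => ?_⟩
    · rw [Set.mem_ofPred_eq, mem_VK]
      refine lt_of_le_of_lt ?_ h2
      rw [ZFSet.rank_le_iff]
      intro y hy
      obtain ⟨z, hz, rfl⟩ := mem_im.1 hy
      exact (rank_right_lt _ _).trans (ZFSet.rank_lt_of_mem (pair_mem_gph.2 ⟨hz, rfl⟩))
    · rw [mem_im]
      constructor
      · rintro ⟨z, hz, rfl⟩
        exact ⟨(hg z hz).1.1, z, hz, (hg z hz).1.2⟩
      · rintro ⟨hw, z, hz, h3⟩
        exact ⟨z, hz, (hg z hz).2 w hw h3⟩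
  choice x hx hne hdis := by
    classical
    have h1 : ∀ y : ZFSet.{0}, ∃ z, y ∈ x → z ∈ y := by
      intro y
      by_cases hy : y ∈ x
      · obtain ⟨z, hz⟩ := hne y hy
        exact ⟨z, fun _ => hz⟩
      · exact ⟨∅, fun h4 => absurd h4 hy⟩
    choose g hg using h1
    refine ⟨im g x, ?_, fun y hy => ⟨g y, ⟨hg y hy, mem_im.2 ⟨y, hy, rfl⟩⟩, ?_⟩⟩
    · have h2 : im g x ⊆ ZFSet.sUnion x := by
        intro z hz
        obtain ⟨y, hy, rfl⟩ := mem_im.1 hz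
        exact ZFSet.mem_sUnion.2 ⟨y, hy, hg y hy⟩
      refine ZFSet.mem_vonNeumann_of_subset h2 ?_
      change ZFSet.sUnion x ∈ VK κ
      rw [Set.mem_ofPred_eq, mem_VK] at *
      exact (ZFSet.rank_sUnion_le x).trans_lt hx
    · rintro z ⟨hz, hz'⟩
      obtain ⟨y', hy', rfl⟩ := mem_im.1 hz'
      rw [hdis y hy y' hy' _ hz (hg y' hy')]

theorem omega_N : ZFSet.omega ∈ j (j (VK κ)) :=
  h.sub_all.2.1 (h.sub_all.1 (kappa_sub h.omega_mem))

theorem isZF_N : IsZFC {x | x ∈ j (j (VK κ))} where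
  trans := h.trans_all.2.1
  pairing x hx y hy := by
    have h1 := (h.up1 (R := fun w => ∀ x ∈ w 0, ∀ y ∈ w 0, ∃ p ∈ w 0, x ∈ p ∧ y ∈ p ∧
      ∀ z ∈ p, z = x ∨ z = y) (by
          (repeat' first
              | assumption
              | exact D0v.proj _
              | apply D0.not | apply D0.and | apply D0.or | apply D0.imp | apply D0.iff
              | apply D0.bex | apply D0.ball
              | apply D0.isPair | apply D0.pairMem | apply D0.subset | apply D0.eq | apply D0.mem)) fun x hx y hy =>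
        ⟨{x, y}, h.isZF_VK.pairing x hx y hy, ZFSet.mem_pair.2 (Or.inl rfl),
          ZFSet.mem_pair.2 (Or.inr rfl), fun z hz => ZFSet.mem_pair.1 hz⟩).2.1
    obtain ⟨p, hp, h2, h3, h4⟩ := h1 x hx y hy
    have h5 : ({x, y} : ZFSet.{0}) = p := by
      ext z
      rw [ZFSet.mem_pair]
      exact ⟨fun h6 => h6.elim (fun h7 => h7 ▸ h2) (fun h7 => h7 ▸ h3), h4 z⟩
    rw [h5]
    exact hp
  union x hx := by
    have h1 := (h.up1 (R := fun w => ∀ x ∈ w 0, ∃ u ∈ w 0, (∀ z ∈ u, ∃ y ∈ x, z ∈ y) ∧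
      ∀ y ∈ x, ∀ z ∈ y, z ∈ u) (by
          (repeat' first
              | assumption
              | exact D0v.proj _
              | apply D0.not | apply D0.and | apply D0.or | apply D0.imp | apply D0.iff
              | apply D0.bex | apply D0.ball
              | apply D0.isPair | apply D0.pairMem | apply D0.subset | apply D0.eq | apply D0.mem)) fun x hx =>
        ⟨ZFSet.sUnion x, h.isZF_VK.union x hx, fun z hz => ZFSet.mem_sUnion.1 hz,
          fun y hy z hz => ZFSet.mem_sUnion.2 ⟨y, hy, hz⟩⟩).2.1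
    obtain ⟨u, hu, h2, h3⟩ := h1 x hx
    have h5 : ZFSet.sUnion x = u := by
      ext z
      rw [ZFSet.mem_sUnion]
      exact ⟨fun ⟨y, hy, hz⟩ => h3 y hy z hz, h2 z⟩
    rw [h5]
    exact hu
  infinity := h.omega_N
  power x hx := by
    have h1 := (h.up1 (R := fun w => ∀ x ∈ w 0, ∃ y ∈ w 0, ∀ z ∈ w 0, (z ∈ y ↔ z ⊆ x))
      (by
          (repeat' first
              | assumption
              | exact D0v.proj _
              | apply D0.not | apply D0.and | apply D0.or | apply D0.imp | apply D0.iff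
              | apply D0.bex | apply D0.ball
              | apply D0.isPair | apply D0.pairMem | apply D0.subset | apply D0.eq | apply D0.mem)) fun x hx => by
        obtain ⟨y, hy, h2⟩ := h.isZF_VK.power x hx
        exact ⟨y, hy, fun z hz => (h2 z).trans ⟨fun h3 => h3.2, fun h3 => ⟨hz, h3⟩⟩⟩).2.1
    obtain ⟨y, hy, h2⟩ := h1 x hx
    refine ⟨y, hy, fun z => ⟨fun hz => ?_, fun hz => (h2 z hz.1).2 hz.2⟩⟩
    have hz' := h.trans_all.2.1 y hy z hz
    exact ⟨hz', (h2 z hz').1 hz⟩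
  separation φ hφ x hx := by
    obtain ⟨k, ψ, p, hp, rfl⟩ := exists_map φ
    have h1 := (h.up1 (R := fun w => ∀ p : Fin k → ZFSet.{0}, (∀ l, p l ∈ w 0) →
      ∀ x ∈ w 0, ∃ y ∈ w 0, ∀ z ∈ w 0, (z ∈ y ↔ z ∈ x ∧ Sat {x | x ∈ w 0} p ψ ![z])) ?_
      fun p hp x hx => ?_).2.1
    · obtain ⟨y, hy, h2⟩ := h1 p (hp _ hφ) x hx
      refine ⟨y, hy, fun z => ?_⟩
      rw [sat_map]
      constructor
      · intro hz
        exact (h2 z (h.trans_all.2.1 y hy z hz)).1 hz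
      · intro hz
        exact (h2 z (h.trans_all.2.1 x hx z hz.1)).2 hz
    · refine D0.ballT 0 k (fun p w => ∀ x ∈ w 0, ∃ y ∈ w 0, ∀ z ∈ w 0,
        (z ∈ y ↔ z ∈ x ∧ Sat {x | x ∈ w 0} p ψ ![z])) ?_
      refine D0.ball (F := fun w => w (Fin.natAdd k 0)) (Q := fun x w =>
        ∃ y ∈ w (Fin.natAdd k 0), ∀ z ∈ w (Fin.natAdd k 0), (z ∈ y ↔ z ∈ x ∧
          Sat {x | x ∈ w (Fin.natAdd k 0)} (fun l => w (Fin.castAdd 1 l)) ψ ![z]))
        (D0v.proj _) ?_
      refine D0.bex (Q := fun y w => ∀ z ∈ Fin.tail w (Fin.natAdd k 0), (z ∈ y ↔ z ∈ w 0 ∧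
          Sat {x | x ∈ Fin.tail w (Fin.natAdd k 0)} (fun l => Fin.tail w (Fin.castAdd 1 l)) ψ
            ![z])) (D0v.proj _) ?_
      refine D0.ball (Q := fun z w => (z ∈ w 0 ↔ z ∈ w 1 ∧
          Sat {x | x ∈ Fin.tail (Fin.tail w) (Fin.natAdd k 0)}
            (fun l => Fin.tail (Fin.tail w) (Fin.castAdd 1 l)) ψ
            ![z])) (D0v.proj _) ?_
      exact (D0.mem (D0v.proj 0) (D0v.proj 1)).iff ((D0.mem (D0v.proj 0) (D0v.proj 2)).and
        (D0.sat1 (P := fun l w => Fin.tail (Fin.tail (Fin.tail w)) (Fin.castAdd 1 l)) ψ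
          (D0v.proj _) (fun l => D0v.proj _) (D0v.proj 0)))
    · obtain ⟨y, hy, h2⟩ := h.isZF_VK.separation (ψ.map p) ((over_map p ψ).2 (by
        have h3 : p ⁻¹' {x | x ∈ VK κ} = Set.univ := by
          ext l
          simpa using hp l
        rw [h3]
        exact over_univ ψ)) x hx
      refine ⟨y, hy, fun z hz => ?_⟩
      rw [h2, sat_map]
      rfl
  replacement φ hφ x hx hfun := by
    obtain ⟨k, ψ, p, hp, rfl⟩ := exists_map φ
    have h1 := (h.up1 (R := fun w => ∀ p : Fin k → ZFSet.{0}, (∀ l, p l ∈ w 0) →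
      ∀ x ∈ w 0, (∀ z ∈ x, ∃ w' ∈ w 0, Sat {x | x ∈ w 0} p ψ ![z, w'] ∧
        ∀ w'' ∈ w 0, Sat {x | x ∈ w 0} p ψ ![z, w''] → w'' = w') →
        ∃ y ∈ w 0, ∀ w' ∈ w 0, (w' ∈ y ↔ ∃ z ∈ x, Sat {x | x ∈ w 0} p ψ ![z, w'])) ?_
      fun p hp x hx hfun => ?_).2.1
    · simp only [sat_map] at hfun
      obtain ⟨y, hy, h2⟩ := h1 p (hp _ hφ) x hx fun z hz => by
        obtain ⟨w, ⟨h3, h4⟩, h5⟩ := hfun z hz
        exact ⟨w, h3, h4, fun w' h6 h7 => h5 w' ⟨h6, h7⟩⟩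
      refine ⟨y, hy, fun w => ?_⟩
      simp only [sat_map]
      constructor
      · intro hw
        have hw' := h.trans_all.2.1 y hy w hw
        exact ⟨hw', (h2 w hw').1 hw⟩
      · rintro ⟨hw', h3⟩
        exact (h2 w hw').2 h3
    · refine D0.ballT 0 k (fun p w => ∀ x ∈ w 0, (∀ z ∈ x, ∃ w' ∈ w 0,
        Sat {x | x ∈ w 0} p ψ ![z, w'] ∧
        ∀ w'' ∈ w 0, Sat {x | x ∈ w 0} p ψ ![z, w''] → w'' = w') →
        ∃ y ∈ w 0, ∀ w' ∈ w 0, (w' ∈ y ↔ ∃ z ∈ x, Sat {x | x ∈ w 0} p ψ ![z, w'])) ?_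
      refine D0.ball (F := fun w => w (Fin.natAdd k 0)) (Q := fun x w =>
        (∀ z ∈ x, ∃ w' ∈ w (Fin.natAdd k 0),
        Sat {x | x ∈ w (Fin.natAdd k 0)} (fun l => w (Fin.castAdd 1 l)) ψ ![z, w'] ∧
        ∀ w'' ∈ w (Fin.natAdd k 0), Sat {x | x ∈ w (Fin.natAdd k 0)}
          (fun l => w (Fin.castAdd 1 l)) ψ ![z, w''] → w'' = w') →
        ∃ y ∈ w (Fin.natAdd k 0), ∀ w' ∈ w (Fin.natAdd k 0), (w' ∈ y ↔ ∃ z ∈ x,
          Sat {x | x ∈ w (Fin.natAdd k 0)} (fun l => w (Fin.castAdd 1 l)) ψ ![z, w']))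
        (D0v.proj _) ?_
      refine D0.imp ?_ ?_
      · refine D0.ball (Q := fun z w => ∃ w' ∈ Fin.tail w (Fin.natAdd k 0),
          Sat {x | x ∈ Fin.tail w (Fin.natAdd k 0)} (fun l => Fin.tail w (Fin.castAdd 1 l)) ψ
            ![z, w'] ∧
          ∀ w'' ∈ Fin.tail w (Fin.natAdd k 0), Sat {x | x ∈ Fin.tail w (Fin.natAdd k 0)}
            (fun l => Fin.tail w (Fin.castAdd 1 l)) ψ ![z, w''] → w'' = w') (D0v.proj _) ?_
        refine D0.bex (Q := fun w' w =>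
          Sat {x | x ∈ Fin.tail (Fin.tail w) (Fin.natAdd k 0)}
            (fun l => Fin.tail (Fin.tail w) (Fin.castAdd 1 l)) ψ ![w 0, w'] ∧
          ∀ w'' ∈ Fin.tail (Fin.tail w) (Fin.natAdd k 0),
            Sat {x | x ∈ Fin.tail (Fin.tail w) (Fin.natAdd k 0)}
            (fun l => Fin.tail (Fin.tail w) (Fin.castAdd 1 l)) ψ ![w 0, w''] → w'' = w')
            (D0v.proj _) ?_
        refine D0.and ?_ ?_
        · exact D0.sat2 (P := fun l w => Fin.tail (Fin.tail (Fin.tail w)) (Fin.castAdd 1 l)) ψ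
            (D0v.proj _) (fun l => D0v.proj _) (D0v.proj 1) (D0v.proj 0)
        · refine D0.ball (Q := fun w'' w =>
            Sat {x | x ∈ Fin.tail (Fin.tail (Fin.tail w)) (Fin.natAdd k 0)}
            (fun l => Fin.tail (Fin.tail (Fin.tail w)) (Fin.castAdd 1 l)) ψ ![w 1, w''] →
              w'' = w 0) (D0v.proj _) ?_
          refine D0.imp ?_ (D0.eq (D0v.proj 0) (D0v.proj 1))
          exact D0.sat2 (P := fun l w => Fin.tail (Fin.tail (Fin.tail (Fin.tail w)))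
            (Fin.castAdd 1 l)) ψ (D0v.proj _) (fun l => D0v.proj _) (D0v.proj 2) (D0v.proj 0)
      · refine D0.bex (Q := fun y w => ∀ w' ∈ Fin.tail w (Fin.natAdd k 0), (w' ∈ y ↔
          ∃ z ∈ w 0, Sat {x | x ∈ Fin.tail w (Fin.natAdd k 0)}
            (fun l => Fin.tail w (Fin.castAdd 1 l)) ψ ![z, w'])) (D0v.proj _) ?_
        refine D0.ball (Q := fun w' w => (w' ∈ w 0 ↔
          ∃ z ∈ w 1, Sat {x | x ∈ Fin.tail (Fin.tail w) (Fin.natAdd k 0)}
            (fun l => Fin.tail (Fin.tail w) (Fin.castAdd 1 l)) ψ ![z, w'])) (D0v.proj _) ?_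
        refine (D0.mem (D0v.proj 0) (D0v.proj 1)).iff ?_
        refine D0.bex (Q := fun z w => Sat {x | x ∈ Fin.tail (Fin.tail (Fin.tail w))
          (Fin.natAdd k 0)} (fun l => Fin.tail (Fin.tail (Fin.tail w)) (Fin.castAdd 1 l)) ψ
            ![z, w 0]) (D0v.proj 2) ?_
        exact D0.sat2 (P := fun l w => Fin.tail (Fin.tail (Fin.tail (Fin.tail w)))
            (Fin.castAdd 1 l)) ψ (D0v.proj _) (fun l => D0v.proj _) (D0v.proj 0) (D0v.proj 1)
    · obtain ⟨y, hy, h2⟩ := h.isZF_VK.replacement (ψ.map p) ((over_map p ψ).2 (by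
        have h3 : p ⁻¹' {x | x ∈ VK κ} = Set.univ := by
          ext l
          simpa using hp l
        rw [h3]
        exact over_univ ψ)) x hx fun z hz => by
          obtain ⟨w, h3, h4, h5⟩ := hfun z hz
          simp only [sat_map]
          exact ⟨w, ⟨h3, h4⟩, fun w' h6 => h5 w' h6.1 h6.2⟩
      refine ⟨y, hy, fun w hw => ?_⟩
      rw [h2]
      simp only [sat_map]
      exact ⟨fun h3 => h3.2, fun h3 => ⟨hw, h3⟩⟩
  choice x hx hne hdis := by
    have h1 := (h.up1 (R := fun w => ∀ x ∈ w 0, (∀ y ∈ x, ∃ z ∈ y, z = z) →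
      (∀ y ∈ x, ∀ y' ∈ x, ∀ z ∈ y, z ∈ y' → y = y') →
      ∃ c ∈ w 0, ∀ y ∈ x, ∃ z ∈ y, z ∈ c ∧ ∀ z' ∈ y, z' ∈ c → z' = z) (by
          (repeat' first
              | assumption
              | exact D0v.proj _
              | apply D0.not | apply D0.and | apply D0.or | apply D0.imp | apply D0.iff
              | apply D0.bex | apply D0.ball
              | apply D0.isPair | apply D0.pairMem | apply D0.subset | apply D0.eq | apply D0.mem))
      fun x hx hne hdis => by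
        obtain ⟨c, hc, h2⟩ := h.isZF_VK.choice x hx (fun y hy => by
          obtain ⟨z, hz, -⟩ := hne y hy
          exact ⟨z, hz⟩) hdis
        refine ⟨c, hc, fun y hy => ?_⟩
        obtain ⟨z, ⟨h3, h4⟩, h5⟩ := h2 y hy
        exact ⟨z, h3, h4, fun z' h6 h7 => h5 z' ⟨h6, h7⟩⟩).2.1
    obtain ⟨c, hc, h2⟩ := h1 x hx (fun y hy => by
      obtain ⟨z, hz⟩ := hne y hy
      exact ⟨z, hz, rfl⟩) hdis
    refine ⟨c, hc, fun y hy => ?_⟩
    obtain ⟨z, h3, h4, h5⟩ := h2 y hy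
    exact ⟨z, ⟨h3, h4⟩, fun z' h6 => h5 z' h6.1 h6.2⟩

end IsHugeEmb

end Pool.Agent.H82.HE
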