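import Pool.Graph.R_seed8.W868.DZero

/-!
# Huge cardinals and exact structural reflection: the definitions
-/

set_option autoImplicit false

namespace Pool.Agent.H82.HE

open Pool.Agent.W868
open ZFSet (pair)
open FirstOrder

/-! ### Structures coded by sets -/

/-- The set that codes the finite sequence `v`: the function `i ↦ v i` on `{0, ..., n - 1}`. -/
noncomputable def seq {n : ℕ} (v : Fin n → ZFSet.{0}) : ZFSet.{0} :=
  ZFSet.range fun i : Fin n => pair (nat i) (v i)

/-- The relation symbol `s` of arity `n`, as a set. -/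
noncomputable def relSym (n : ℕ) (s : ZFSet.{0}) : ZFSet.{0} := pair (nat 0) (pair (nat n) s)

/-- The function symbol `s` of arity `n`, as a set. -/
noncomputable def funSym (n : ℕ) (s : ZFSet.{0}) : ZFSet.{0} := pair (nat 1) (pair (nat n) s)

/-- The first-order language given by a set `τ` of symbols. -/
def Lang (τ : ZFSet.{0}) : FirstOrder.Language.{1, 1} where
  Functions n := {s : ZFSet.{0} // funSym n s ∈ τ}
  Relations n := {s : ZFSet.{0} // relSym n s ∈ τ}

/-- `I` interprets the symbols of `τ` in the nonempty set `D`: the relation symbol `r` holds of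
the tuple `v` if `(r, v) ∈ I`, and the function symbol `f` has the value `y` at the tuple `v` if
`(f, v⌢y) ∈ I`. -/
structure IsStr (τ D I : ZFSet.{0}) : Prop where
  nonempty : ∃ x, x ∈ D
  total : ∀ (n : ℕ) (s : ZFSet.{0}), funSym n s ∈ τ → ∀ v : Fin n → ZFSet.{0}, (∀ i, v i ∈ D) →
    ∃! y, y ∈ D ∧ pair (funSym n s) (seq (Fin.snoc v y : Fin (n + 1) → ZFSet.{0})) ∈ I

/-- The structure with domain `D` coded by `τ`, `D`, `I`. -/
@[reducible] noncomputable def str {τ D I : ZFSet.{0}} (h : IsStr τ D I) :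
    (Lang τ).Structure {x : ZFSet.{0} // x ∈ D} where
  funMap {n} f v :=
    ⟨(h.total n f.1 f.2 (fun i => (v i).1) fun i => (v i).2).choose,
      (h.total n f.1 f.2 (fun i => (v i).1) fun i => (v i).2).choose_spec.1.1⟩
  RelMap {n} r v := pair (relSym n r.1) (seq fun i => (v i).1) ∈ I

/-- `e` is the graph of an elementary embedding of the structure `(D, I)` into the structure
`(D', I')`, both for the language `τ`. -/
def IsElemEmb (τ D I D' I' e : ZFSet.{0}) : Prop :=
  ∃ (h : IsStr τ D I) (h' : IsStr τ D' I'),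
    letI := str h
    letI := str h'
    ∃ g : {x : ZFSet.{0} // x ∈ D} ↪ₑ[Lang τ] {x : ZFSet.{0} // x ∈ D'},
      ∀ p, p ∈ e ↔ ∃ x : {x : ZFSet.{0} // x ∈ D}, p = pair x.1 (g x).1

/-! ### Exact structural reflection in a transitive model -/

/-- `κ` is a cardinal in the transitive model `N`: an ordinal that is not the image of a smaller
ordinal under a function of `N`. -/
def IsCardIn (N κ : ZFSet.{0}) : Prop :=
  κ.IsOrdinal ∧ ∀ α ∈ κ, ¬ ∃ f ∈ N, ZFSet.IsFunc α κ f ∧ ∀ y ∈ κ, ∃ x, pair x y ∈ f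

/-- In the transitive model `N`, the formula `φ` defines a class of structures of the same
type `τ`. -/
def SameType (N : ZFSet.{0}) (φ : Fml Empty 1) (τ : ZFSet.{0}) : Prop :=
  ∀ S ∈ N, Sat {x | x ∈ N} Empty.elim φ ![S] → ∃ D I, S = pair τ (pair D I) ∧ IsStr τ D I

/-- `ESR_C(κ, λ)` in the transitive model `N`, for the class `C` of structures of type `τ` that is
defined by `φ` in `N`: every structure in `C` whose domain has rank `λ` has an elementary
embedding, in `N`, from a structure in `C` whose domain has rank `κ`. -/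
def ESR (N : ZFSet.{0}) (φ : Fml Empty 1) (τ κ lam : ZFSet.{0}) : Prop :=
  ∀ D I, pair τ (pair D I) ∈ N → Sat {x | x ∈ N} Empty.elim φ ![pair τ (pair D I)] →
    D.rank = lam.rank →
      ∃ D' I', pair τ (pair D' I') ∈ N ∧
        Sat {x | x ∈ N} Empty.elim φ ![pair τ (pair D' I')] ∧
        D'.rank = κ.rank ∧ ∃ e ∈ N, IsElemEmb τ D' I' D I e

/-! ### Huge cardinals -/

/-- `j : V → M` witnesses that `κ` is huge: `M` is a transitive class that is closed under
sequences of length `j κ`, `j` is an elementary embedding of the universe into `M`, and `κ` is the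
least ordinal that is moved by `j`. -/
structure IsHugeEmb (κ : ZFSet.{0}) (M : Set ZFSet.{0}) (j : ZFSet.{0} → ZFSet.{0}) : Prop where
  trans : ∀ x ∈ M, ∀ y ∈ x, y ∈ M
  map : ∀ x, j x ∈ M
  elem : ∀ (n : ℕ) (φ : Fml Empty n) (v : Fin n → ZFSet.{0}),
    Sat Set.univ Empty.elim φ v ↔ Sat M Empty.elim φ fun i => j (v i)
  ord : κ.IsOrdinal
  fix : ∀ α ∈ κ, j α = α
  moved : j κ ≠ κ
  closed : ∀ y f, ZFSet.IsFunc (j κ) y f → (∀ z ∈ y, z ∈ M) → f ∈ M

/-- `κ` is a huge cardinal. -/
def IsHuge (κ : ZFSet.{0}) : Prop :=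
  ∃ (M : Set ZFSet.{0}) (j : ZFSet.{0} → ZFSet.{0}), IsHugeEmb κ M j

end Pool.Agent.H82.HE
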