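import Mathlib

/-!
# An abstract criterion for first-order definability
-/

set_option autoImplicit false

namespace Pool.Agent.H82.HE

open FirstOrder FirstOrder.Language

section

variable {L : FirstOrder.Language}

/-- The value of a term depends on the used coordinates only. -/
theorem realize_agree {C : Type*} [L.Structure C] {k m b : ℕ} (hb : k + m ≤ b)
    (t : L.Term (Fin k ⊕ Fin m)) {s s' : ℕ → C} (h : ∀ x < b, s' x = s x) :
    t.realize (Sum.elim (fun i : Fin k => s' i) fun i : Fin m => s' (k + i)) =
      t.realize (Sum.elim (fun i : Fin k => s i) fun i : Fin m => s (k + i)) := by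
  congr 1
  funext i
  rcases i with i | i
  · exact h i (by omega)
  · exact h (k + i) (by omega)

/-- Adding fresh coordinates for the values of terms, one side. -/
theorem subst_side {C : Type*} [L.Structure C] {k m b n : ℕ} (hb : k + m ≤ b)
    (ts : Fin n → L.Term (Fin k ⊕ Fin m)) (T : (Fin n → C) → (ℕ → C) → Prop)
    (hT : ∀ a s s', (∀ x < b, s' x = s x) → (T a s ↔ T a s')) (s : ℕ → C) :
    (∃ s', (∀ x, x < b ∨ b + n ≤ x → s' x = s x) ∧
      ((∀ i, (ts i).realize (Sum.elim (fun i : Fin k => s' i) fun i : Fin m => s' (k + i)) =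
        s' (b + i)) ∧ T (fun i => s' (b + i)) s')) ↔
    T (fun i => (ts i).realize (Sum.elim (fun i : Fin k => s i) fun i : Fin m => s (k + i))) s := by
  constructor
  · rintro ⟨s', h1, h2, h3⟩
    have h4 : ∀ x < b, s' x = s x := fun x hx => h1 x (Or.inl hx)
    rw [hT _ s s' h4]
    have h5 : (fun i => (ts i).realize
        (Sum.elim (fun i : Fin k => s i) fun i : Fin m => s (k + i))) =
        fun i : Fin n => s' (b + i) := by
      funext i
      rw [← h2 i, realize_agree hb (ts i) h4]
    rw [h5]
    exact h3
  · intro h3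
    classical
    let a : Fin n → C := fun i =>
      (ts i).realize (Sum.elim (fun i : Fin k => s i) fun i : Fin m => s (k + i))
    let s' : ℕ → C := fun x => if hx : b ≤ x ∧ x < b + n then a ⟨x - b, by omega⟩ else s x
    have h4 : ∀ x < b, s' x = s x := fun x hx => dif_neg (by omega)
    have h6 : ∀ i : Fin n, s' (b + i) = a i := by
      intro i
      have h7 : b ≤ b + (i : ℕ) ∧ b + (i : ℕ) < b + n := ⟨by omega, by omega⟩
      simp only [s', dif_pos h7]
      congr 1
      ext
      simp
    refine ⟨s', fun x hx => dif_neg (by omega), fun i => ?_, ?_⟩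
    · rw [h6, realize_agree hb (ts i) h4]
    · rw [← hT _ s s' h4]
      simp only [h6]
      exact h3

theorem update_left {C : Type*} {k m : ℕ} (s : ℕ → C) (a : C) :
    (fun i : Fin k => Function.update s (k + m) a i) = fun i : Fin k => s i := by
  funext i
  exact Function.update_of_ne (by omega) _ _

theorem update_right {C : Type*} {k m : ℕ} (s : ℕ → C) (a : C) :
    (fun i : Fin (m + 1) => Function.update s (k + m) a (k + i)) =
      Fin.snoc (fun i : Fin m => s (k + i)) a := by
  funext i
  refine Fin.lastCases ?_ (fun i => ?_) i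
  · simp
  · rw [Fin.snoc_castSucc]
    exact Function.update_of_ne (by simp; omega) _ _

end

section

variable {L : FirstOrder.Language} {A B : Type*} [L.Structure A] [L.Structure B]

/-- A class of pairs of predicates that is closed under the first-order operations. -/
structure Closed (L : FirstOrder.Language) {A B : Type*} [L.Structure A] [L.Structure B]
    (Good : ((ℕ → A) → Prop) → ((ℕ → B) → Prop) → Prop) : Prop where
  congr : ∀ P P' Q Q', Good P P' → (∀ s, P s ↔ Q s) → (∀ s, P' s ↔ Q' s) → Good Q Q'
  not : ∀ P P', Good P P' → Good (fun s => ¬ P s) fun s => ¬ P' s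
  and : ∀ P P' Q Q', Good P P' → Good Q Q' → Good (fun s => P s ∧ Q s) fun s => P' s ∧ Q' s
  ex : ∀ P P' i, Good P P' → Good (fun s => ∃ a, P (Function.update s i a))
    fun s => ∃ a, P' (Function.update s i a)
  eq : ∀ i k, Good (fun s => s i = s k) fun s => s i = s k
  rel : ∀ n (R : L.Relations n) (c : Fin n → ℕ),
    Good (fun s => Structure.RelMap R fun i => s (c i)) fun s => Structure.RelMap R fun i => s (c i)
  fn : ∀ n (f : L.Functions n) (c : Fin n → ℕ) (d : ℕ),
    Good (fun s => Structure.funMap f (fun i => s (c i)) = s d)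
      fun s => Structure.funMap f (fun i => s (c i)) = s d

variable {Good : ((ℕ → A) → Prop) → ((ℕ → B) → Prop) → Prop} (hG : Closed L Good)

include hG

theorem Closed.tt : Good (fun _ => True) fun _ => True :=
  hG.congr _ _ _ _ (hG.eq 0 0) (fun _ => iff_of_true rfl trivial)
    fun _ => iff_of_true rfl trivial

theorem Closed.forallFin {n : ℕ} {P : Fin n → (ℕ → A) → Prop} {P' : Fin n → (ℕ → B) → Prop}
    (h : ∀ i, Good (P i) (P' i)) : Good (fun s => ∀ i, P i s) fun s => ∀ i, P' i s := by
  induction n with
  | zero => exact hG.congr _ _ _ _ hG.tt (fun s => by simp) fun s => by simp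
  | succ n ih =>
    refine hG.congr _ _ _ _ (hG.and _ _ _ _ (h 0) (ih fun i => h i.succ)) (fun s => ?_)
      fun s => ?_ <;> rw [Fin.forall_fin_succ]

theorem Closed.exs (b n : ℕ) {Q : (ℕ → A) → Prop} {Q' : (ℕ → B) → Prop} (h : Good Q Q') :
    Good (fun s => ∃ s', (∀ x, x < b ∨ b + n ≤ x → s' x = s x) ∧ Q s')
      fun s => ∃ s', (∀ x, x < b ∨ b + n ≤ x → s' x = s x) ∧ Q' s' := by
  induction n with
  | zero =>
    refine hG.congr _ _ _ _ h (fun s => ⟨fun h2 => ⟨s, fun _ _ => rfl, h2⟩, ?_⟩)
      fun s => ⟨fun h2 => ⟨s, fun _ _ => rfl, h2⟩, ?_⟩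
    · rintro ⟨s', h2, h3⟩
      have h4 : s' = s := by
        funext x
        exact h2 x (by omega)
      rwa [h4] at h3
    · rintro ⟨s', h2, h3⟩
      have h4 : s' = s := by
        funext x
        exact h2 x (by omega)
      rwa [h4] at h3
  | succ n ih =>
    refine hG.congr _ _ _ _ (hG.ex _ _ (b + n) ih) (fun s => ?_) fun s => ?_
    · constructor
      · rintro ⟨a, s', h1, h2⟩
        refine ⟨s', fun x hx => ?_, h2⟩
        rw [h1 x (by omega), Function.update_of_ne (by omega)]
      · rintro ⟨s', h1, h2⟩
        refine ⟨s' (b + n), s', fun x hx => ?_, h2⟩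
        by_cases hxb : x = b + n
        · rw [hxb, Function.update_self]
        · rw [Function.update_of_ne hxb]
          exact h1 x (by omega)
    · constructor
      · rintro ⟨a, s', h1, h2⟩
        refine ⟨s', fun x hx => ?_, h2⟩
        rw [h1 x (by omega), Function.update_of_ne (by omega)]
      · rintro ⟨s', h1, h2⟩
        refine ⟨s' (b + n), s', fun x hx => ?_, h2⟩
        by_cases hxb : x = b + n
        · rw [hxb, Function.update_self]
        · rw [Function.update_of_ne hxb]
          exact h1 x (by omega)

theorem Closed.term {k m : ℕ} (t : L.Term (Fin k ⊕ Fin m)) : ∀ c : ℕ,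
    Good (fun s => t.realize (Sum.elim (fun i : Fin k => s i) fun i : Fin m => s (k + i)) = s c)
      fun s => t.realize (Sum.elim (fun i : Fin k => s i) fun i : Fin m => s (k + i)) = s c := by
  induction t with
  | var i =>
    intro c
    rcases i with i | i
    · exact hG.eq i c
    · exact hG.eq (k + i) c
  | @func n f ts ih =>
    intro c
    have hb : k + m ≤ max (k + m) (c + 1) := le_max_left _ _
    have hc : c < max (k + m) (c + 1) := lt_of_lt_of_le (Nat.lt_succ_self c) (le_max_right _ _)
    generalize max (k + m) (c + 1) = b at hb hc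
    have h1 := hG.exs b n (hG.and _ _ _ _ (hG.forallFin fun i => ih i (b + i))
      (hG.fn n f (fun i => b + i) c))
    refine hG.congr _ _ _ _ h1 (fun s => ?_) fun s => ?_
    · exact subst_side hb ts (fun a s => Structure.funMap f a = s c)
        (fun a s s' h => by rw [h c hc]) s
    · exact subst_side hb ts (fun a s => Structure.funMap f a = s c)
        (fun a s s' h => by rw [h c hc]) s

theorem Closed.formula {k m : ℕ} (φ : L.BoundedFormula (Fin k) m) :
    Good (fun s => φ.Realize (fun i : Fin k => s i) fun i : Fin m => s (k + i))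
      fun s => φ.Realize (fun i : Fin k => s i) fun i : Fin m => s (k + i) := by
  induction φ with
  | falsum =>
    refine hG.congr _ _ _ _ (hG.not _ _ hG.tt) (fun s => ?_) fun s => ?_ <;>
      simp [BoundedFormula.Realize]
  | @equal m t1 t2 =>
    have h1 := hG.exs (k + m) 1 (hG.and _ _ _ _ (hG.forallFin (n := 1)
      fun i => hG.term t1 (k + m + i)) (hG.term t2 (k + m)))
    refine hG.congr _ _ _ _ h1 (fun s => ?_) fun s => ?_
    · refine (subst_side (n := 1) le_rfl (fun _ => t1) (fun a s =>
        t2.realize (Sum.elim (fun i : Fin k => s i) fun i : Fin m => s (k + i)) = a 0)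
        (fun a s s' h => by rw [realize_agree le_rfl t2 h]) s).trans ?_
      exact eq_comm
    · refine (subst_side (n := 1) le_rfl (fun _ => t1) (fun a s =>
        t2.realize (Sum.elim (fun i : Fin k => s i) fun i : Fin m => s (k + i)) = a 0)
        (fun a s s' h => by rw [realize_agree le_rfl t2 h]) s).trans ?_
      exact eq_comm
  | @rel m n R ts =>
    have h1 := hG.exs (k + m) n (hG.and _ _ _ _ (hG.forallFin fun i => hG.term (ts i) (k + m + i))
      (hG.rel n R fun i => k + m + i))
    refine hG.congr _ _ _ _ h1 (fun s => ?_) fun s => ?_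
    · exact subst_side le_rfl ts (fun a s => Structure.RelMap R a) (fun a s s' h => Iff.rfl) s
    · exact subst_side le_rfl ts (fun a s => Structure.RelMap R a) (fun a s s' h => Iff.rfl) s
  | imp φ ψ ih1 ih2 =>
    refine hG.congr _ _ _ _ (hG.not _ _ (hG.and _ _ _ _ ih1 (hG.not _ _ ih2))) (fun s => ?_)
      fun s => ?_ <;> (simp only [BoundedFormula.Realize]; tauto)
  | @all m φ ih =>
    refine hG.congr _ _ _ _ (hG.not _ _ (hG.ex _ _ (k + m) (hG.not _ _ ih))) (fun s => ?_)
      fun s => ?_
    · simp only [BoundedFormula.Realize, not_exists, not_not]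
      refine forall_congr' fun a => ?_
      rw [update_left, update_right]
    · simp only [BoundedFormula.Realize, not_exists, not_not]
      refine forall_congr' fun a => ?_
      rw [update_left, update_right]

end

end Pool.Agent.H82.HE
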