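import Pool.Agent.H82.HED
import Pool.Agent.H82.HEF

/-!
# Correspondences
-/

set_option autoImplicit false
set_option linter.unreachableTactic false
set_option linter.unusedTactic false

namespace Pool.Agent.H82.HE

open Pool.Agent.W868
open ZFSet (pair)

/-- `t` is the composition of `c` and `s`. -/
def Comp (s c t : ZFSet.{0}) : Prop :=
  (∀ u ∈ t, ∃ p ∈ c, ∃ i k, p = pair i k ∧
    ∃ q ∈ s, ∃ k' y, q = pair k' y ∧ (k' = k ∧ u = pair i y)) ∧
  ∀ p ∈ c, ∃ i k, p = pair i k ∧ ∀ q ∈ s, ∃ k' y, q = pair k' y ∧ (k' = k → pair i y ∈ t)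

def Rel (σ I s c : ZFSet.{0}) : Prop :=
  ∃ p ∈ I, ∃ σ' t, p = pair σ' t ∧ (σ' = σ ∧ Comp s c t)

def Agr (w i s s' : ZFSet.{0}) : Prop :=
  ∀ k ∈ w, ¬ k = i → ∀ p ∈ s, ∃ k' y, p = pair k' y ∧ (k' = k → pair k y ∈ s')

def EqR (i k s : ZFSet.{0}) : Prop :=
  ∃ p ∈ s, ∃ i' y, p = pair i' y ∧ (i' = i ∧ pair k y ∈ s)

def OpNeg (S X X' : ZFSet.{0}) : Prop := ∀ s ∈ S, (s ∈ X' ↔ ¬ s ∈ X)

def OpAnd (S X X₁ X' : ZFSet.{0}) : Prop := ∀ s ∈ S, (s ∈ X' ↔ s ∈ X ∧ s ∈ X₁)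

def OpEx (S w i X X' : ZFSet.{0}) : Prop :=
  ∀ s ∈ S, (s ∈ X' ↔ ∃ s' ∈ S, Agr w i s s' ∧ s' ∈ X)

def OpEq (S i k X : ZFSet.{0}) : Prop := ∀ s ∈ S, (s ∈ X ↔ EqR i k s)

def OpBas (S σ I c X : ZFSet.{0}) : Prop := ∀ s ∈ S, (s ∈ X ↔ Rel σ I s c)

/-- `E` is a set of pairs of corresponding definable relations of the structures `(D, I)` and
`(D', I')`, which are preserved by `e`. -/
def Corr (Q w τ D I D' I' e E S S' : ZFSet.{0}) : Prop :=
  (∀ s ∈ Q, (s ∈ S ↔ ZFSet.IsFunc w D s)) ∧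
  (∀ s ∈ Q, (s ∈ S' ↔ ZFSet.IsFunc w D' s)) ∧
  ZFSet.IsFunc D D' e ∧
  (∀ σ ∈ τ, ∀ c ∈ Q, (∃ m ∈ w, ZFSet.IsFunc m w c) →
    ∃ p ∈ E, ∃ X Y, p = pair X Y ∧ (OpBas S σ I c X ∧ OpBas S' σ I' c Y)) ∧
  (∀ i ∈ w, ∀ k ∈ w, ∃ p ∈ E, ∃ X Y, p = pair X Y ∧ (OpEq S i k X ∧ OpEq S' i k Y)) ∧
  (∀ p ∈ E, ∃ X Y, p = pair X Y ∧
    ∃ p' ∈ E, ∃ X' Y', p' = pair X' Y' ∧ (OpNeg S X X' ∧ OpNeg S' Y Y')) ∧
  (∀ p ∈ E, ∀ p₁ ∈ E, ∃ X Y, p = pair X Y ∧ ∃ X₁ Y₁, p₁ = pair X₁ Y₁ ∧
    ∃ p' ∈ E, ∃ X' Y', p' = pair X' Y' ∧ (OpAnd S X X₁ X' ∧ OpAnd S' Y Y₁ Y')) ∧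
  (∀ i ∈ w, ∀ p ∈ E, ∃ X Y, p = pair X Y ∧
    ∃ p' ∈ E, ∃ X' Y', p' = pair X' Y' ∧ (OpEx S w i X X' ∧ OpEx S' w i Y Y')) ∧
  ∀ p ∈ E, ∃ X Y, p = pair X Y ∧ ∀ s ∈ S, ∀ s' ∈ S', Comp e s s' → (s ∈ X ↔ s' ∈ Y)

/-- The relation that is reflected. -/
def Psi (φ : Fml Empty 1) (Q Y w τ D I : ZFSet.{0}) : Prop :=
  ∃ S₀ ∈ Q, ∃ q ∈ Q, ∃ D' ∈ Q, ∃ I' ∈ Q, ∃ e ∈ Q, ∃ E ∈ Q, ∃ S ∈ Q, ∃ S' ∈ Q,
    q = pair D' I' ∧ S₀ = pair τ q ∧ Sat {x | x ∈ Q} Empty.elim φ ![S₀] ∧
      D' ⊆ Y ∧ ¬ D' ∈ Y ∧ Corr Q w τ D' I' D I e E S S'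

theorem d0_comp : D0 fun w : Fin 3 → ZFSet.{0} => Comp (w 0) (w 1) (w 2) := by
  unfold Comp
  (repeat' first
      | assumption
      | exact D0v.proj _
      | apply D0.isFunc
      | apply D0.not | apply D0.and | apply D0.or | apply D0.imp | apply D0.iff
      | apply D0.bex | apply D0.ball | apply D0.expair
      | apply D0.isPair | apply D0.pairMem | apply D0.subset
      | apply D0.eq | apply D0.mem)

theorem d0_rel : D0 fun w : Fin 4 → ZFSet.{0} => Rel (w 0) (w 1) (w 2) (w 3) := by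
  unfold Rel Comp
  (repeat' first
      | assumption
      | exact D0v.proj _
      | apply D0.isFunc
      | apply D0.not | apply D0.and | apply D0.or | apply D0.imp | apply D0.iff
      | apply D0.bex | apply D0.ball | apply D0.expair
      | apply D0.isPair | apply D0.pairMem | apply D0.subset
      | apply D0.eq | apply D0.mem)

theorem d0_opBas : D0 fun w : Fin 5 → ZFSet.{0} => OpBas (w 0) (w 1) (w 2) (w 3) (w 4) := by
  unfold OpBas Rel Comp
  (repeat' first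
      | assumption
      | exact D0v.proj _
      | apply D0.isFunc
      | apply D0.not | apply D0.and | apply D0.or | apply D0.imp | apply D0.iff
      | apply D0.bex | apply D0.ball | apply D0.expair
      | apply D0.isPair | apply D0.pairMem | apply D0.subset
      | apply D0.eq | apply D0.mem)

theorem d0_opEq : D0 fun w : Fin 4 → ZFSet.{0} => OpEq (w 0) (w 1) (w 2) (w 3) := by
  unfold OpEq EqR
  (repeat' first
      | assumption
      | exact D0v.proj _
      | apply D0.isFunc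
      | apply D0.not | apply D0.and | apply D0.or | apply D0.imp | apply D0.iff
      | apply D0.bex | apply D0.ball | apply D0.expair
      | apply D0.isPair | apply D0.pairMem | apply D0.subset
      | apply D0.eq | apply D0.mem)

theorem d0_opNeg : D0 fun w : Fin 3 → ZFSet.{0} => OpNeg (w 0) (w 1) (w 2) := by
  unfold OpNeg
  (repeat' first
      | assumption
      | exact D0v.proj _
      | apply D0.isFunc
      | apply D0.not | apply D0.and | apply D0.or | apply D0.imp | apply D0.iff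
      | apply D0.bex | apply D0.ball | apply D0.expair
      | apply D0.isPair | apply D0.pairMem | apply D0.subset
      | apply D0.eq | apply D0.mem)

theorem d0_opAnd : D0 fun w : Fin 4 → ZFSet.{0} => OpAnd (w 0) (w 1) (w 2) (w 3) := by
  unfold OpAnd
  (repeat' first
      | assumption
      | exact D0v.proj _
      | apply D0.isFunc
      | apply D0.not | apply D0.and | apply D0.or | apply D0.imp | apply D0.iff
      | apply D0.bex | apply D0.ball | apply D0.expair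
      | apply D0.isPair | apply D0.pairMem | apply D0.subset
      | apply D0.eq | apply D0.mem)

theorem d0_opEx : D0 fun w : Fin 5 → ZFSet.{0} => OpEx (w 0) (w 1) (w 2) (w 3) (w 4) := by
  unfold OpEx Agr
  (repeat' first
      | assumption
      | exact D0v.proj _
      | apply D0.isFunc
      | apply D0.not | apply D0.and | apply D0.or | apply D0.imp | apply D0.iff
      | apply D0.bex | apply D0.ball | apply D0.expair
      | apply D0.isPair | apply D0.pairMem | apply D0.subset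
      | apply D0.eq | apply D0.mem)

theorem d0_corr : D0 fun w : Fin 11 → ZFSet.{0} => Corr (w 0) (w 1) (w 2) (w 3) (w 4) (w 5)
    (w 6) (w 7) (w 8) (w 9) (w 10) := by
  unfold Corr OpBas OpEq OpNeg OpAnd OpEx Rel EqR Agr Comp
  (repeat' first
      | assumption
      | exact D0v.proj _
      | apply D0.isFunc
      | apply D0.not | apply D0.and | apply D0.or | apply D0.imp | apply D0.iff
      | apply D0.bex | apply D0.ball | apply D0.expair
      | apply D0.isPair | apply D0.pairMem | apply D0.subset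
      | apply D0.eq | apply D0.mem)

theorem d0_psi (φ : Fml Empty 1) :
    D0 fun w : Fin 6 → ZFSet.{0} => Psi φ (w 0) (w 1) (w 2) (w 3) (w 4) (w 5) := by
  have h1 := d0_corr.comp (m := 14) ![8, 10, 11, 5, 4, 12, 13, 3, 2, 1, 0]
  have h2 : D0 fun w : Fin 14 → ZFSet.{0} => Sat {x | x ∈ w 8} Empty.elim φ ![w 7] := by
    refine (D0.sat1 φ (P := fun a : Empty => a.elim) (D0v.proj 8) (fun a => a.elim)
      (D0v.proj 7)).congr fun w => ?_
    have h4 : (fun a => (Empty.elim a : (Fin 14 → ZFSet.{0}) → ZFSet.{0}) w) = Empty.elim :=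
      funext fun a => a.elim
    rw [h4]
  unfold Psi
  (repeat' first
      | exact h1
      | exact h2
      | exact D0v.proj _
      | apply D0.not | apply D0.and | apply D0.or | apply D0.imp | apply D0.iff
      | apply D0.bex | apply D0.ball
      | apply D0.isPair | apply D0.pairMem | apply D0.subset
      | apply D0.eq | apply D0.mem)

end Pool.Agent.H82.HE
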