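import Pool.Agent.H82.HEG

/-!
# The correspondence given by the embedding
-/

set_option autoImplicit false
set_option linter.unreachableTactic false
set_option linter.unusedTactic false

namespace Pool.Agent.H82.HE

open Pool.Agent.W868
open ZFSet (pair)

/-- Formulas. -/
inductive G (V : ZFSet.{0}) : Type 1
  | bas (x : ZFSet.{0}) (h : x ∈ V) : G V
  | eq (x : ZFSet.{0}) (h : x ∈ V) : G V
  | neg (g : G V) : G V
  | and (g g' : G V) : G V
  | ex (x : ZFSet.{0}) (h : x ∈ V) (g : G V) : G V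

/-- Codes of formulas. -/
noncomputable def enc {V : ZFSet.{0}} : G V → ZFSet.{0}
  | .bas x _ => pair (nat 0) x
  | .eq x _ => pair (nat 1) x
  | .neg g => pair (nat 2) (enc g)
  | .and g g' => pair (nat 3) (pair (enc g) (enc g'))
  | .ex x _ g => pair (nat 4) (pair x (enc g))

theorem enc_inj {V : ZFSet.{0}} : ∀ g g' : G V, enc g = enc g' → g = g' := by
  intro g
  induction g with
  | bas x h =>
    intro g' hg
    cases g' <;> simp [enc, ZFSet.pair_inj, nat_injective.eq_iff] at hg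
    subst hg
    rfl
  | eq x h =>
    intro g' hg
    cases g' <;> simp [enc, ZFSet.pair_inj, nat_injective.eq_iff] at hg
    subst hg
    rfl
  | neg g ih =>
    intro g' hg
    cases g' <;> simp [enc, ZFSet.pair_inj, nat_injective.eq_iff] at hg
    rw [ih _ hg]
  | and g₁ g₂ ih1 ih2 =>
    intro g' hg
    cases g' <;> simp [enc, ZFSet.pair_inj, nat_injective.eq_iff] at hg
    rw [ih1 _ hg.1, ih2 _ hg.2]
  | ex x h g ih =>
    intro g' hg
    cases g' <;> simp [enc, ZFSet.pair_inj, nat_injective.eq_iff] at hg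
    obtain ⟨rfl, hg⟩ := hg
    rw [ih _ hg]

/-- The relation defined by a formula. -/
noncomputable def ev (S I w : ZFSet.{0}) {V : ZFSet.{0}} : G V → ZFSet.{0}
  | .bas x _ => S.sep fun s => Rel (fs x) I s (sn x)
  | .eq x _ => S.sep fun s => EqR (fs x) (sn x) s
  | .neg g => S.sep fun s => ¬ s ∈ ev S I w g
  | .and g g' => S.sep fun s => s ∈ ev S I w g ∧ s ∈ ev S I w g'
  | .ex x _ g => S.sep fun s => ∃ s' ∈ S, Agr w x s s' ∧ s' ∈ ev S I w g

theorem ev_sub {S I w V : ZFSet.{0}} (g : G V) : ev S I w g ⊆ S := by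
  cases g <;> exact fun s hs => (ZFSet.mem_sep.1 hs).1

open Classical in
/-- The set of all defined relations. -/
noncomputable def Fam (S I w V : ZFSet.{0}) : ZFSet.{0} :=
  im (fun x => if h : ∃ g : G V, enc g = x then ev S I w h.choose else ∅)
    (V.sep fun x => ∃ g : G V, enc g = x)

open Classical in
theorem card_fam {S I w V : ZFSet.{0}} : (Fam S I w V).card ≤ V.card := by
  refine (card_le_of_onto (g := fun x => if h : ∃ g : G V, enc g = x then ev S I w h.choose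
    else ∅) (a := V.sep fun x => ∃ g : G V, enc g = x) fun y hy => ?_).trans
    (ZFSet.card_mono fun x hx => (ZFSet.mem_sep.1 hx).1)
  obtain ⟨x, hx, rfl⟩ := mem_im.1 hy
  exact ⟨x, hx, rfl⟩

theorem of_mem_fam {S I w V X : ZFSet.{0}} (hX : X ∈ Fam S I w V) :
    ∃ g : G V, X = ev S I w g := by
  obtain ⟨x, hx, rfl⟩ := mem_im.1 hX
  have h1 := (ZFSet.mem_sep.1 hx).2
  exact ⟨h1.choose, dif_pos h1⟩

theorem mem_fam {S I w V : ZFSet.{0}} (hV : ∀ g : G V, enc g ∈ V) (g : G V) :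
    ev S I w g ∈ Fam S I w V := by
  refine mem_im.2 ⟨enc g, ZFSet.mem_sep.2 ⟨hV g, g, rfl⟩, ?_⟩
  have h1 : ∃ g' : G V, enc g' = enc g := ⟨g, rfl⟩
  rw [dif_pos h1, enc_inj _ _ h1.choose_spec]

namespace IsHugeEmb

variable {κ : ZFSet.{0}} {M : Set ZFSet.{0}} {j : ZFSet.{0} → ZFSet.{0}} (h : IsHugeEmb κ M j)

include h

theorem nat_VK (n : ℕ) : nat n ∈ VK κ :=
  ZFSet.isTransitive_vonNeumann _ _ (kappa_sub h.omega_mem) (mem_omega_iff.2 ⟨n, rfl⟩)

theorem enc_VK (g : G (VK κ)) : enc g ∈ VK κ := by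
  induction g with
  | bas x hx => exact h.pair_VK (h.nat_VK _) hx
  | eq x hx => exact h.pair_VK (h.nat_VK _) hx
  | neg g ih => exact h.pair_VK (h.nat_VK _) ih
  | and g g' ih ih' => exact h.pair_VK (h.nat_VK _) (h.pair_VK ih ih')
  | ex x hx g ih => exact h.pair_VK (h.nat_VK _) (h.pair_VK hx ih)

/-- `N'` contains the restrictions of `j` to small sets. -/
theorem restr_mem {F : ZFSet.{0}} (hF : F ⊆ j (j (VK κ))) (hc : F.card ≤ (j κ).card) :
    gph j F ∈ j (j (j (VK κ))) := by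
  refine h.mem_N' (fun p hp => ?_) (card_gph.trans hc)
  obtain ⟨x, hx, rfl⟩ := mem_gph.1 hp
  obtain ⟨q, hq, rfl⟩ := h.pair_all.2.2 x (h.sub_all.2.2 (hF hx)) (j x) (h.j_mem.1 (hF hx))
  exact hq

variable {τ D I : ZFSet.{0}}

theorem funs_sub (hD : D ⊆ j (VK κ)) : ZFSet.funs ZFSet.omega D ⊆ j (VK κ) := by
  intro s hs
  rw [ZFSet.mem_funs] at hs
  refine h.c1 (h.sub_all.1 (kappa_sub h.omega_mem)) ⟨fun p hp => ?_, hs.2⟩
  obtain ⟨x, hx, y, hy, rfl⟩ := ZFSet.mem_prod.1 (hs.1 hp)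
  exact ZFSet.pair_mem_prod.2 ⟨hx, hD hy⟩

theorem fam_sub (hD : D ⊆ j (VK κ)) :
    Fam (ZFSet.funs ZFSet.omega D) I ZFSet.omega (VK κ) ⊆ j (j (VK κ)) := by
  intro X hX
  obtain ⟨g, rfl⟩ := of_mem_fam hX
  exact h.sub_VL_N fun s hs => h.funs_sub hD (ev_sub g hs)

theorem fam_card : (Fam (ZFSet.funs ZFSet.omega D) I ZFSet.omega (VK κ)).card ≤ (j κ).card :=
  card_fam.trans ((ZFSet.card_mono h.sub_all.1).trans h.card_VL)

theorem j_comp {s s' : ZFSet.{0}} (hs : ZFSet.IsFunc ZFSet.omega D s)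
    (hs' : ZFSet.IsFunc ZFSet.omega (j D) s') (hc : Comp (gph j D) s s') : s' = j s := by
  have h1 := h.j_isFunc.1 hs
  rw [h.j_omega] at h1
  have h2 : ∀ n y, pair (nat n) y ∈ s → pair (nat n) (j y) ∈ j s := by
    intro n y hy
    have h3 := h.j_mem.1 hy
    rwa [h.j_pair, h.j_nat] at h3
  have h3 : ∀ n y, pair (nat n) y ∈ s → pair (nat n) (j y) ∈ s' := by
    intro n y hy
    obtain ⟨i, k, h4, h5⟩ := hc.2 _ hy
    obtain ⟨rfl, rfl⟩ := ZFSet.pair_inj.1 h4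
    obtain ⟨k', y', h6, h7⟩ := h5 _ (pair_mem_gph.2
      ⟨(ZFSet.pair_mem_prod.1 (hs.1 hy)).2, rfl⟩)
    obtain ⟨rfl, rfl⟩ := ZFSet.pair_inj.1 h6
    exact h7 rfl
  have h4 : ∀ n : ℕ, ∃ y, pair (nat n) y ∈ s := by
    intro n
    obtain ⟨y, hy, -⟩ := hs.2 (nat n) (mem_omega_iff.2 ⟨n, rfl⟩)
    exact ⟨y, hy⟩
  ext p
  constructor
  · intro hp
    obtain ⟨x, hx, y, -, rfl⟩ := ZFSet.mem_prod.1 (hs'.1 hp)
    obtain ⟨n, rfl⟩ := mem_omega_iff.1 hx
    obtain ⟨z, hz⟩ := h4 n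
    obtain ⟨y', -, h5⟩ := hs'.2 (nat n) hx
    rw [h5 y hp, ← h5 _ (h3 n z hz)]
    exact h2 n z hz
  · intro hp
    obtain ⟨x, hx, y, -, rfl⟩ := ZFSet.mem_prod.1 (h1.1 hp)
    obtain ⟨n, rfl⟩ := mem_omega_iff.1 hx
    obtain ⟨z, hz⟩ := h4 n
    obtain ⟨y', -, h5⟩ := h1.2 (nat n) hx
    rw [h5 y hp, ← h5 _ (h2 n z hz)]
    exact h3 n z hz

/-- The correspondence between `(D, I)` and its image. -/
theorem corr_j (hτ : τ ∈ VK κ) :
    Corr (j (j (j (VK κ)))) ZFSet.omega τ D I (j D) (j I) (gph j D)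
      (gph j (Fam (ZFSet.funs ZFSet.omega D) I ZFSet.omega (VK κ)))
      (ZFSet.funs ZFSet.omega D) (j (ZFSet.funs ZFSet.omega D)) := by
  set S := ZFSet.funs ZFSet.omega D with hS
  have hV := h.enc_VK
  have hg : ∀ g : G (VK κ), pair (ev S I ZFSet.omega g) (j (ev S I ZFSet.omega g)) ∈
      gph j (Fam S I ZFSet.omega (VK κ)) := fun g => mem_gph.2 ⟨_, mem_fam hV g, rfl⟩
  have hp : ∀ p ∈ gph j (Fam S I ZFSet.omega (VK κ)), ∃ g : G (VK κ),
      p = pair (ev S I ZFSet.omega g) (j (ev S I ZFSet.omega g)) := by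
    intro p hp
    obtain ⟨X, hX, rfl⟩ := mem_gph.1 hp
    obtain ⟨g, rfl⟩ := of_mem_fam hX
    exact ⟨g, rfl⟩
  have hω : ∀ i ∈ ZFSet.omega, i ∈ VK κ ∧ j i = i := by
    intro i hi
    obtain ⟨n, rfl⟩ := mem_omega_iff.1 hi
    exact ⟨h.nat_VK n, h.j_nat n⟩
  refine ⟨fun s _ => ZFSet.mem_funs, fun s hs => ?_, isFunc_gph fun x hx => h.j_mem.1 hx,
    fun σ hσ c _ hc => ?_, fun i hi k hk => ?_, fun p hp' => ?_, fun p hp' p₁ hp₁ => ?_,
    fun i hi p hp' => ?_, fun p hp' => ?_⟩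
  · have h1 : D0 fun w : Fin 4 → ZFSet.{0} => (w 0 ∈ w 1 ↔ ZFSet.IsFunc (w 2) (w 3) (w 0)) := by
      (repeat' first
          | assumption
          | exact D0v.proj _
          | apply D0.isFunc
          | apply D0.not | apply D0.and | apply D0.or | apply D0.imp | apply D0.iff
          | apply D0.bex | apply D0.ball | apply D0.expair
          | apply D0.isPair | apply D0.pairMem | apply D0.subset
          | apply D0.eq | apply D0.mem)
    have h2 := (h.trA (n := 3) (R := fun s v => (s ∈ v 0 ↔ ZFSet.IsFunc (v 1) (v 2) s)) h1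
      ![S, ZFSet.omega, D]).1 (fun s => ZFSet.mem_funs) s (h.N'_M hs)
    change s ∈ j S ↔ ZFSet.IsFunc (j ZFSet.omega) (j D) s at h2
    rwa [h.j_omega] at h2
  · obtain ⟨m, hm, hc⟩ := hc
    have hmV := (hω m hm).1
    have hcV : c ∈ VK κ := by
      refine h.c0 hmV ⟨fun p hp => ?_, hc.2⟩
      obtain ⟨x, hx, y, hy, rfl⟩ := ZFSet.mem_prod.1 (hc.1 hp)
      exact ZFSet.pair_mem_prod.2 ⟨hx, (hω y hy).1⟩
    have hσV : σ ∈ VK κ := ZFSet.isTransitive_vonNeumann _ _ hτ hσ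
    have h1 : OpBas S σ I c (ev S I ZFSet.omega (.bas (pair σ c) (h.pair_VK hσV hcV))) := by
      intro s hs
      rw [ev, ZFSet.mem_sep, fs_pair, sn_pair]
      exact ⟨fun h2 => h2.2, fun h2 => ⟨hs, h2⟩⟩
    refine ⟨_, hg (.bas (pair σ c) (h.pair_VK hσV hcV)), _, _, rfl, h1, ?_⟩
    have h2 := (h.tr d0_opBas ![_, _, _, _, _]).1 h1
    change OpBas (j S) (j σ) (j I) (j c) _ at h2
    rwa [h.fixVK hσV, h.fixVK hcV] at h2
  · have hik := h.pair_VK (hω i hi).1 (hω k hk).1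
    have h1 : OpEq S i k (ev S I ZFSet.omega (.eq (pair i k) hik)) := by
      intro s hs
      rw [ev, ZFSet.mem_sep, fs_pair, sn_pair]
      exact ⟨fun h2 => h2.2, fun h2 => ⟨hs, h2⟩⟩
    refine ⟨_, hg (.eq (pair i k) hik), _, _, rfl, h1, ?_⟩
    have h2 := (h.tr d0_opEq ![_, _, _, _]).1 h1
    change OpEq (j S) (j i) (j k) _ at h2
    rwa [(hω i hi).2, (hω k hk).2] at h2
  · obtain ⟨g, rfl⟩ := hp p hp'
    have h1 : OpNeg S (ev S I ZFSet.omega g) (ev S I ZFSet.omega (.neg g)) := by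
      intro s hs
      rw [ev, ZFSet.mem_sep]
      exact ⟨fun h2 => h2.2, fun h2 => ⟨hs, h2⟩⟩
    exact ⟨_, _, rfl, _, hg (.neg g), _, _, rfl, h1, (h.tr d0_opNeg ![_, _, _]).1 h1⟩
  · obtain ⟨g, rfl⟩ := hp p hp'
    obtain ⟨g₁, rfl⟩ := hp p₁ hp₁
    have h1 : OpAnd S (ev S I ZFSet.omega g) (ev S I ZFSet.omega g₁)
        (ev S I ZFSet.omega (.and g g₁)) := by
      intro s hs
      rw [ev, ZFSet.mem_sep]
      exact ⟨fun h2 => h2.2, fun h2 => ⟨hs, h2⟩⟩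
    exact ⟨_, _, rfl, _, _, rfl, _, hg (.and g g₁), _, _, rfl, h1,
      (h.tr d0_opAnd ![_, _, _, _]).1 h1⟩
  · obtain ⟨g, rfl⟩ := hp p hp'
    have h1 : OpEx S ZFSet.omega i (ev S I ZFSet.omega g)
        (ev S I ZFSet.omega (.ex i (hω i hi).1 g)) := by
      intro s hs
      rw [ev, ZFSet.mem_sep]
      exact ⟨fun h2 => h2.2, fun h2 => ⟨hs, h2⟩⟩
    refine ⟨_, _, rfl, _, hg (.ex i (hω i hi).1 g), _, _, rfl, h1, ?_⟩
    have h2 := (h.tr d0_opEx ![_, _, _, _, _]).1 h1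
    change OpEx (j S) (j ZFSet.omega) (j i) _ _ at h2
    rwa [h.j_omega, (hω i hi).2] at h2
  · obtain ⟨g, rfl⟩ := hp p hp'
    refine ⟨_, _, rfl, fun s hs s' hs' hc => ?_⟩
    have h3 : ZFSet.IsFunc ZFSet.omega (j D) s' := by
      have h1 : D0 fun w : Fin 3 → ZFSet.{0} => ∀ s ∈ w 0, ZFSet.IsFunc (w 1) (w 2) s := by
        (repeat' first
            | assumption
            | exact D0v.proj _
            | apply D0.isFunc
            | apply D0.not | apply D0.and | apply D0.or | apply D0.imp | apply D0.iff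
            | apply D0.bex | apply D0.ball | apply D0.expair
            | apply D0.isPair | apply D0.pairMem | apply D0.subset
            | apply D0.eq | apply D0.mem)
      have h2 := (h.tr h1 ![S, ZFSet.omega, D]).1 fun s hs => ZFSet.mem_funs.1 hs
      have h4 := h2 s' hs'
      change ZFSet.IsFunc (j ZFSet.omega) (j D) s' at h4
      rwa [h.j_omega] at h4
    rw [h.j_comp (ZFSet.mem_funs.1 hs) h3 hc]
    exact h.j_mem

theorem psi_N' (φ : Fml Empty 1) (hτ : τ ∈ VK κ) (hB : pair τ (pair D I) ∈ j (j (VK κ)))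
    (hφ : Sat {x | x ∈ j (j (VK κ))} Empty.elim φ ![pair τ (pair D I)])
    (hD : D.rank = (j κ).rank) :
    Psi φ (j (j (j (VK κ)))) (j (VK κ)) ZFSet.omega τ (j D) (j I) := by
  have hsub := h.sub_all.2.2
  have hDI : pair D I ∈ j (j (VK κ)) := by
    refine h.trans_all.2.1 _ (h.trans_all.2.1 _ hB {τ, pair D I} ?_) _
      (ZFSet.mem_pair.2 (Or.inr rfl))
    exact ZFSet.mem_pair.2 (Or.inr rfl)
  have hDN : D ∈ j (j (VK κ)) := by
    refine h.trans_all.2.1 _ (h.trans_all.2.1 _ hDI {D, I} ?_) _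
      (ZFSet.mem_pair.2 (Or.inl rfl))
    exact ZFSet.mem_pair.2 (Or.inr rfl)
  have hIN : I ∈ j (j (VK κ)) := by
    refine h.trans_all.2.1 _ (h.trans_all.2.1 _ hDI {D, I} ?_) _
      (ZFSet.mem_pair.2 (Or.inr rfl))
    exact ZFSet.mem_pair.2 (Or.inr rfl)
  have hDV : D ⊆ j (VK κ) := fun x hx => by
    rw [h.mem_VL, ← hD]
    exact ZFSet.rank_lt_of_mem hx
  have hSN : ZFSet.funs ZFSet.omega D ∈ j (j (VK κ)) := h.sub_VL_N (h.funs_sub hDV)
  refine ⟨pair τ (pair D I), hsub hB, pair D I, hsub hDI, D, hsub hDN, I, hsub hIN,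
    gph j D, h.restr_mem (fun x hx => h.sub_all.2.1 (hDV hx))
      ((ZFSet.card_mono hDV).trans h.card_VL),
    _, h.restr_mem (h.fam_sub hDV) h.fam_card, ZFSet.funs ZFSet.omega D, hsub hSN,
    j (ZFSet.funs ZFSet.omega D), h.j_mem.1 hSN, rfl, rfl, ?_, hDV, ?_, h.corr_j hτ⟩
  · refine ((h.elem_chain φ).2 _ fun k => ?_).1 hφ
    fin_cases k
    exact hB
  · rw [h.mem_VL, hD]
    exact lt_irrefl _

/-- The reflected relation. -/
theorem psi_N (φ : Fml Empty 1) (hτ : τ ∈ VK κ) (hB : pair τ (pair D I) ∈ j (j (VK κ)))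
    (hφ : Sat {x | x ∈ j (j (VK κ))} Empty.elim φ ![pair τ (pair D I)])
    (hD : D.rank = (j κ).rank) :
    Psi φ (j (j (VK κ))) (VK κ) ZFSet.omega τ D I := by
  refine (h.tr (d0_psi φ) ![j (j (VK κ)), VK κ, ZFSet.omega, τ, D, I]).2 ?_
  have h1 := h.psi_N' φ hτ hB hφ hD
  change Psi φ (j (j (j (VK κ)))) (j (VK κ)) (j ZFSet.omega) (j τ) (j D) (j I)
  rwa [h.j_omega, h.fixVK hτ]

end IsHugeEmb

end Pool.Agent.H82.HE
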