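import Pool.Agent.H82.HEH

/-!
# From a correspondence to an elementary embedding
-/

set_option autoImplicit false
set_option linter.unreachableTactic false
set_option linter.unusedTactic false

namespace Pool.Agent.H82.HE

open Pool.Agent.W868
open ZFSet (pair)
open FirstOrder FirstOrder.Language

/-- The set that codes an infinite sequence. -/
noncomputable def asg {D : ZFSet.{0}} (s : ℕ → {x : ZFSet.{0} // x ∈ D}) : ZFSet.{0} :=
  ZFSet.range fun n : ℕ => pair (nat n) (s n).1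

theorem mem_asg {D : ZFSet.{0}} {s : ℕ → {x : ZFSet.{0} // x ∈ D}} {p : ZFSet.{0}} :
    p ∈ asg s ↔ ∃ n, p = pair (nat n) (s n).1 := by
  rw [asg, ZFSet.mem_range]
  exact ⟨fun ⟨n, hn⟩ => ⟨n, hn.symm⟩, fun ⟨n, hn⟩ => ⟨n, hn.symm⟩⟩

theorem pair_mem_asg {D : ZFSet.{0}} {s : ℕ → {x : ZFSet.{0} // x ∈ D}} {n : ℕ}
    {y : ZFSet.{0}} : pair (nat n) y ∈ asg s ↔ y = (s n).1 := by
  rw [mem_asg]
  constructor
  · rintro ⟨m, hm⟩
    obtain ⟨h1, h2⟩ := ZFSet.pair_inj.1 hm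
    rw [nat_injective h1, h2]
  · rintro rfl
    exact ⟨n, rfl⟩

theorem isFunc_asg {D : ZFSet.{0}} (s : ℕ → {x : ZFSet.{0} // x ∈ D}) :
    ZFSet.IsFunc ZFSet.omega D (asg s) := by
  constructor
  · intro p hp
    obtain ⟨n, rfl⟩ := mem_asg.1 hp
    exact ZFSet.pair_mem_prod.2 ⟨mem_omega_iff.2 ⟨n, rfl⟩, (s n).2⟩
  · intro x hx
    obtain ⟨n, rfl⟩ := mem_omega_iff.1 hx
    exact ⟨(s n).1, pair_mem_asg.2 rfl, fun y hy => pair_mem_asg.1 hy⟩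

theorem exists_asg {D f : ZFSet.{0}} (hf : ZFSet.IsFunc ZFSet.omega D f) :
    ∃ s : ℕ → {x : ZFSet.{0} // x ∈ D}, f = asg s := by
  obtain ⟨g, hg, rfl⟩ := isFunc_eq_gph hf
  refine ⟨fun n => ⟨g (nat n), hg _ (mem_omega_iff.2 ⟨n, rfl⟩)⟩, ?_⟩
  ext p
  rw [mem_gph, mem_asg]
  constructor
  · rintro ⟨x, hx, rfl⟩
    obtain ⟨n, rfl⟩ := mem_omega_iff.1 hx
    exact ⟨n, rfl⟩
  · rintro ⟨n, rfl⟩
    exact ⟨nat n, mem_omega_iff.2 ⟨n, rfl⟩, rfl⟩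

theorem mem_seq {n : ℕ} {v : Fin n → ZFSet.{0}} {p : ZFSet.{0}} :
    p ∈ seq v ↔ ∃ i : Fin n, p = pair (nat i) (v i) := by
  rw [seq, ZFSet.mem_range]
  exact ⟨fun ⟨n, hn⟩ => ⟨n, hn.symm⟩, fun ⟨n, hn⟩ => ⟨n, hn.symm⟩⟩

/-- `X` represents the predicate `P`. -/
def Rep {D : ZFSet.{0}} (X : ZFSet.{0}) (P : (ℕ → {x : ZFSet.{0} // x ∈ D}) → Prop) : Prop :=
  ∀ s, asg s ∈ X ↔ P s

theorem comp_asg {D : ZFSet.{0}} (s : ℕ → {x : ZFSet.{0} // x ∈ D}) {n : ℕ} (c : Fin n → ℕ)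
    (t : ZFSet.{0}) :
    Comp (asg s) (seq fun i => nat (c i)) t ↔ t = seq fun i => (s (c i)).1 := by
  constructor
  · rintro ⟨h1, h2⟩
    ext u
    rw [mem_seq]
    constructor
    · intro hu
      obtain ⟨p, hp, i, k, rfl, q, hq, k', y, rfl, rfl, rfl⟩ := h1 u hu
      obtain ⟨i0, h3⟩ := mem_seq.1 hp
      obtain ⟨rfl, rfl⟩ := ZFSet.pair_inj.1 h3
      exact ⟨i0, by rw [pair_mem_asg.1 hq]⟩
    · rintro ⟨i, rfl⟩
      obtain ⟨i', k, h3, h4⟩ := h2 _ (mem_seq.2 ⟨i, rfl⟩)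
      obtain ⟨rfl, rfl⟩ := ZFSet.pair_inj.1 h3
      obtain ⟨k', y, h5, h6⟩ := h4 (pair (nat (c i)) (s (c i)).1) (pair_mem_asg.2 rfl)
      obtain ⟨rfl, rfl⟩ := ZFSet.pair_inj.1 h5
      exact h6 rfl
  · rintro rfl
    constructor
    · intro u hu
      obtain ⟨i, rfl⟩ := mem_seq.1 hu
      exact ⟨_, mem_seq.2 ⟨i, rfl⟩, _, _, rfl, pair (nat (c i)) (s (c i)).1,
        pair_mem_asg.2 rfl, _, _, rfl, rfl, rfl⟩
    · intro p hp
      obtain ⟨i, rfl⟩ := mem_seq.1 hp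
      refine ⟨_, _, rfl, fun q hq => ?_⟩
      obtain ⟨m, rfl⟩ := mem_asg.1 hq
      refine ⟨_, _, rfl, fun h3 => ?_⟩
      rw [nat_injective h3]
      exact mem_seq.2 ⟨i, rfl⟩

section side

variable {D I S X X' X₁ : ZFSet.{0}} (hS : ∀ s : ℕ → {x : ZFSet.{0} // x ∈ D}, asg s ∈ S)
  {P P₁ : (ℕ → {x : ZFSet.{0} // x ∈ D}) → Prop}

include hS

theorem side_bas {σ : ZFSet.{0}} {n : ℕ} {c : Fin n → ℕ}
    (h : OpBas S σ I (seq fun i => nat (c i)) X) :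
    Rep (D := D) X fun s => pair σ (seq fun i => (s (c i)).1) ∈ I := by
  intro s
  rw [h _ (hS s)]
  constructor
  · rintro ⟨p, hp, σ', t, rfl, rfl, h2⟩
    rwa [(comp_asg s c t).1 h2] at hp
  · intro h2
    exact ⟨_, h2, _, _, rfl, rfl, (comp_asg s c _).2 rfl⟩

theorem side_eq {i k : ℕ} (h : OpEq S (nat i) (nat k) X) :
    Rep (D := D) X fun s => s i = s k := by
  intro s
  rw [h _ (hS s)]
  constructor
  · rintro ⟨p, hp, i', y, rfl, rfl, h2⟩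
    rw [pair_mem_asg] at hp h2
    exact Subtype.ext (hp.symm.trans h2)
  · intro h2
    exact ⟨_, pair_mem_asg.2 rfl, _, _, rfl, rfl, pair_mem_asg.2 (by rw [h2])⟩

theorem side_neg (h : OpNeg S X X') (hP : Rep X P) : Rep X' fun s => ¬ P s := by
  intro s
  rw [h _ (hS s), hP s]

theorem side_and (h : OpAnd S X X₁ X') (hP : Rep X P) (hP₁ : Rep X₁ P₁) :
    Rep X' fun s => P s ∧ P₁ s := by
  intro s
  rw [h _ (hS s), hP s, hP₁ s]

theorem side_ex (hS' : ∀ f ∈ S, ZFSet.IsFunc ZFSet.omega D f) {i : ℕ}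
    (h : OpEx S ZFSet.omega (nat i) X X') (hP : Rep X P) :
    Rep X' fun s => ∃ a, P (Function.update s i a) := by
  intro s
  rw [h _ (hS s)]
  constructor
  · rintro ⟨s', hs', h2, h3⟩
    obtain ⟨t, rfl⟩ := exists_asg (hS' s' hs')
    refine ⟨t i, ?_⟩
    have h4 : Function.update s i (t i) = t := by
      funext k
      by_cases hk : k = i
      · rw [hk, Function.update_self]
      · rw [Function.update_of_ne hk]
        obtain ⟨k', y, h5, h6⟩ := h2 (nat k) (mem_omega_iff.2 ⟨k, rfl⟩)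
          (fun h7 => hk (nat_injective h7)) (pair (nat k) (s k).1) (pair_mem_asg.2 rfl)
        obtain ⟨rfl, rfl⟩ := ZFSet.pair_inj.1 h5
        exact Subtype.ext (pair_mem_asg.1 (h6 rfl))
    rw [h4]
    exact (hP t).1 h3
  · rintro ⟨a, h2⟩
    refine ⟨asg (Function.update s i a), hS _, ?_, (hP _).2 h2⟩
    intro k hk hki p hp
    obtain ⟨k, rfl⟩ := mem_omega_iff.1 hk
    obtain ⟨n, rfl⟩ := mem_asg.1 hp
    refine ⟨_, _, rfl, fun h3 => ?_⟩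
    rw [nat_injective h3, pair_mem_asg, Function.update_of_ne]
    rintro rfl
    exact hki rfl

end side

theorem isFunc_seq {n : ℕ} (c : Fin n → ℕ) :
    ZFSet.IsFunc (nat n) ZFSet.omega (seq fun i => nat (c i)) := by
  have h1 : ∀ n x, x ∈ nat n ↔ ∃ i : Fin n, x = nat i := by
    intro n
    induction n with
    | zero =>
      intro x
      exact ⟨fun h => absurd h (ZFSet.notMem_empty x), fun ⟨i, _⟩ => i.elim0⟩
    | succ n ih =>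
      intro x
      rw [nat, ZFSet.mem_insert_iff, ih]
      constructor
      · rintro (rfl | ⟨i, rfl⟩)
        · exact ⟨Fin.last n, rfl⟩
        · exact ⟨i.castSucc, rfl⟩
      · rintro ⟨i, rfl⟩
        refine Fin.lastCases ?_ (fun i => ?_) i
        · exact Or.inl rfl
        · exact Or.inr ⟨i, rfl⟩
  constructor
  · intro p hp
    obtain ⟨i, rfl⟩ := mem_seq.1 hp
    exact ZFSet.pair_mem_prod.2 ⟨(h1 _ _).2 ⟨i, rfl⟩, mem_omega_iff.2 ⟨_, rfl⟩⟩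
  · intro x hx
    obtain ⟨i, rfl⟩ := (h1 _ _).1 hx
    refine ⟨nat (c i), mem_seq.2 ⟨i, rfl⟩, fun y hy => ?_⟩
    obtain ⟨i', h2⟩ := mem_seq.1 hy
    obtain ⟨h3, rfl⟩ := ZFSet.pair_inj.1 h2
    rw [Fin.ext (nat_injective h3)]

theorem seq_snoc {D : ZFSet.{0}} (s : ℕ → {x : ZFSet.{0} // x ∈ D}) {n : ℕ} (c : Fin n → ℕ)
    (d : ℕ) :
    (seq fun i => (s ((Fin.snoc c d : Fin (n + 1) → ℕ) i)).1) =
      seq (Fin.snoc (fun i => (s (c i)).1) (s d).1 : Fin (n + 1) → ZFSet.{0}) := by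
  congr 1
  funext i
  refine Fin.lastCases ?_ (fun i => ?_) i
  · simp
  · simp

theorem funMap_iff {τ D I : ZFSet.{0}} (hA : IsStr τ D I) {n : ℕ}
    (f : (Lang τ).Functions n) (v : Fin n → {x : ZFSet.{0} // x ∈ D})
    (y : {x : ZFSet.{0} // x ∈ D}) :
    @Structure.funMap _ _ (str hA) n f v = y ↔ pair (funSym n f.1)
      (seq (Fin.snoc (fun i => (v i).1) y.1 : Fin (n + 1) → ZFSet.{0})) ∈ I := by
  have h7 := (hA.total n f.1 f.2 (fun i => (v i).1) fun i => (v i).2)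
  constructor
  · intro h8
    have h9 := h7.choose_spec.1.2
    have h10 : h7.choose = y.1 := congrArg Subtype.val h8
    rwa [h10] at h9
  · intro h8
    refine Subtype.ext ?_
    exact h7.unique h7.choose_spec.1 ⟨y.2, h8⟩

/-- A correspondence gives an elementary embedding. -/
theorem isElemEmb_of_corr {Q τ D I D' I' e E S S' : ZFSet.{0}}
    (hC : Corr Q ZFSet.omega τ D I D' I' e E S S') (hA : IsStr τ D I) (hB : IsStr τ D' I')
    (hQ : ∀ s : ℕ → {x : ZFSet.{0} // x ∈ D}, asg s ∈ Q)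
    (hQ' : ∀ s : ℕ → {x : ZFSet.{0} // x ∈ D'}, asg s ∈ Q)
    (hQc : ∀ (n : ℕ) (c : Fin n → ℕ), (seq fun i => nat (c i)) ∈ Q)
    (hSQ : ∀ s ∈ S, s ∈ Q) (hSQ' : ∀ s ∈ S', s ∈ Q) :
    IsElemEmb τ D I D' I' e := by
  obtain ⟨h1, h2, h3, hbas, heq, hneg, hand, hex, hpres⟩ := hC
  have hS : ∀ s : ℕ → {x : ZFSet.{0} // x ∈ D}, asg s ∈ S := fun s =>
    (h1 _ (hQ s)).2 (isFunc_asg s)
  have hS' : ∀ s : ℕ → {x : ZFSet.{0} // x ∈ D'}, asg s ∈ S' := fun s =>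
    (h2 _ (hQ' s)).2 (isFunc_asg s)
  have hf : ∀ f ∈ S, ZFSet.IsFunc ZFSet.omega D f := fun f hf => (h1 _ (hSQ f hf)).1 hf
  have hf' : ∀ f ∈ S', ZFSet.IsFunc ZFSet.omega D' f := fun f hf => (h2 _ (hSQ' f hf)).1 hf
  have hω : ∀ n, nat n ∈ ZFSet.omega := fun n => mem_omega_iff.2 ⟨n, rfl⟩
  refine ⟨hA, hB, ?_⟩
  let _ := str hA
  let _ := str hB
  let Good : ((ℕ → {x : ZFSet.{0} // x ∈ D}) → Prop) →
      ((ℕ → {x : ZFSet.{0} // x ∈ D'}) → Prop) → Prop :=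
    fun P P' => ∃ X Y, pair X Y ∈ E ∧ Rep X P ∧ Rep Y P'
  have hG : Closed (Lang τ) Good := by
    constructor
    · rintro P P' R R' ⟨X, Y, hXY, hX, hY⟩ h4 h5
      exact ⟨X, Y, hXY, fun s => (hX s).trans (h4 s), fun s => (hY s).trans (h5 s)⟩
    · rintro P P' ⟨X, Y, hXY, hX, hY⟩
      obtain ⟨X1, Y1, h4, p', hp', X', Y', rfl, h5, h6⟩ := hneg _ hXY
      obtain ⟨rfl, rfl⟩ := ZFSet.pair_inj.1 h4
      exact ⟨X', Y', hp', side_neg hS h5 hX, side_neg hS' h6 hY⟩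
    · rintro P P' R R' ⟨X, Y, hXY, hX, hY⟩ ⟨X2, Y2, hXY2, hX2, hY2⟩
      obtain ⟨X1, Y1, h4, X3, Y3, h7, p', hp', X', Y', rfl, h5, h6⟩ := hand _ hXY _ hXY2
      obtain ⟨rfl, rfl⟩ := ZFSet.pair_inj.1 h4
      obtain ⟨rfl, rfl⟩ := ZFSet.pair_inj.1 h7
      exact ⟨X', Y', hp', side_and hS h5 hX hX2, side_and hS' h6 hY hY2⟩
    · rintro P P' i ⟨X, Y, hXY, hX, hY⟩
      obtain ⟨X1, Y1, h4, p', hp', X', Y', rfl, h5, h6⟩ := hex _ (hω i) _ hXY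
      obtain ⟨rfl, rfl⟩ := ZFSet.pair_inj.1 h4
      exact ⟨X', Y', hp', side_ex hS hf h5 hX, side_ex hS' hf' h6 hY⟩
    · intro i k
      obtain ⟨p', hp', X', Y', rfl, h5, h6⟩ := heq _ (hω i) _ (hω k)
      exact ⟨X', Y', hp', side_eq hS h5, side_eq hS' h6⟩
    · intro n R c
      obtain ⟨p', hp', X', Y', rfl, h5, h6⟩ := hbas _ R.2 _ (hQc n c) ⟨_, hω n, isFunc_seq c⟩
      exact ⟨X', Y', hp', side_bas hS h5, side_bas hS' h6⟩
    · intro n f c d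
      obtain ⟨p', hp', X', Y', rfl, h5, h6⟩ := hbas _ f.2 _ (hQc (n + 1) (Fin.snoc c d))
        ⟨_, hω (n + 1), isFunc_seq _⟩
      refine ⟨X', Y', hp', fun s => ?_, fun s => ?_⟩
      · have h7 := side_bas hS h5 s
        beta_reduce at h7
        rw [seq_snoc s c d] at h7
        exact h7.trans (funMap_iff hA f _ _).symm
      · have h7 := side_bas hS' h6 s
        beta_reduce at h7
        rw [seq_snoc s c d] at h7
        exact h7.trans (funMap_iff hB f _ _).symm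
  obtain ⟨g0, hg0, rfl⟩ := isFunc_eq_gph h3
  let g : {x : ZFSet.{0} // x ∈ D} → {x : ZFSet.{0} // x ∈ D'} := fun x => ⟨g0 x.1, hg0 _ x.2⟩
  have hgood : ∀ P P', Good P P' → ∀ s, P s ↔ P' fun i => g (s i) := by
    rintro P P' ⟨X, Y, hXY, hX, hY⟩ s
    obtain ⟨X1, Y1, h4, h5⟩ := hpres _ hXY
    obtain ⟨rfl, rfl⟩ := ZFSet.pair_inj.1 h4
    rw [← hX s, ← hY]
    refine h5 _ (hS s) _ (hS' _) ⟨fun u hu => ?_, fun p hp => ?_⟩
    · obtain ⟨n, rfl⟩ := mem_asg.1 hu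
      exact ⟨_, mem_asg.2 ⟨n, rfl⟩, _, _, rfl, _, mem_gph.2 ⟨_, (s n).2, rfl⟩, _, _, rfl, rfl,
        rfl⟩
    · obtain ⟨n, rfl⟩ := mem_asg.1 hp
      refine ⟨_, _, rfl, fun q hq => ?_⟩
      obtain ⟨x, hx, rfl⟩ := mem_gph.1 hq
      refine ⟨_, _, rfl, fun h6 => ?_⟩
      rw [h6]
      exact mem_asg.2 ⟨n, rfl⟩
  refine ⟨⟨g, fun n φ x => ?_⟩, fun p => ?_⟩
  · obtain ⟨d, hd⟩ := hA.nonempty
    let s : ℕ → {x : ZFSet.{0} // x ∈ D} := fun i => if hi : i < n then x ⟨i, hi⟩ else ⟨d, hd⟩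
    have h4 := hgood _ _ (hG.formula (k := n) (m := 0) φ) s
    have h5 : (fun i : Fin n => s i) = x := by
      funext i
      exact dif_pos i.2
    have h6 : (fun i : Fin n => g (s i)) = g ∘ x := by
      funext i
      have := congrFun h5 i
      simp only [Function.comp]
      rw [← this]
    simp only [h5, h6] at h4
    rw [Formula.Realize, Formula.Realize]
    rw [Subsingleton.elim (default : Fin 0 → {x : ZFSet.{0} // x ∈ D'})
      (fun i : Fin 0 => g (s (n + i))), Subsingleton.elim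
      (default : Fin 0 → {x : ZFSet.{0} // x ∈ D}) (fun i : Fin 0 => s (n + i))]
    exact h4.symm
  · rw [mem_gph]
    constructor
    · rintro ⟨x, hx, rfl⟩
      exact ⟨⟨x, hx⟩, rfl⟩
    · rintro ⟨x, rfl⟩
      exact ⟨x.1, x.2, rfl⟩

namespace IsHugeEmb

variable {κ : ZFSet.{0}} {M : Set ZFSet.{0}} {j : ZFSet.{0} → ZFSet.{0}} (h : IsHugeEmb κ M j)

include h

theorem omega_card : ZFSet.omega.card ≤ (j κ).card :=
  ZFSet.card_mono (h.ord'.subset_of_mem (h.ord'.mem_trans h.omega_mem h.mem_lam))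

theorem asg_N {D : ZFSet.{0}} (hD : D ∈ j (j (VK κ))) (s : ℕ → {x : ZFSet.{0} // x ∈ D}) :
    asg s ∈ j (j (VK κ)) := by
  refine h.mem_N (fun p hp => ?_) ?_
  · obtain ⟨n, rfl⟩ := mem_asg.1 hp
    obtain ⟨q, hq, rfl⟩ := h.pair_all.2.1 (nat n)
      (h.trans_all.2.1 _ h.omega_N _ (mem_omega_iff.2 ⟨n, rfl⟩)) (s n).1
      (h.trans_all.2.1 _ hD _ (s n).2)
    exact hq
  · obtain ⟨g, -, hg⟩ := isFunc_eq_gph (isFunc_asg s)
    rw [hg]
    exact card_gph.trans h.omega_card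

theorem seq_N {n : ℕ} (c : Fin n → ℕ) : (seq fun i => nat (c i)) ∈ j (j (VK κ)) := by
  refine h.sub_all.2.1 (h.sub_all.1 ?_)
  refine h.c0 (h.nat_VK n) (f := seq fun i => nat (c i)) ⟨fun p hp => ?_, (isFunc_seq c).2⟩
  obtain ⟨i, rfl⟩ := mem_seq.1 hp
  exact ZFSet.pair_mem_prod.2 ⟨(ZFSet.pair_mem_prod.1
    ((isFunc_seq c).1 (mem_seq.2 ⟨i, rfl⟩))).1, h.nat_VK _⟩

omit h in
theorem pair_N {Q : ZFSet.{0}} (hQ : ∀ x ∈ Q, ∀ y ∈ x, y ∈ Q) {a b : ZFSet.{0}}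
    (hab : pair a b ∈ Q) : a ∈ Q ∧ b ∈ Q := by
  have h1 : ({a, b} : ZFSet.{0}) ∈ Q := hQ _ hab _ (ZFSet.mem_pair.2 (Or.inr rfl))
  exact ⟨hQ _ h1 _ (ZFSet.mem_pair.2 (Or.inl rfl)), hQ _ h1 _ (ZFSet.mem_pair.2 (Or.inr rfl))⟩

/-- The type of a class that is not empty is in `V_κ`. -/
theorem type_VK {φ : Fml Empty 1} {τ : ZFSet.{0}} (hφ : SameType (j (j (VK κ))) φ τ)
    {B : ZFSet.{0}} (hB : B ∈ j (j (VK κ)))
    (hφB : Sat {x | x ∈ j (j (VK κ))} Empty.elim φ ![B]) : τ ∈ VK κ := by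
  have h1 : Sat {x | x ∈ j (j (VK κ))} Empty.elim (.ex φ) (![] : Fin 0 → ZFSet.{0}) :=
    ⟨B, hB, hφB⟩
  obtain ⟨S, hS, h2⟩ := (h.elem_VK_N (.ex φ) ![] (fun i => i.elim0)).2 h1
  have h3 : Sat {x | x ∈ j (j (VK κ))} Empty.elim φ ![S] :=
    (h.elem_VK_N φ ![S] (fun i => by
      fin_cases i
      exact hS)).1 h2
  obtain ⟨D, I, rfl, -⟩ := hφ S (h.sub_all.2.1 (h.sub_all.1 hS)) h3
  exact (pair_N (fun x hx y hy => ZFSet.isTransitive_vonNeumann _ _ hx hy) hS).1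

theorem esr (φ : Fml Empty 1) (τ : ZFSet.{0}) (hφ : SameType (j (j (VK κ))) φ τ) :
    ESR (j (j (VK κ))) φ τ κ (j κ) := by
  intro D I hB hφB hD
  have hτ := h.type_VK hφ hB hφB
  obtain ⟨S₀, hS₀, q, hq, D', hD', I', hI', e, he, E, hE, S, hS, S', hS', rfl, rfl, h1, h2, h3,
    h4⟩ := h.psi_N φ hτ hB hφB hD
  have hstr : ∀ D I, pair τ (pair D I) ∈ j (j (VK κ)) →
      Sat {x | x ∈ j (j (VK κ))} Empty.elim φ ![pair τ (pair D I)] → IsStr τ D I := by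
    intro D I h5 h6
    obtain ⟨D1, I1, h7, h8⟩ := hφ _ h5 h6
    obtain ⟨-, h9⟩ := ZFSet.pair_inj.1 h7
    obtain ⟨rfl, rfl⟩ := ZFSet.pair_inj.1 h9
    exact h8
  have hDN := (pair_N h.trans_all.2.1 (pair_N h.trans_all.2.1 hB).2).1
  refine ⟨D', I', hS₀, h1, ?_, e, he, ?_⟩
  · refine le_antisymm ?_ ?_
    · rw [ZFSet.rank_le_iff]
      exact fun y hy => mem_VK.1 (h2 hy)
    · exact not_lt.1 fun h5 => h3 (mem_VK.2 h5)
  · exact isElemEmb_of_corr h4 (hstr _ _ hS₀ h1) (hstr _ _ hB hφB) (h.asg_N hD') (h.asg_N hDN)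
      (fun n c => h.seq_N c) (fun s hs => h.trans_all.2.1 _ hS s hs)
      (fun s hs => h.trans_all.2.1 _ hS' s hs)

theorem card_kappa : IsCardIn (j (j (VK κ))) κ := by
  refine ⟨h.ord, fun α hα ⟨f, _, hf, hf'⟩ => ?_⟩
  have hαV : α ∈ VK κ := kappa_sub hα
  have h1 := h.card_lt hαV
  refine absurd h1 (not_lt.2 (card_le_of_surj (f := f) ⟨hf, fun y hy => ?_⟩))
  obtain ⟨x, hx⟩ := hf' y hy
  exact ⟨x, (ZFSet.pair_mem_prod.1 (hf.1 hx)).1, hx⟩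

theorem card_lam : IsCardIn (j (j (VK κ))) (j κ) := by
  refine ⟨h.ord', fun α hα ⟨f, hfN, hf, hf'⟩ => ?_⟩
  have h1 : D0 fun w : Fin 2 → ZFSet.{0} => ∀ α ∈ w 1, ¬ Surj α (w 1) (w 0) := by
    refine D0.ball (Q := fun α w => ¬ Surj α (w 1) (w 0)) (D0v.proj 1) ?_
    exact (D0.surj (D0v.proj 0) (D0v.proj 2) (D0v.proj 1)).not
  have h2 := (h.trA (n := 1) (R := fun f v => ∀ α ∈ v 0, ¬ Surj α (v 0) f) h1 ![κ]).1
    (fun f α hα hf => absurd (h.card_lt (kappa_sub hα)) (not_lt.2 (card_le_of_surj hf)))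
    f (h.N_M hfN) α hα
  refine h2 ⟨hf, fun y hy => ?_⟩
  obtain ⟨x, hx⟩ := hf' y hy
  exact ⟨x, (ZFSet.pair_mem_prod.1 (hf.1 hx)).1, hx⟩

end IsHugeEmb

/-- If `κ` is huge, then there is a transitive model `N` of ZFC with a cardinal `λ > κ` of `N` such
that in `N` the principle `ESR_C(κ, λ)` holds for all classes `C` of structures of the same type
that are definable without parameters by any formula. -/
theorem main (κ : ZFSet.{0}) (hκ : IsHuge κ) :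
    ∃ N lam : ZFSet.{0}, IsZFC {x | x ∈ N} ∧ κ ∈ lam ∧ lam ∈ N ∧
      IsCardIn N κ ∧ IsCardIn N lam ∧
      ∀ (φ : Fml Empty 1) (τ : ZFSet.{0}), SameType N φ τ → ESR N φ τ κ lam := by
  obtain ⟨M, j, h⟩ := hκ
  exact ⟨j (j (VK κ)), j κ, h.isZF_N, h.mem_lam, h.lam_N, h.card_kappa, h.card_lam, h.esr⟩

end Pool.Agent.H82.HE
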