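import Mathlib

/-!
# Conditions for an iteration of bounded localization forcing

Raw names for elements of the Baire space and raw conditions. A condition is a finite set of
literals. A literal at stage `γ` is either a fact `(n, A)`, meaning that the `γ`-th generic slalom
has the value `A` at `n`, or a promise `(x, m)`, meaning that the function named by `x` is captured
by the `γ`-th generic slalom from `m` on.
-/

set_option autoImplicit false

namespace Pool.Agent.H82.LI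

/-- raw names for functions from `ℕ` to `ℕ` -/
inductive Nm (W : Type) : Type
  | mk (on : ℕ → ℕ → ℕ → Prop) (len : ℕ → ℕ → ℕ → ℕ)
      (st : (n v j : ℕ) → Fin (len n v j) → W)
      (kd : (n v j : ℕ) → Fin (len n v j) → (ℕ × Finset ℕ) ⊕ ℕ)
      (sb : (n v j : ℕ) → Fin (len n v j) → Nm W) : Nm W

/-- literals -/
abbrev Lit (W : Type) : Type := W × ((ℕ × Finset ℕ) ⊕ (Nm W × ℕ))

/-- raw conditions -/
abbrev Cond (W : Type) : Type := Set (Lit W)

variable {W : Type}

/-- the literal with the given data -/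
def mkLit (w : W) (k : (ℕ × Finset ℕ) ⊕ ℕ) (x : Nm W) : Lit W :=
  (w, k.map id fun m => (x, m))

/-- the conditions attached to the pair `(n, v)` by the name -/
def cnd : Nm W → ℕ → ℕ → Set (Cond W)
  | .mk on len st kd sb, n, v => {r | ∃ j, on n v j ∧
      r = Set.range fun i : Fin (len n v j) => mkLit (st n v j i) (kd n v j i) (sb n v j i)}

/-- some name -/
def dummy : Nm W := .mk (fun _ _ _ => False) (fun _ _ _ => 0) (fun _ _ _ i => i.elim0)
  (fun _ _ _ i => i.elim0) (fun _ _ _ i => i.elim0)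

/-- the name in a literal -/
def sbOf (l : Lit W) : Nm W := match l.2 with
  | Sum.inl _ => dummy
  | Sum.inr y => y.1

theorem mkLit_eta (l : Lit W) : mkLit l.1 (Sum.map id Prod.snd l.2) (sbOf l) = l := by
  obtain ⟨w, a | y⟩ := l <;> rfl

theorem exists_name (N : ℕ → ℕ → Set (Cond W)) (hc : ∀ n v, (N n v).Countable)
    (hf : ∀ n v, ∀ r ∈ N n v, r.Finite) : ∃ x : Nm W, ∀ n v, cnd x n v = N n v := by
  classical
  have h1 : ∀ n v, ∃ g : ℕ → Option (Cond W), ∀ s, s ∈ N n v ↔ ∃ j, g j = some s := by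
    intro n v
    rcases (N n v).eq_empty_or_nonempty with h | h
    · exact ⟨fun _ => none, fun s => by simp [h]⟩
    · obtain ⟨g, hg⟩ := (hc n v).exists_eq_range h
      refine ⟨fun j => some (g j), fun s => ?_⟩
      rw [hg]
      simp
  choose g hg using h1
  have h2 : ∀ n v j, ∃ (k : ℕ) (e : Fin k → Lit W), ∀ s, g n v j = some s → Set.range e = s := by
    intro n v j
    rcases hs : g n v j with _ | s
    · exact ⟨0, fun i => i.elim0, fun s hs' => by cases hs'⟩
    · obtain ⟨k, e, he⟩ := (hf n v s ((hg n v s).2 ⟨j, hs⟩)).fin_embedding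
      refine ⟨k, e, fun s' hs' => ?_⟩
      rw [he]
      exact Option.some.inj hs'
  choose len e he using h2
  refine ⟨.mk (fun n v j => g n v j ≠ none) len (fun n v j i => (e n v j i).1)
    (fun n v j i => Sum.map id Prod.snd (e n v j i).2) (fun n v j i => sbOf (e n v j i)),
    fun n v => ?_⟩
  ext s
  rw [hg]
  have himg : ∀ j, (Set.range fun i : Fin (len n v j) => mkLit (e n v j i).1
      (Sum.map id Prod.snd (e n v j i).2) (sbOf (e n v j i))) = Set.range (e n v j) := by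
    intro j
    congr 1
    funext i
    exact mkLit_eta _
  show (∃ j, g n v j ≠ none ∧ s = Set.range fun i : Fin (len n v j) => mkLit (e n v j i).1
      (Sum.map id Prod.snd (e n v j i).2) (sbOf (e n v j i))) ↔ _
  constructor
  · rintro ⟨j, h1, h2⟩
    rw [himg] at h2
    obtain ⟨t, ht⟩ := Option.ne_none_iff_exists'.1 h1
    refine ⟨j, ?_⟩
    rw [ht, h2, he n v j t ht]
  · rintro ⟨j, hj⟩
    refine ⟨j, by rw [hj]; simp, ?_⟩
    rw [himg, he n v j s hj]

/-! ### Valid conditions -/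

/-- a finite part of a condition -/
def rs [LT W] (β : W) (p : Cond W) : Cond W := {l | l ∈ p ∧ l.1 < β}

/-- `p` contains the fact `(n, A)` at stage `γ` -/
def Fact (p : Cond W) (γ : W) (n : ℕ) (A : Finset ℕ) : Prop := (γ, Sum.inl (n, A)) ∈ p

/-- the promises of `p` at stage `γ` -/
def pr (p : Cond W) (γ : W) : Set (Nm W × ℕ) := {y | (γ, Sum.inr y) ∈ p}

/-- `p` decides that the function named by `x` has the value `v` at `n` -/
def Dec (p : Cond W) (x : Nm W) (n v : ℕ) : Prop := ∃ r ∈ cnd x n v, r ⊆ p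

/-- the slalom of `p` at stage `γ` is given up to `m` -/
def Len (p : Cond W) (γ : W) (m : ℕ) : Prop :=
  (∀ n A, Fact p γ n A → n < m) ∧ ∀ n < m, ∃ A, Fact p γ n A

variable (c h : ℕ → ℕ)

/-- `x` is a name, with respect to the conditions in `Pv`, of an element of `∏ c` -/
structure NameAt (Pv : Cond W → Prop) (x : Nm W) : Prop where
  tot : ∀ n q, Pv q → ∃ q', Pv q' ∧ q ⊆ q' ∧ ∃ v < c n, Dec q' x n v
  uniq : ∀ n q v v', Pv q → Dec q x n v → Dec q x n v' → v = v'

/-- the requirements on a condition at stage `γ` -/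
structure Body [LT W] (γ : W) (Pv : Cond W → Prop) (p : Cond W) : Prop where
  len : ∃ m, Len p γ m ∧ ∀ n, m ≤ n → (pr p γ).ncard ≤ h n
  card : ∀ n A, Fact p γ n A → A.card ≤ h n
  fn : ∀ n A B, Fact p γ n A → Fact p γ n B → A = B
  nm : ∀ y ∈ pr p γ, NameAt c Pv y.1
  dc : ∀ y ∈ pr p γ, ∀ n A, y.2 ≤ n → Fact p γ n A → ∃ v ∈ A, Dec (rs γ p) y.1 n v

variable [LinearOrder W] [WellFoundedLT W]

/-- the condition satisfies the requirements at the given stage -/
def OK : W → Cond W → Prop :=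
  (wellFounded_lt (α := W)).fix fun γ IH p => Body c h γ
    (fun q => q.Finite ∧ (∀ l ∈ q, l.1 < γ) ∧ ∀ δ (hδ : δ < γ), IH δ hδ q) p

/-- the valid conditions all literals of which have stages below `γ` -/
def PB (γ : W) (q : Cond W) : Prop := q.Finite ∧ (∀ l ∈ q, l.1 < γ) ∧ ∀ δ < γ, OK c h δ q

/-- the valid conditions -/
def V (p : Cond W) : Prop := p.Finite ∧ ∀ γ, OK c h γ p

variable {c h}

theorem OK_iff {γ : W} {p : Cond W} : OK c h γ p ↔ Body c h γ (PB c h γ) p := by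
  unfold OK
  rw [WellFounded.fix_eq]
  rfl

theorem rs_subset {β : W} {p : Cond W} : rs β p ⊆ p := fun _ hl => hl.1

theorem rs_mono {β : W} {p q : Cond W} (hpq : p ⊆ q) : rs β p ⊆ rs β q :=
  fun _ hl => ⟨hpq hl.1, hl.2⟩

theorem Dec.mono {p q : Cond W} (hpq : p ⊆ q) {x : Nm W} {n v : ℕ} (hd : Dec p x n v) :
    Dec q x n v := by
  obtain ⟨r, hr, hrp⟩ := hd
  exact ⟨r, hr, hrp.trans hpq⟩

theorem OK_of_empty {γ : W} {p : Cond W} (he : ∀ a, (γ, a) ∉ p) : OK c h γ p := by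
  rw [OK_iff]
  have h0 : pr p γ = ∅ := by
    ext y
    simp only [pr, Set.mem_ofPred_eq, Set.mem_empty_iff_false, iff_false]
    exact he _
  refine ⟨⟨0, ⟨fun n A hA => absurd hA (he _), fun n hn => absurd hn (Nat.not_lt_zero _)⟩,
    fun n _ => by rw [h0]; simp⟩, fun n A hA => absurd hA (he _),
    fun n A B hA => absurd hA (he _), fun y hy => absurd hy (he _), fun y hy => absurd hy (he _)⟩

theorem OK_mono {γ : W} {p q : Cond W} (hrs : rs γ p ⊆ rs γ q)
    (hg : ∀ a, (γ, a) ∈ p ↔ (γ, a) ∈ q) (hp : OK c h γ p) : OK c h γ q := by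
  rw [OK_iff] at hp ⊢
  have h0 : pr p γ = pr q γ := by
    ext y
    exact hg _
  have h1 : ∀ n A, Fact p γ n A ↔ Fact q γ n A := fun n A => hg _
  obtain ⟨m, hm, hm'⟩ := hp.len
  refine ⟨⟨m, ⟨fun n A hA => hm.1 n A ((h1 n A).2 hA), fun n hn => ?_⟩, fun n hn => ?_⟩,
    fun n A hA => hp.card n A ((h1 n A).2 hA),
    fun n A B hA hB => hp.fn n A B ((h1 n A).2 hA) ((h1 n B).2 hB),
    fun y hy => hp.nm y (h0 ▸ hy), fun y hy n A hn hA => ?_⟩
  · obtain ⟨A, hA⟩ := hm.2 n hn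
    exact ⟨A, (h1 n A).1 hA⟩
  · rw [← h0]
    exact hm' n hn
  · obtain ⟨v, hv, hd⟩ := hp.dc y (h0 ▸ hy) n A hn ((h1 n A).2 hA)
    exact ⟨v, hv, hd.mono hrs⟩

theorem PB_iff {γ : W} {q : Cond W} : PB c h γ q ↔ V c h q ∧ ∀ l ∈ q, l.1 < γ := by
  constructor
  · rintro ⟨h1, h2, h3⟩
    refine ⟨⟨h1, fun δ => ?_⟩, h2⟩
    by_cases hδ : δ < γ
    · exact h3 δ hδ
    · exact OK_of_empty fun a ha => hδ (h2 _ ha)
  · rintro ⟨⟨h1, h2⟩, h3⟩
    exact ⟨h1, h3, fun δ _ => h2 δ⟩

theorem V_empty : V c h (∅ : Cond W) := ⟨Set.finite_empty, fun _ => OK_of_empty fun _ ha => ha⟩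

theorem PB_empty (γ : W) : PB c h γ (∅ : Cond W) := PB_iff.2 ⟨V_empty, fun _ hl => absurd hl id⟩

theorem PB.mono {γ δ : W} (hγ : γ ≤ δ) {q : Cond W} (hq : PB c h γ q) : PB c h δ q := by
  rw [PB_iff] at hq ⊢
  exact ⟨hq.1, fun l hl => (hq.2 l hl).trans_le hγ⟩

theorem V_rs {p : Cond W} (hp : V c h p) (γ : W) : V c h (rs γ p) := by
  refine ⟨hp.1.subset rs_subset, fun δ => ?_⟩
  by_cases hδ : δ < γ
  · refine OK_mono (p := p) ?_ ?_ (hp.2 δ)
    · rintro l ⟨hl, hl'⟩
      exact ⟨⟨hl, hl'.trans hδ⟩, hl'⟩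
    · intro a
      exact ⟨fun ha => ⟨ha, hδ⟩, fun ha => ha.1⟩
  · exact OK_of_empty fun a ha => hδ ha.2

theorem PB_rs {p : Cond W} (hp : V c h p) (γ : W) : PB c h γ (rs γ p) :=
  PB_iff.2 ⟨V_rs hp γ, fun _ hl => hl.2⟩

/-- the basic amalgamation -/
theorem V_union {β : W} {p q : Cond W} (hq : PB c h β q) (hp : V c h p) (hpq : rs β p ⊆ q) :
    V c h (q ∪ p) := by
  have hq' := PB_iff.1 hq
  refine ⟨hq.1.union hp.1, fun γ => ?_⟩
  by_cases hγ : γ < β
  · refine OK_mono (p := q) (rs_mono Set.subset_union_left) ?_ (hq'.1.2 γ)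
    intro a
    refine ⟨fun ha => Or.inl ha, ?_⟩
    rintro (ha | ha)
    · exact ha
    · exact hpq ⟨ha, hγ⟩
  · refine OK_mono (p := p) (rs_mono Set.subset_union_right) ?_ (hp.2 γ)
    intro a
    refine ⟨fun ha => Or.inr ha, ?_⟩
    rintro (ha | ha)
    · exact absurd (hq'.2 _ ha) hγ
    · exact ha

end Pool.Agent.H82.LI
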