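import Pool.Agent.H82.LIA

/-!
# Extending conditions
-/

set_option autoImplicit false
set_option linter.unusedSectionVars false

namespace Pool.Agent.H82.LI

variable {W : Type} [LinearOrder W] [WellFoundedLT W] {c h : ℕ → ℕ}

theorem Len.unique {p : Cond W} {γ : W} {m m' : ℕ} (h1 : Len p γ m) (h2 : Len p γ m') :
    m = m' := by
  rcases lt_trichotomy m m' with hlt | heq | hlt
  · obtain ⟨A, hA⟩ := h2.2 m hlt
    exact absurd (h1.1 m A hA) (lt_irrefl _)
  · exact heq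
  · obtain ⟨A, hA⟩ := h1.2 m' hlt
    exact absurd (h2.1 m' A hA) (lt_irrefl _)

theorem pr_finite {p : Cond W} (hp : p.Finite) (γ : W) : (pr p γ).Finite := by
  refine Set.Finite.of_finite_image (f := fun y : Nm W × ℕ => ((γ, Sum.inr y) : Lit W)) ?_ ?_
  · refine hp.subset ?_
    rintro _ ⟨y, hy, rfl⟩
    exact hy
  · intro y _ z _ hyz
    simpa using hyz

theorem rs_eq_of {β : W} {p q : Cond W} (hpq : ∀ l : Lit W, l.1 < β → (l ∈ p ↔ l ∈ q)) :
    rs β p = rs β q := by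
  ext l
  constructor
  · rintro ⟨h1, h2⟩
    exact ⟨(hpq l h2).1 h1, h2⟩
  · rintro ⟨h1, h2⟩
    exact ⟨(hpq l h2).2 h1, h2⟩

theorem ext_dec1 {p : Cond W} (hp : V c h p) {γ : W} {x : Nm W} (hx : NameAt c (PB c h γ) x)
    (n : ℕ) : ∃ p', V c h p' ∧ p ⊆ p' ∧ (∀ l ∈ p', l ∈ p ∨ l.1 < γ) ∧
      ∃ v < c n, Dec (rs γ p') x n v := by
  obtain ⟨q', hq', hsub, v, hv, hd⟩ := hx.tot n _ (PB_rs hp γ)
  refine ⟨q' ∪ p, V_union hq' hp hsub, Set.subset_union_right, ?_, v, hv, ?_⟩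
  · rintro l (hl | hl)
    · exact Or.inr ((PB_iff.1 hq').2 l hl)
    · exact Or.inl hl
  · refine Dec.mono ?_ hd
    intro l hl
    exact ⟨Or.inl hl, (PB_iff.1 hq').2 l hl⟩

theorem ext_dec {p : Cond W} (hp : V c h p) {γ : W} {F : Set (Nm W)} (hF : F.Finite)
    (hx : ∀ x ∈ F, NameAt c (PB c h γ) x) (n : ℕ) :
    ∃ p', V c h p' ∧ p ⊆ p' ∧ (∀ l ∈ p', l ∈ p ∨ l.1 < γ) ∧
      ∀ x ∈ F, ∃ v < c n, Dec (rs γ p') x n v := by
  induction F, hF using Set.Finite.induction_on with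
  | empty => exact ⟨p, hp, subset_rfl, fun l hl => Or.inl hl, fun x hx => absurd hx id⟩
  | @insert a s _ _ ih =>
    obtain ⟨p1, h1, h2, h3, h4⟩ := ih fun x hx' => hx x (Or.inr hx')
    obtain ⟨p2, h5, h6, h7, v, hv, hd⟩ := ext_dec1 h1 (hx a (Or.inl rfl)) n
    refine ⟨p2, h5, h2.trans h6, fun l hl => ?_, fun x hx' => ?_⟩
    · rcases h7 l hl with h | h
      · exact h3 l h
      · exact Or.inr h
    · rcases hx' with rfl | hx'
      · exact ⟨v, hv, hd⟩
      · obtain ⟨w, hw, hd'⟩ := h4 x hx'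
        exact ⟨w, hw, hd'.mono (rs_mono h6)⟩

theorem ext_fact1 {p : Cond W} (hp : V c h p) {γ : W} {m : ℕ} (hm : Len p γ m) :
    ∃ p', V c h p' ∧ p ⊆ p' ∧ (∀ δ, γ < δ → ∀ a, (δ, a) ∈ p' ↔ (δ, a) ∈ p) ∧
      pr p' γ = pr p γ ∧ Len p' γ (m + 1) := by
  classical
  have hb := OK_iff.1 (hp.2 γ)
  have hcard : ∀ n, m ≤ n → (pr p γ).ncard ≤ h n := by
    obtain ⟨m', hm', h1⟩ := hb.len
    rw [hm.unique hm']
    exact h1
  have hprf := pr_finite hp.1 γ
  have hF : (Prod.fst '' pr p γ).Finite := hprf.image _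
  obtain ⟨p1, h1, h2, h3, h4⟩ := ext_dec hp (γ := γ) hF (by
    rintro _ ⟨y, hy, rfl⟩
    exact hb.nm y hy) m
  choose! v hv hd using h4
  have hsame : ∀ δ, γ ≤ δ → ∀ a, (δ, a) ∈ p1 ↔ (δ, a) ∈ p := fun δ hδ a =>
    ⟨fun ha => (h3 _ ha).resolve_right (not_lt.2 hδ), fun ha => h2 ha⟩
  let A : Finset ℕ := hF.toFinset.image v
  have hA : A.card ≤ h m := by
    refine (Finset.card_image_le).trans ?_
    rw [← Set.ncard_eq_toFinset_card _ hF]
    exact (Set.ncard_image_le hprf).trans (hcard m le_rfl)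
  have hp1len : Len p1 γ m := ⟨fun n B hB => hm.1 n B ((hsame γ le_rfl _).1 hB), fun n hn => by
    obtain ⟨B, hB⟩ := hm.2 n hn
    exact ⟨B, h2 hB⟩⟩
  have hpr1 : pr p1 γ = pr p γ := by
    ext y
    exact hsame γ le_rfl _
  have hb1 := OK_iff.1 (h1.2 γ)
  let p' : Cond W := insert (γ, Sum.inl (m, A)) p1
  have hmem : ∀ l : Lit W, l ∈ p' ↔ l = (γ, Sum.inl (m, A)) ∨ l ∈ p1 := fun l => Iff.rfl
  have hfact : ∀ n B, Fact p' γ n B ↔ (n = m ∧ B = A) ∨ Fact p1 γ n B := by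
    intro n B
    show (γ, Sum.inl (n, B)) ∈ p' ↔ _
    rw [hmem]
    simp only [Prod.mk.injEq, true_and, Sum.inl.injEq]
    rfl
  have hpr' : pr p' γ = pr p γ := by
    rw [← hpr1]
    ext y
    show (γ, Sum.inr y) ∈ p' ↔ _
    rw [hmem]
    simp [pr]
  have hrs : rs γ p' = rs γ p1 := by
    apply rs_eq_of
    intro l hl
    rw [hmem]
    constructor
    · rintro (rfl | h)
      · exact absurd hl (lt_irrefl _)
      · exact h
    · exact Or.inr
  refine ⟨p', ⟨h1.1.insert _, fun δ => ?_⟩, h2.trans (Set.subset_insert _ _), fun δ hδ a => ?_,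
    hpr', ⟨fun n B hB => ?_, fun n hn => ?_⟩⟩
  · by_cases hδ : δ = γ
    · subst hδ
      rw [OK_iff]
      refine ⟨⟨m + 1, ⟨fun n B hB => ?_, fun n hn => ?_⟩, fun n hn => ?_⟩, fun n B hB => ?_,
        fun n B C hB hC => ?_, fun y hy => ?_, fun y hy n B hn hB => ?_⟩
      · rcases (hfact n B).1 hB with ⟨rfl, -⟩ | hB
        · exact Nat.lt_succ_self _
        · exact (hp1len.1 n B hB).trans (Nat.lt_succ_self _)
      · rcases Nat.lt_succ_iff_lt_or_eq.1 hn with hn | rfl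
        · obtain ⟨B, hB⟩ := hp1len.2 n hn
          exact ⟨B, (hfact n B).2 (Or.inr hB)⟩
        · exact ⟨A, (hfact n A).2 (Or.inl ⟨rfl, rfl⟩)⟩
      · rw [hpr']
        exact hcard n (by omega)
      · rcases (hfact n B).1 hB with ⟨rfl, rfl⟩ | hB
        · exact hA
        · exact hb1.card n B hB
      · rcases (hfact n B).1 hB with ⟨hn, rfl⟩ | hB
        · rcases (hfact n C).1 hC with ⟨-, rfl⟩ | hC
          · rfl
          · exact absurd (hp1len.1 n C hC) (by omega)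
        · rcases (hfact n C).1 hC with ⟨hn, rfl⟩ | hC
          · exact absurd (hp1len.1 n B hB) (by omega)
          · exact hb1.fn n B C hB hC
      · rw [hpr'] at hy
        exact hb.nm y hy
      · rw [hpr'] at hy
        rw [hrs]
        rcases (hfact n B).1 hB with ⟨rfl, rfl⟩ | hB
        · have hy1 : y.1 ∈ Prod.fst '' pr p δ := ⟨y, hy, rfl⟩
          exact ⟨v y.1, Finset.mem_image_of_mem _ (hF.mem_toFinset.2 hy1), hd y.1 hy1⟩
        · exact hb1.dc y (by rw [hpr1]; exact hy) n B hn hB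
    · refine OK_mono (p := p1) (rs_mono (Set.subset_insert _ _)) (fun a => ?_) (h1.2 δ)
      rw [hmem]
      constructor
      · exact Or.inr
      · rintro (h | h)
        · exact absurd (congrArg Prod.fst h) hδ
        · exact h
  · rw [hmem, ← hsame δ hδ.le a]
    constructor
    · rintro (h | h)
      · exact absurd (congrArg Prod.fst h) hδ.ne'
      · exact h
    · exact Or.inr
  · rcases (hfact n B).1 hB with ⟨rfl, -⟩ | hB
    · exact Nat.lt_succ_self _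
    · exact (hp1len.1 n B hB).trans (Nat.lt_succ_self _)
  · rcases Nat.lt_succ_iff_lt_or_eq.1 hn with hn | rfl
    · obtain ⟨B, hB⟩ := hp1len.2 n hn
      exact ⟨B, (hfact n B).2 (Or.inr hB)⟩
    · exact ⟨A, (hfact n A).2 (Or.inl ⟨rfl, rfl⟩)⟩

theorem ext_fact {p : Cond W} (hp : V c h p) (γ : W) (N : ℕ) :
    ∃ p', V c h p' ∧ p ⊆ p' ∧ (∀ δ, γ < δ → ∀ a, (δ, a) ∈ p' ↔ (δ, a) ∈ p) ∧
      pr p' γ = pr p γ ∧ ∃ m, N ≤ m ∧ Len p' γ m := by
  induction N with
  | zero =>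
    obtain ⟨m, hm, -⟩ := (OK_iff.1 (hp.2 γ)).len
    exact ⟨p, hp, subset_rfl, fun _ _ _ => Iff.rfl, rfl, m, Nat.zero_le _, hm⟩
  | succ N ih =>
    obtain ⟨p1, h1, h2, h3, h4, m, hm, hm'⟩ := ih
    obtain ⟨p2, h5, h6, h7, h8, h9⟩ := ext_fact1 h1 hm'
    exact ⟨p2, h5, h2.trans h6, fun δ hδ a => (h7 δ hδ a).trans (h3 δ hδ a), h8.trans h4, m + 1,
      by omega, h9⟩

/-- `h` tends to infinity -/
def Inf (h : ℕ → ℕ) : Prop := ∀ k, ∃ N, ∀ n, N ≤ n → k ≤ h n

theorem ext_prom (hh : Inf h) {p : Cond W} (hp : V c h p) {γ : W} {x : Nm W}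
    (hx : NameAt c (PB c h γ) x) : ∃ p' k, V c h p' ∧ p ⊆ p' ∧ (x, k) ∈ pr p' γ := by
  obtain ⟨N, hN⟩ := hh ((pr p γ).ncard + 1)
  obtain ⟨p1, h1, h2, h3, h4, m, hm, hm'⟩ := ext_fact hp γ N
  have hb := OK_iff.1 (h1.2 γ)
  let p' : Cond W := insert (γ, Sum.inr (x, m)) p1
  have hmem : ∀ l : Lit W, l ∈ p' ↔ l = (γ, Sum.inr (x, m)) ∨ l ∈ p1 := fun l => Iff.rfl
  have hfact : ∀ n B, Fact p' γ n B ↔ Fact p1 γ n B := by
    intro n B
    show (γ, Sum.inl (n, B)) ∈ p' ↔ _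
    rw [hmem]
    simp only [Prod.mk.injEq, true_and, reduceCtorEq, false_or]
    rfl
  have hpr' : pr p' γ = insert (x, m) (pr p1 γ) := by
    ext y
    show (γ, Sum.inr y) ∈ p' ↔ _
    rw [hmem]
    simp only [Prod.mk.injEq, true_and, Sum.inr.injEq, pr, Set.mem_insert_iff, Set.mem_ofPred_eq]
  refine ⟨p', m, ⟨h1.1.insert _, fun δ => ?_⟩, h2.trans (Set.subset_insert _ _), Or.inl rfl⟩
  by_cases hδ : δ = γ
  · subst hδ
    have hrs : rs δ p' = rs δ p1 := by
      apply rs_eq_of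
      intro l hl
      rw [hmem]
      constructor
      · rintro (rfl | h)
        · exact absurd hl (lt_irrefl _)
        · exact h
      · exact Or.inr
    rw [OK_iff]
    refine ⟨⟨m, ⟨fun n B hB => hm'.1 n B ((hfact n B).1 hB), fun n hn => ?_⟩, fun n hn => ?_⟩,
      fun n B hB => hb.card n B ((hfact n B).1 hB),
      fun n B C hB hC => hb.fn n B C ((hfact n B).1 hB) ((hfact n C).1 hC), fun y hy => ?_,
      fun y hy n B hn hB => ?_⟩
    · obtain ⟨B, hB⟩ := hm'.2 n hn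
      exact ⟨B, (hfact n B).2 hB⟩
    · rw [hpr', h4]
      exact (Set.ncard_insert_le _ _).trans (hN n (hm.trans hn))
    · rw [hpr'] at hy
      rcases hy with rfl | hy
      · exact hx
      · exact hb.nm y hy
    · rw [hpr'] at hy
      rw [hrs]
      rcases hy with rfl | hy
      · exact absurd (hm'.1 n B ((hfact n B).1 hB)) (not_lt.2 hn)
      · exact hb.dc y hy n B hn ((hfact n B).1 hB)
  · refine OK_mono (p := p1) (rs_mono (Set.subset_insert _ _)) (fun a => ?_) (h1.2 δ)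
    rw [hmem]
    constructor
    · exact Or.inr
    · rintro (h | h)
      · exact absurd (congrArg Prod.fst h) hδ
      · exact h

/-- conditions for which twice as many promises are allowed -/
def Dbl (h : ℕ → ℕ) (p : Cond W) : Prop :=
  ∀ γ m, Len p γ m → ∀ n, m ≤ n → 2 * (pr p γ).ncard ≤ h n

theorem exists_max {p : Cond W} (hp : p.Finite) (hne : p.Nonempty) :
    ∃ γ, (∃ a, (γ, a) ∈ p) ∧ ∀ l ∈ p, l.1 ≤ γ := by
  obtain ⟨l, hl, hmax⟩ := Set.exists_max_image p (fun l : Lit W => l.1) hp hne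
  exact ⟨l.1, ⟨l.2, hl⟩, hmax⟩

theorem dbl_PB (hh : Inf h) (β : W) : ∀ p : Cond W, PB c h β p →
    ∃ p', PB c h β p' ∧ p ⊆ p' ∧ Dbl h p' := by
  induction β using WellFoundedLT.induction with
  | ind β ih =>
    intro p hp
    have hp' := PB_iff.1 hp
    rcases Set.eq_empty_or_nonempty p with rfl | hne
    · refine ⟨∅, PB_empty β, subset_rfl, fun γ m _ n _ => ?_⟩
      have h0 : pr (∅ : Cond W) γ = ∅ := rfl
      rw [h0]
      simp
    obtain ⟨γ, ⟨a, ha⟩, hmax⟩ := exists_max hp.1 hne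
    have hγ : γ < β := hp'.2 _ ha
    obtain ⟨N, hN⟩ := hh (2 * (pr p γ).ncard)
    obtain ⟨p1, h1, h2, h3, h4, m, hm, hm'⟩ := ext_fact hp'.1 γ N
    obtain ⟨q, hq1, hq2, hq3⟩ := ih γ hγ _ (PB_rs h1 γ)
    have hq' := PB_iff.1 hq1
    have hV := V_union hq1 h1 hq2
    have hup : ∀ l ∈ p1, l.1 ≤ γ := by
      intro l hl
      by_contra hcon
      obtain ⟨δ, b⟩ := l
      exact hcon (hmax _ ((h3 δ (not_le.1 hcon) b).1 hl))
    have hlow : ∀ δ, δ < γ → ∀ b, (δ, b) ∈ q ∪ p1 ↔ (δ, b) ∈ q := by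
      intro δ hδ b
      refine ⟨?_, fun h => Or.inl h⟩
      rintro (h | h)
      · exact h
      · exact hq2 ⟨h, hδ⟩
    have heq : ∀ δ, γ ≤ δ → ∀ b, (δ, b) ∈ q ∪ p1 ↔ (δ, b) ∈ p1 := by
      intro δ hδ b
      refine ⟨?_, fun h => Or.inr h⟩
      rintro (h | h)
      · exact absurd (hq'.2 _ h) (not_lt.2 hδ)
      · exact h
    refine ⟨q ∪ p1, PB_iff.2 ⟨hV, ?_⟩, h2.trans Set.subset_union_right, fun δ k hk n hn => ?_⟩
    · rintro l (hl | hl)
      · exact (hq'.2 l hl).trans hγ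
      · exact (hup l hl).trans_lt hγ
    · rcases lt_trichotomy δ γ with hδ | rfl | hδ
      · have e1 : pr (q ∪ p1) δ = pr q δ := by
          ext y
          exact hlow δ hδ _
        rw [e1]
        refine hq3 δ k ⟨fun n A hA => hk.1 n A (Or.inl hA), fun n hn => ?_⟩ n hn
        obtain ⟨A, hA⟩ := hk.2 n hn
        exact ⟨A, (hlow δ hδ _).1 hA⟩
      · have e1 : pr (q ∪ p1) δ = pr p δ := by
          rw [← h4]
          ext y
          exact heq δ le_rfl _
        have e2 : k = m := by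
          refine Len.unique (p := p1) (γ := δ) ⟨fun n A hA => hk.1 n A (Or.inr hA), fun n hn => ?_⟩
            hm'
          obtain ⟨A, hA⟩ := hk.2 n hn
          exact ⟨A, (heq δ le_rfl _).1 hA⟩
        rw [e1]
        exact hN n (by omega)
      · have e1 : pr (q ∪ p1) δ = ∅ := by
          ext y
          simp only [Set.mem_empty_iff_false, iff_false]
          intro hy
          exact absurd (hup _ ((heq δ hδ.le _).1 hy)) (not_le.2 hδ)
        rw [e1]
        simp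

theorem dbl_dense (hh : Inf h) (hW : ∀ a : W, ∃ b, a < b) {p : Cond W} (hp : V c h p) :
    ∃ p', V c h p' ∧ p ⊆ p' ∧ Dbl h p' := by
  rcases Set.eq_empty_or_nonempty p with rfl | hne
  · refine ⟨∅, hp, subset_rfl, fun γ m _ n _ => ?_⟩
    have h0 : pr (∅ : Cond W) γ = ∅ := rfl
    rw [h0]
    simp
  obtain ⟨γ, -, hmax⟩ := exists_max hp.1 hne
  obtain ⟨β, hβ⟩ := hW γ
  obtain ⟨p', h1, h2, h3⟩ := dbl_PB (c := c) hh β p (PB_iff.2 ⟨hp, fun l hl =>
    (hmax l hl).trans_lt hβ⟩)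
  exact ⟨p', (PB_iff.1 h1).1, h2, h3⟩

/-- two conditions agree at the stages at which both of them have literals -/
def Agree (p q : Cond W) : Prop :=
  ∀ γ, (∃ a, (γ, a) ∈ p) → (∃ a, (γ, a) ∈ q) →
    (∀ n A, Fact p γ n A ↔ Fact q γ n A) ∧ (pr p γ).ncard = (pr q γ).ncard

theorem V_union_agree {p q : Cond W} (hp : V c h p) (hq : V c h q) (hpd : Dbl h p)
    (hpq : Agree p q) : V c h (p ∪ q) := by
  refine ⟨hp.1.union hq.1, fun γ => ?_⟩
  by_cases h1 : ∃ a, (γ, a) ∈ p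
  · by_cases h2 : ∃ a, (γ, a) ∈ q
    · obtain ⟨h3, h4⟩ := hpq γ h1 h2
      have hb1 := OK_iff.1 (hp.2 γ)
      have hb2 := OK_iff.1 (hq.2 γ)
      obtain ⟨m, hm, hm'⟩ := hb1.len
      have hfact : ∀ n A, Fact (p ∪ q) γ n A ↔ Fact p γ n A := by
        intro n A
        constructor
        · rintro (h | h)
          · exact h
          · exact (h3 n A).2 h
        · exact fun h => Or.inl h
      have hpr : pr (p ∪ q) γ = pr p γ ∪ pr q γ := rfl
      rw [OK_iff]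
      refine ⟨⟨m, ⟨fun n A hA => hm.1 n A ((hfact n A).1 hA), fun n hn => ?_⟩, fun n hn => ?_⟩,
        fun n A hA => hb1.card n A ((hfact n A).1 hA),
        fun n A B hA hB => hb1.fn n A B ((hfact n A).1 hA) ((hfact n B).1 hB), fun y hy => ?_,
        fun y hy n A hn hA => ?_⟩
      · obtain ⟨A, hA⟩ := hm.2 n hn
        exact ⟨A, (hfact n A).2 hA⟩
      · rw [hpr]
        refine (Set.ncard_union_le _ _).trans ?_
        rw [← h4]
        have := hpd γ m hm n hn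
        omega
      · rcases hy with hy | hy
        · exact hb1.nm y hy
        · exact hb2.nm y hy
      · rcases hy with hy | hy
        · obtain ⟨v, hv, hd⟩ := hb1.dc y hy n A hn ((hfact n A).1 hA)
          exact ⟨v, hv, hd.mono (rs_mono Set.subset_union_left)⟩
        · obtain ⟨v, hv, hd⟩ := hb2.dc y hy n A hn ((h3 n A).1 ((hfact n A).1 hA))
          exact ⟨v, hv, hd.mono (rs_mono Set.subset_union_right)⟩
    · refine OK_mono (p := p) (rs_mono Set.subset_union_left) (fun a => ⟨fun h => Or.inl h, ?_⟩)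
        (hp.2 γ)
      rintro (h | h)
      · exact h
      · exact absurd ⟨a, h⟩ h2
  · refine OK_mono (p := q) (rs_mono Set.subset_union_right) (fun a => ⟨fun h => Or.inr h, ?_⟩)
      (hq.2 γ)
    rintro (h | h)
    · exact absurd ⟨a, h⟩ h1
    · exact h

end Pool.Agent.H82.LI
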