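import Pool.Agent.H82.LIB

/-!
# Types of conditions, the countable chain condition, and names
-/

set_option autoImplicit false
set_option linter.unusedSectionVars false

namespace Pool.Agent.H82.LI

variable {W : Type} [LinearOrder W] [WellFoundedLT W] {c h : ℕ → ℕ}

open Classical in
/-- the promises of `p` at stage `γ`, as a list -/
noncomputable def enum (p : Cond W) (γ : W) : List (Nm W × ℕ) :=
  if hf : (pr p γ).Finite then hf.toFinset.toList else []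

theorem mem_enum {p : Cond W} (hp : p.Finite) {γ : W} {y : Nm W × ℕ} :
    y ∈ enum p γ ↔ y ∈ pr p γ := by
  unfold enum
  rw [dif_pos (pr_finite hp γ)]
  simp

theorem length_enum {p : Cond W} (hp : p.Finite) (γ : W) :
    (enum p γ).length = (pr p γ).ncard := by
  unfold enum
  rw [dif_pos (pr_finite hp γ), Finset.length_toList,
    ← Set.ncard_eq_toFinset_card _ (pr_finite hp γ)]

theorem facts_finite {p : Cond W} (hp : p.Finite) (γ : W) :
    {y : ℕ × Finset ℕ | Fact p γ y.1 y.2}.Finite := by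
  refine Set.Finite.of_finite_image
    (f := fun y : ℕ × Finset ℕ => ((γ, Sum.inl y) : Lit W)) ?_ ?_
  · refine hp.subset ?_
    rintro _ ⟨y, hy, rfl⟩
    exact hy
  · intro y _ z _ hyz
    simpa using hyz

open Classical in
/-- the facts of `p` at stage `γ` -/
noncomputable def facts (p : Cond W) (γ : W) : Finset (ℕ × Finset ℕ) :=
  if hf : {y : ℕ × Finset ℕ | Fact p γ y.1 y.2}.Finite then hf.toFinset else ∅

theorem mem_facts {p : Cond W} (hp : p.Finite) {γ : W} {y : ℕ × Finset ℕ} :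
    y ∈ facts p γ ↔ Fact p γ y.1 y.2 := by
  unfold facts
  rw [dif_pos (facts_finite hp γ)]
  simp

/-- the local type of `p` at stage `γ` -/
noncomputable def loc (p : Cond W) (γ : W) : Finset (ℕ × Finset ℕ) × List ℕ :=
  (facts p γ, (enum p γ).map Prod.snd)

open Classical in
/-- the stages of the literals of `p` -/
noncomputable def supp (p : Cond W) : Finset W :=
  if hf : p.Finite then hf.toFinset.image Prod.fst else ∅

theorem mem_supp {p : Cond W} (hp : p.Finite) {γ : W} : γ ∈ supp p ↔ ∃ a, (γ, a) ∈ p := by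
  unfold supp
  rw [dif_pos hp]
  simp

section types

variable (cd : W → ℕ → Bool)

/-- the initial segment of length `N` of the code of `γ` -/
def pre (γ : W) (N : ℕ) : List Bool := (List.range N).map (cd γ)

theorem pre_inj {γ δ : W} {N : ℕ} (he : pre cd γ N = pre cd δ N) : ∀ n < N, cd γ n = cd δ n := by
  intro n hn
  have h2 := congrArg (fun l : List Bool => l[n]?) he
  simpa [pre, hn] using h2

variable {cd}

theorem exists_level (hcd : Function.Injective cd) (s : Finset W) :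
    ∃ N, Set.InjOn (fun γ => pre cd γ N) (s : Set W) := by
  classical
  have h1 : ∀ γ δ : W, ∃ n, γ ≠ δ → cd γ n ≠ cd δ n := by
    intro γ δ
    by_cases he : γ = δ
    · exact ⟨0, fun h => absurd he h⟩
    · obtain ⟨n, hn⟩ := Function.ne_iff.1 (fun h => he (hcd h))
      exact ⟨n, fun _ => hn⟩
  choose f hf using h1
  refine ⟨(s ×ˢ s).sup (fun y => f y.1 y.2) + 1, fun γ hγ δ hδ he => ?_⟩
  by_contra hne
  refine hf γ δ hne (pre_inj cd he _ ?_)
  refine Nat.lt_succ_of_le ?_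
  exact Finset.le_sup (f := fun y : W × W => f y.1 y.2) (b := (γ, δ)) (by
    simp only [Finset.mem_product]
    exact ⟨hγ, hδ⟩)

open Classical in
/-- the type of a condition -/
noncomputable def ty (cd : W → ℕ → Bool) (p : Cond W) :
    ℕ × Finset (List Bool × (Finset (ℕ × Finset ℕ) × List ℕ)) :=
  if hN : ∃ N, Set.InjOn (fun γ => pre cd γ N) (supp p : Set W) then
    (hN.choose, (supp p).image fun γ => (pre cd γ hN.choose, loc p γ))
  else (0, ∅)

theorem loc_eq (hcd : Function.Injective cd) {p q : Cond W} (hty : ty cd p = ty cd q) {γ : W}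
    (h1 : γ ∈ supp p) (h2 : γ ∈ supp q) : loc p γ = loc q γ := by
  classical
  unfold ty at hty
  have hp := exists_level hcd (supp p)
  have hq := exists_level hcd (supp q)
  rw [dif_pos hp, dif_pos hq, Prod.mk.injEq] at hty
  obtain ⟨h3, h4⟩ := hty
  have h5 : (pre cd γ hp.choose, loc p γ) ∈
      (supp q).image fun γ => (pre cd γ hq.choose, loc q γ) := by
    rw [← h4]
    exact Finset.mem_image_of_mem _ h1
  obtain ⟨δ, hδ, he⟩ := Finset.mem_image.1 h5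
  rw [Prod.mk.injEq, h3] at he
  have h6 : δ = γ := hq.choose_spec hδ h2 he.1
  rw [← he.2, h6]

theorem agree_of_ty (hcd : Function.Injective cd) {p q : Cond W} (hp : p.Finite) (hq : q.Finite)
    (hty : ty cd p = ty cd q) : Agree p q := by
  intro γ h1 h2
  have h3 := loc_eq hcd hty ((mem_supp hp).2 h1) ((mem_supp hq).2 h2)
  unfold loc at h3
  rw [Prod.mk.injEq] at h3
  refine ⟨fun n A => ?_, ?_⟩
  · have h4 := mem_facts hp (γ := γ) (y := (n, A))
    have h5 := mem_facts hq (γ := γ) (y := (n, A))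
    rw [h3.1] at h4
    exact h4.symm.trans h5
  · have h4 := congrArg List.length h3.2
    rw [List.length_map, List.length_map, length_enum hp, length_enum hq] at h4
    exact h4

end types

/-- hypotheses on the well-ordered set and on `h` -/
structure Good (W : Type) [LinearOrder W] (h : ℕ → ℕ) : Prop where
  inf : Inf h
  nomax : ∀ a : W, ∃ b, a < b
  code : ∃ cd : W → ℕ → Bool, Function.Injective cd

theorem countable_of_antichain (hg : Good W h) {A : Set (Cond W)} (hA : ∀ p ∈ A, V c h p)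
    (hanti : ∀ p ∈ A, ∀ q ∈ A, p ≠ q → ¬ ∃ r, V c h r ∧ p ⊆ r ∧ q ⊆ r) : A.Countable := by
  classical
  obtain ⟨cd, hcd⟩ := hg.code
  have h1 : ∀ p ∈ A, ∃ p', V c h p' ∧ p ⊆ p' ∧ Dbl h p' := fun p hp =>
    dbl_dense hg.inf hg.nomax (hA p hp)
  choose! d hd1 hd2 hd3 using h1
  refine Set.countable_of_injective_of_countable_image (f := fun p => ty cd (d p)) ?_
    (Set.to_countable _)
  intro p hp q hq he
  by_contra hne
  refine hanti p hp q hq hne ⟨d p ∪ d q, V_union_agree (hd1 p hp) (hd1 q hq) (hd3 p hp)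
    (agree_of_ty hcd (hd1 p hp).1 (hd1 q hq).1 he), (hd2 p hp).trans Set.subset_union_left,
    (hd2 q hq).trans Set.subset_union_right⟩

theorem exists_antichain (hg : Good W h) (Q : Cond W → Prop) (hQ : ∀ p, Q p → V c h p)
    (hcomp : ∀ p q r, Q p → Q q → V c h r → p ⊆ r → q ⊆ r → ∃ r', Q r' ∧ p ⊆ r' ∧ q ⊆ r')
    (S : Set (Cond W)) (hS : ∀ u ∈ S, Q u) :
    ∃ M ⊆ S, M.Countable ∧ ∀ u ∈ S, ∃ r ∈ M, ∃ w, Q w ∧ u ⊆ w ∧ r ⊆ w := by
  obtain ⟨M, hM⟩ := zorn_subset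
    {M : Set (Cond W) | M ⊆ S ∧ ∀ p ∈ M, ∀ q ∈ M, p ≠ q → ¬ ∃ r, Q r ∧ p ⊆ r ∧ q ⊆ r} (by
      intro C hC hchain
      refine ⟨⋃₀ C, ⟨Set.sUnion_subset fun M hM => (hC hM).1, ?_⟩, fun M hM =>
        Set.subset_sUnion_of_mem hM⟩
      rintro p ⟨M1, hM1, hp⟩ q ⟨M2, hM2, hq⟩ hne
      rcases hchain.total hM1 hM2 with h12 | h12
      · exact (hC hM2).2 p (h12 hp) q hq hne
      · exact (hC hM1).2 p hp q (h12 hq) hne)
  refine ⟨M, hM.prop.1, ?_, ?_⟩
  · refine countable_of_antichain (c := c) hg (fun p hp => hQ p (hS p (hM.prop.1 hp))) ?_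
    rintro p hp q hq hne ⟨r, hr, h1, h2⟩
    exact hM.prop.2 p hp q hq hne (hcomp p q r (hS p (hM.prop.1 hp)) (hS q (hM.prop.1 hq)) hr h1 h2)
  · intro u hu
    by_contra hcon
    push Not at hcon
    have h1 : insert u M ∈ {M : Set (Cond W) | M ⊆ S ∧ ∀ p ∈ M, ∀ q ∈ M, p ≠ q →
        ¬ ∃ r, Q r ∧ p ⊆ r ∧ q ⊆ r} := by
      refine ⟨Set.insert_subset hu hM.prop.1, ?_⟩
      rintro p (rfl | hp) q (rfl | hq) hne ⟨r, hr, h1, h2⟩
      · exact hne rfl
      · exact hcon q hq r hr h1 h2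
      · exact hcon p hp r hr h2 h1
      · exact hM.prop.2 p hp q hq hne ⟨r, hr, h1, h2⟩
    have h2 : u ∈ M := hM.le_of_ge h1 (Set.subset_insert _ _) (Set.mem_insert _ _)
    exact hcon u h2 u (hS u hu) subset_rfl subset_rfl

theorem comp_PB {γ : W} {p q r : Cond W} (hp : PB c h γ p) (hq : PB c h γ q) (hr : V c h r)
    (h1 : p ⊆ r) (h2 : q ⊆ r) : ∃ r', PB c h γ r' ∧ p ⊆ r' ∧ q ⊆ r' :=
  ⟨rs γ r, PB_rs hr γ, fun l hl => ⟨h1 hl, (PB_iff.1 hp).2 l hl⟩,
    fun l hl => ⟨h2 hl, (PB_iff.1 hq).2 l hl⟩⟩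

/-- names at stage `γ` from families of conditions -/
theorem mkName (hg : Good W h) {γ : W} (E : ℕ → ℕ → Set (Cond W))
    (hE1 : ∀ n v, ∀ u ∈ E n v, PB c h γ u)
    (hE2 : ∀ n v u u', u ∈ E n v → PB c h γ u' → u ⊆ u' → u' ∈ E n v)
    (hE3 : ∀ n v v' u, u ∈ E n v → u ∈ E n v' → v = v')
    (hE4 : ∀ n q, PB c h γ q → ∃ u v, q ⊆ u ∧ v < c n ∧ u ∈ E n v) :
    ∃ x, NameAt c (PB c h γ) x ∧ ∀ n v, cnd x n v ⊆ E n v := by
  have h1 : ∀ n, ∃ M ⊆ {u | ∃ v < c n, u ∈ E n v}, M.Countable ∧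
      ∀ u ∈ {u | ∃ v < c n, u ∈ E n v}, ∃ r ∈ M, ∃ w, PB c h γ w ∧ u ⊆ w ∧ r ⊆ w := fun n =>
    exists_antichain (c := c) hg _ (fun p hp => (PB_iff.1 hp).1)
      (fun p q r hp hq hr h1 h2 => comp_PB hp hq hr h1 h2) _ (by
        rintro u ⟨v, _, hu⟩
        exact hE1 n v u hu)
  choose M hM1 hM2 hM3 using h1
  obtain ⟨x, hx⟩ := exists_name (fun n v => M n ∩ E n v)
    (fun n v => (hM2 n).mono Set.inter_subset_left) (fun n v r hr => (hE1 n v r hr.2).1)
  refine ⟨x, ⟨fun n q hq => ?_, fun n q v v' hq hd hd' => ?_⟩, fun n v => ?_⟩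
  · obtain ⟨u, v, hqu, hv, hu⟩ := hE4 n q hq
    obtain ⟨r, hr, w, hw, h1, h2⟩ := hM3 n u ⟨v, hv, hu⟩
    obtain ⟨v', hv', hr'⟩ := hM1 n hr
    refine ⟨w, hw, hqu.trans h1, v', hv', r, ?_, h2⟩
    rw [hx]
    exact ⟨hr, hr'⟩
  · obtain ⟨r, hr, hrq⟩ := hd
    obtain ⟨r', hr', hrq'⟩ := hd'
    rw [hx] at hr hr'
    exact hE3 n v v' q (hE2 n v r q hr.2 hq hrq) (hE2 n v' r' q hr'.2 hq hrq')
  · rw [hx]
    exact Set.inter_subset_right

/-- names from families of arbitrary valid conditions, at some stage -/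
theorem mkName' [Nonempty W] (hg : Good W h) (hbd : ∀ f : ℕ → W, ∃ b, ∀ n, f n < b)
    (E : ℕ → ℕ → Set (Cond W))
    (hE1 : ∀ n v, ∀ u ∈ E n v, V c h u)
    (hE2 : ∀ n v u u', u ∈ E n v → V c h u' → u ⊆ u' → u' ∈ E n v)
    (hE3 : ∀ n v v' u, u ∈ E n v → u ∈ E n v' → v = v')
    (hE4 : ∀ n q, V c h q → ∃ u v, q ⊆ u ∧ v < c n ∧ u ∈ E n v) :
    ∃ (γ : W) (x : Nm W), NameAt c (PB c h γ) x ∧ ∀ n v, cnd x n v ⊆ E n v := by
  classical
  have h1 : ∀ n, ∃ M ⊆ {u | ∃ v < c n, u ∈ E n v}, M.Countable ∧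
      ∀ u ∈ {u | ∃ v < c n, u ∈ E n v}, ∃ r ∈ M, ∃ w, V c h w ∧ u ⊆ w ∧ r ⊆ w := fun n =>
    exists_antichain (c := c) hg _ (fun p hp => hp)
      (fun p q r hp hq hr h1 h2 => ⟨r, hr, h1, h2⟩) _ (by
        rintro u ⟨v, _, hu⟩
        exact hE1 n v u hu)
  choose M hM1 hM2 hM3 using h1
  obtain ⟨x, hx⟩ := exists_name (fun n v => M n ∩ E n v)
    (fun n v => (hM2 n).mono Set.inter_subset_left) (fun n v r hr => (hE1 n v r hr.2).1)
  -- a bound for the stages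
  have hS : (⋃ n, ⋃ r ∈ M n, Prod.fst '' r).Countable := by
    refine Set.countable_iUnion fun n => (hM2 n).biUnion fun r hr => ?_
    obtain ⟨v, _, hr'⟩ := hM1 n hr
    exact ((hE1 n v r hr').1.image _).countable
  obtain ⟨γ, hγ⟩ : ∃ γ, ∀ n, ∀ r ∈ M n, ∀ l ∈ r, l.1 < γ := by
    rcases Set.eq_empty_or_nonempty (⋃ n, ⋃ r ∈ M n, Prod.fst '' r) with he | hne
    · refine ⟨Classical.arbitrary W, fun n r hr l hl => ?_⟩
      have : l.1 ∈ (⋃ n, ⋃ r ∈ M n, Prod.fst '' r) :=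
        Set.mem_iUnion.2 ⟨n, Set.mem_biUnion hr ⟨l, hl, rfl⟩⟩
      rw [he] at this
      exact absurd this id
    · obtain ⟨f, hf⟩ := hS.exists_eq_range hne
      obtain ⟨b, hb⟩ := hbd f
      refine ⟨b, fun n r hr l hl => ?_⟩
      have : l.1 ∈ (⋃ n, ⋃ r ∈ M n, Prod.fst '' r) :=
        Set.mem_iUnion.2 ⟨n, Set.mem_biUnion hr ⟨l, hl, rfl⟩⟩
      rw [hf] at this
      obtain ⟨k, hk⟩ := this
      rw [← hk]
      exact hb k
  refine ⟨γ, x, ⟨fun n q hq => ?_, fun n q v v' hq hd hd' => ?_⟩, fun n v => ?_⟩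
  · have hq' := PB_iff.1 hq
    obtain ⟨u, v, hqu, hv, hu⟩ := hE4 n q hq'.1
    obtain ⟨r, hr, w, hw, h1, h2⟩ := hM3 n u ⟨v, hv, hu⟩
    obtain ⟨v', hv', hr'⟩ := hM1 n hr
    refine ⟨rs γ w, PB_rs hw γ, fun l hl => ⟨h1 (hqu hl), hq'.2 l hl⟩, v', hv', r, ?_,
      fun l hl => ⟨h2 hl, hγ n r hr l hl⟩⟩
    rw [hx]
    exact ⟨hr, hr'⟩
  · obtain ⟨r, hr, hrq⟩ := hd
    obtain ⟨r', hr', hrq'⟩ := hd'
    rw [hx] at hr hr'
    have hq' := (PB_iff.1 hq).1
    exact hE3 n v v' q (hE2 n v r q hr.2 hq' hrq) (hE2 n v' r' q hr'.2 hq' hrq')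
  · rw [hx]
    exact Set.inter_subset_right

end Pool.Agent.H82.LI
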