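import Pool.Agent.H82.LIC

/-!
# Names for limits along an ultrafilter
-/

set_option autoImplicit false
set_option linter.unusedSectionVars false

namespace Pool.Agent.H82.LI

variable {W : Type} [LinearOrder W] [WellFoundedLT W] {c h : ℕ → ℕ}

theorem NameAt.lt {Pv : Cond W → Prop} {x : Nm W} (hx : NameAt c Pv x) {n v : ℕ} {q : Cond W}
    (hq : Pv q) (hd : Dec q x n v) : v < c n := by
  obtain ⟨q', hq', hsub, v', hv', hd'⟩ := hx.tot n q hq
  rw [hx.uniq n q' v v' hq' (hd.mono hsub) hd']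
  exact hv'

theorem extPB1 {γ : W} {u : Cond W} (hu : PB c h γ u) {F : Set (Nm W)} (hF : F.Finite)
    (hx : ∀ x ∈ F, NameAt c (PB c h γ) x) (n : ℕ) :
    ∃ u', PB c h γ u' ∧ u ⊆ u' ∧ ∀ x ∈ F, ∃ v < c n, Dec u' x n v := by
  have hu' := PB_iff.1 hu
  obtain ⟨p', h1, h2, h3, h4⟩ := ext_dec hu'.1 hF hx n
  refine ⟨p', PB_iff.2 ⟨h1, fun l hl => (h3 l hl).elim (hu'.2 l) id⟩, h2, fun x hx' => ?_⟩
  obtain ⟨v, hv, hd⟩ := h4 x hx'
  exact ⟨v, hv, hd.mono rs_subset⟩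

theorem extPB {γ : W} {u : Cond W} (hu : PB c h γ u) {F : Set (Nm W)} (hF : F.Finite)
    (hx : ∀ x ∈ F, NameAt c (PB c h γ) x) (N : ℕ) :
    ∃ u', PB c h γ u' ∧ u ⊆ u' ∧ ∀ x ∈ F, ∀ n < N, ∃ v < c n, Dec u' x n v := by
  induction N with
  | zero => exact ⟨u, hu, subset_rfl, fun x _ n hn => absurd hn (Nat.not_lt_zero _)⟩
  | succ N ih =>
    obtain ⟨u1, h1, h2, h3⟩ := ih
    obtain ⟨u2, h4, h5, h6⟩ := extPB1 h1 hF hx N
    refine ⟨u2, h4, h2.trans h5, fun x hx' n hn => ?_⟩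
    rcases Nat.lt_succ_iff_lt_or_eq.1 hn with hn | rfl
    · obtain ⟨v, hv, hd⟩ := h3 x hx' n hn
      exact ⟨v, hv, hd.mono h5⟩
    · exact h6 x hx'

section limit

variable (c h) (U : Ultrafilter ℕ) (γ : W) (r : ℕ → Cond W) {k : ℕ} (y : ℕ → Fin k → Nm W)

/-- `u''` decides the first `N` values of the functions named by `y j` as given by `σ` -/
def DecTo (u : Cond W) (j N : ℕ) (σ : ℕ → Fin k → ℕ) : Prop :=
  ∀ i, ∀ n < N, Dec u (y j i) n (σ n i)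

/-- `u` forces that the set of all `j` such that `r j` is in the generic filter and `y j` starts
with `σ` is positive -/
def Pos (u : Cond W) (N : ℕ) (σ : ℕ → Fin k → ℕ) : Prop :=
  ∀ u', PB c h γ u' → u ⊆ u' → ∀ X ∈ U, ∃ j ∈ X, ∃ u'', PB c h γ u'' ∧ u' ⊆ u'' ∧ r j ⊆ u'' ∧
    DecTo y u'' j N σ

variable {c h U γ r y}

theorem Pos.mono {u v : Cond W} {N : ℕ} {σ : ℕ → Fin k → ℕ} (hp : Pos c h U γ r y u N σ)
    (huv : u ⊆ v) : Pos c h U γ r y v N σ := fun u' hu' hv => hp u' hu' (huv.trans hv)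

theorem Pos.of_agree {u : Cond W} {N M : ℕ} {σ τ : ℕ → Fin k → ℕ} (hp : Pos c h U γ r y u N σ)
    (hMN : M ≤ N) (hst : ∀ n < M, τ n = σ n) : Pos c h U γ r y u M τ := by
  intro u' hu' huu' X hX
  obtain ⟨j, hj, u'', h1, h2, h3, h4⟩ := hp u' hu' huu' X hX
  refine ⟨j, hj, u'', h1, h2, h3, fun i n hn => ?_⟩
  rw [hst n hn]
  exact h4 i n (hn.trans_le hMN)

/-- the finite set of possible values -/
theorem finite_vals (n : ℕ) : {w : Fin k → ℕ | ∀ i, w i < c n}.Finite := by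
  have : {w : Fin k → ℕ | ∀ i, w i < c n} = Set.pi Set.univ fun _ => Set.Iio (c n) := by
    ext w
    simp
  rw [this]
  exact Set.Finite.pi fun _ => Set.finite_Iio _

theorem Pos.succ {J : Set ℕ} (hJ : J ∈ U) (hy : ∀ j ∈ J, ∀ i, NameAt c (PB c h γ) (y j i))
    {u : Cond W} (hu : PB c h γ u) {N : ℕ} {σ : ℕ → Fin k → ℕ} (hp : Pos c h U γ r y u N σ) :
    ∃ u' w, PB c h γ u' ∧ u ⊆ u' ∧ Pos c h U γ r y u' (N + 1) (Function.update σ N w) := by
  by_contra hcon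
  push Not at hcon
  -- kill the possible values, one after the other
  have key : ∀ S : Set (Fin k → ℕ), S.Finite → ∃ u', PB c h γ u' ∧ u ⊆ u' ∧ ∃ X ∈ U,
      ∀ w ∈ S, ∀ j ∈ X, ∀ u'', PB c h γ u'' → u' ⊆ u'' → r j ⊆ u'' →
        ¬ DecTo y u'' j (N + 1) (Function.update σ N w) := by
    intro S hS
    induction S, hS using Set.Finite.induction_on with
    | empty => exact ⟨u, hu, subset_rfl, Set.univ, Filter.univ_mem, fun w hw => absurd hw id⟩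
    | @insert a s _ _ ih =>
      obtain ⟨u1, h1, h2, X1, hX1, h3⟩ := ih
      have h4 := hcon u1 a h1 h2
      unfold Pos at h4
      push Not at h4
      obtain ⟨u2, h5, h6, X2, hX2, h7⟩ := h4
      refine ⟨u2, h5, h2.trans h6, X1 ∩ X2, Filter.inter_mem hX1 hX2, ?_⟩
      rintro w (rfl | hw) j hj u'' h8 h9 h10
      · exact h7 j hj.2 u'' h8 h9 h10
      · exact h3 w hw j hj.1 u'' h8 (h6.trans h9) h10
  obtain ⟨u1, h1, h2, X, hX, h3⟩ := key _ (finite_vals (c := c) (k := k) N)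
  obtain ⟨j, hj, u2, h4, h5, h6, h7⟩ := hp u1 h1 h2 (X ∩ J) (Filter.inter_mem hX hJ)
  obtain ⟨u3, h8, h9, h10⟩ := extPB1 h4 (F := Set.range (y j)) (Set.finite_range _) (by
    rintro _ ⟨i, rfl⟩
    exact hy j hj.2 i) N
  choose w hw hd using fun i => h10 (y j i) ⟨i, rfl⟩
  refine h3 w hw j hj.1 u3 h8 (h5.trans h9) (h6.trans h9) fun i n hn => ?_
  rcases Nat.lt_succ_iff_lt_or_eq.1 hn with hn | rfl
  · rw [Function.update_of_ne hn.ne]
    exact (h7 i n hn).mono h9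
  · rw [Function.update_self]
    exact hd i

variable (c h U γ r y)

/-- `u` forces that `σ` is the leftmost branch, up to `N` -/
structure Lft (u : Cond W) (N : ℕ) (σ : ℕ → Fin k → ℕ) : Prop where
  pos : Pos c h U γ r y u N σ
  left : ∀ M < N, ∀ w, Encodable.encode w < Encodable.encode (σ M) →
    ∀ u', PB c h γ u' → u ⊆ u' → ¬ Pos c h U γ r y u' (M + 1) (Function.update σ M w)

variable {c h U γ r y}

theorem Lft.mono {u v : Cond W} {N : ℕ} {σ : ℕ → Fin k → ℕ} (hl : Lft c h U γ r y u N σ)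
    (huv : u ⊆ v) : Lft c h U γ r y v N σ :=
  ⟨hl.pos.mono huv, fun M hM w hw u' hu' hvu => hl.left M hM w hw u' hu' (huv.trans hvu)⟩

theorem Lft.unique {u : Cond W} (hu : PB c h γ u) {N N' : ℕ} {σ τ : ℕ → Fin k → ℕ}
    (h1 : Lft c h U γ r y u N σ) (h2 : Lft c h U γ r y u N' τ) :
    ∀ M, M < N → M < N' → σ M = τ M := by
  intro M
  induction M using Nat.strong_induction_on with
  | _ M ih =>
    intro hM hM'
    have hag : ∀ n < M, σ n = τ n := fun n hn => ih n hn (hn.trans hM) (hn.trans hM')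
    rcases lt_trichotomy (Encodable.encode (σ M)) (Encodable.encode (τ M)) with hlt | heq | hlt
    · exfalso
      refine h2.left M hM' (σ M) hlt u hu subset_rfl (h1.pos.of_agree hM fun n hn => ?_)
      rcases Nat.lt_succ_iff_lt_or_eq.1 hn with hn | rfl
      · rw [Function.update_of_ne hn.ne]
        exact (hag n hn).symm
      · rw [Function.update_self]
    · exact Encodable.encode_injective heq
    · exfalso
      refine h1.left M hM (τ M) hlt u hu subset_rfl (h2.pos.of_agree hM' fun n hn => ?_)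
      rcases Nat.lt_succ_iff_lt_or_eq.1 hn with hn | rfl
      · rw [Function.update_of_ne hn.ne]
        exact hag n hn
      · rw [Function.update_self]

theorem exists_lft {J : Set ℕ} (hJ : J ∈ U) (hy : ∀ j ∈ J, ∀ i, NameAt c (PB c h γ) (y j i))
    {q0 : Cond W}
    (hq0 : ∀ q', PB c h γ q' → q0 ⊆ q' → ∀ X ∈ U, ∃ j ∈ X, ∃ q'', PB c h γ q'' ∧ q' ⊆ q'' ∧
      r j ⊆ q'')
    {u : Cond W} (hu : PB c h γ u) (huq : q0 ⊆ u) (N : ℕ) :
    ∃ u' σ, PB c h γ u' ∧ u ⊆ u' ∧ Lft c h U γ r y u' N σ := by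
  classical
  induction N with
  | zero =>
    refine ⟨u, fun _ _ => 0, hu, subset_rfl, ⟨fun u' hu' huu X hX => ?_,
      fun M hM => absurd hM (Nat.not_lt_zero _)⟩⟩
    obtain ⟨j, hj, q'', h1, h2, h3⟩ := hq0 u' hu' (huq.trans huu) X hX
    exact ⟨j, hj, q'', h1, h2, h3, fun i n hn => absurd hn (Nat.not_lt_zero _)⟩
  | succ N ih =>
    obtain ⟨u1, σ, h1, h2, h3⟩ := ih
    have hex : ∃ e, ∃ w u', Encodable.encode w = e ∧ PB c h γ u' ∧ u1 ⊆ u' ∧
        Pos c h U γ r y u' (N + 1) (Function.update σ N w) := by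
      obtain ⟨u', w, h4, h5, h6⟩ := Pos.succ hJ hy h1 h3.pos
      exact ⟨_, w, u', rfl, h4, h5, h6⟩
    obtain ⟨w, u2, he, h4, h5, h6⟩ := Nat.find_spec hex
    have hmin : ∀ w' u', PB c h γ u' → u1 ⊆ u' → Encodable.encode w' < Encodable.encode w →
        ¬ Pos c h U γ r y u' (N + 1) (Function.update σ N w') := by
      intro w' u' h7 h8 h9 h10
      rw [he] at h9
      exact Nat.find_min hex h9 ⟨w', u', rfl, h7, h8, h10⟩
    refine ⟨u2, Function.update σ N w, h4, h2.trans h5, ⟨h6, fun M hM w' hw' u' hu' huu => ?_⟩⟩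
    rcases Nat.lt_succ_iff_lt_or_eq.1 hM with hM | rfl
    · rw [Function.update_of_ne hM.ne] at hw'
      intro hpos
      refine h3.left M hM w' hw' u' hu' (h5.trans huu) (hpos.of_agree le_rfl fun n hn => ?_)
      rcases Nat.lt_succ_iff_lt_or_eq.1 hn with hn | rfl
      · rw [Function.update_of_ne hn.ne, Function.update_of_ne hn.ne,
          Function.update_of_ne (hn.trans hM).ne]
      · rw [Function.update_self, Function.update_self]
    · rw [Function.update_self] at hw'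
      rw [Function.update_idem]
      exact hmin w' u' hu' (h5.trans huu) hw'

/-- names for the limit -/
theorem exists_limit (hg : Good W h) (hc : ∀ n, 0 < c n) {J : Set ℕ} (hJ : J ∈ U)
    (hy : ∀ j ∈ J, ∀ i, NameAt c (PB c h γ) (y j i)) {q0 : Cond W}
    (hq0 : ∀ q', PB c h γ q' → q0 ⊆ q' → ∀ X ∈ U, ∃ j ∈ X, ∃ q'', PB c h γ q'' ∧ q' ⊆ q'' ∧
      r j ⊆ q'') :
    ∃ z : Fin k → Nm W, (∀ i, NameAt c (PB c h γ) (z i)) ∧
      ∀ q', PB c h γ q' → q0 ⊆ q' → ∀ N, ∀ X ∈ U, ∃ j ∈ X, ∃ q'', PB c h γ q'' ∧ q' ⊆ q'' ∧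
        r j ⊆ q'' ∧ ∀ i, ∀ n < N, ∃ v, Dec q'' (z i) n v ∧ Dec q'' (y j i) n v := by
  classical
  have hz : ∀ i : Fin k, ∃ x, NameAt c (PB c h γ) x ∧ ∀ n v, cnd x n v ⊆
      {u | PB c h γ u ∧ ((q0 ⊆ u ∧ ∃ N σ, n < N ∧ Lft c h U γ r y u N σ ∧ σ n i = v) ∨
        (v = 0 ∧ ∀ u', PB c h γ u' → u ⊆ u' → ¬ q0 ⊆ u'))} := by
    intro i
    refine mkName hg _ (fun n v u hu => hu.1) ?_ ?_ ?_
    · rintro n v u u' ⟨_, ⟨h2, N, σ, h3, h4, h5⟩ | ⟨h2, h3⟩⟩ hu' huu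
      · exact ⟨hu', Or.inl ⟨h2.trans huu, N, σ, h3, h4.mono huu, h5⟩⟩
      · exact ⟨hu', Or.inr ⟨h2, fun u'' hu'' huu' => h3 u'' hu'' (huu.trans huu')⟩⟩
    · rintro n v v' u ⟨h1, ⟨h2, N, σ, h3, h4, h5⟩ | ⟨h2, h3⟩⟩
        ⟨_, ⟨h2', N', σ', h3', h4', h5'⟩ | ⟨h2', h3'⟩⟩
      · rw [← h5, ← h5', Lft.unique h1 h4 h4' n h3 h3']
      · exact absurd h2 (h3' u h1 subset_rfl)
      · exact absurd h2' (h3 u h1 subset_rfl)
      · rw [h2, h2']
    · intro n q hq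
      by_cases hcomp : ∃ u', PB c h γ u' ∧ q ⊆ u' ∧ q0 ⊆ u'
      · obtain ⟨u', h1, h2, h3⟩ := hcomp
        obtain ⟨u2, σ, h4, h5, h6⟩ := exists_lft hJ hy hq0 h1 h3 (n + 1)
        refine ⟨u2, σ n i, h2.trans h5, ?_, h4, Or.inl ⟨h3.trans h5, n + 1, σ, Nat.lt_succ_self _,
          h6, rfl⟩⟩
        obtain ⟨j, hj, u3, h7, h8, h9, h10⟩ := h6.pos u2 h4 subset_rfl J hJ
        exact (hy j hj i).lt h7 (h10 i n (Nat.lt_succ_self _))
      · push Not at hcomp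
        exact ⟨q, 0, subset_rfl, hc n, hq, Or.inr ⟨rfl, hcomp⟩⟩
  choose z hz1 hz2 using hz
  refine ⟨z, hz1, fun q' hq' hqq N X hX => ?_⟩
  obtain ⟨u1, σ, h1, h2, h3⟩ := exists_lft hJ hy hq0 hq' hqq N
  obtain ⟨u2, h4, h5, h6⟩ := extPB h1 (F := Set.range z) (Set.finite_range _) (by
    rintro _ ⟨i, rfl⟩
    exact hz1 i) N
  obtain ⟨j, hj, u3, h7, h8, h9, h10⟩ := h3.pos u2 h4 h5 X hX
  refine ⟨j, hj, u3, h7, h2.trans (h5.trans h8), h9, fun i n hn => ?_⟩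
  obtain ⟨v, _, hd⟩ := h6 (z i) ⟨i, rfl⟩ n hn
  refine ⟨σ n i, ?_, h10 i n hn⟩
  have hv : v = σ n i := by
    obtain ⟨s, hs, hsu⟩ := hd
    obtain ⟨h11, ⟨h12, N', σ', h13, h14, h15⟩ | ⟨_, h12⟩⟩ := hz2 i n v hs
    · rw [← h15]
      exact congrFun (Lft.unique h4 (h14.mono hsu) (h3.mono h5) n h13 hn) i
    · exact absurd ((hqq.trans h2).trans h5) (h12 u2 h4 hsu)
  rw [← hv]
  exact hd.mono h8

end limit

end Pool.Agent.H82.LI
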