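import Pool.Graph.R_seed8.Helper669.Forcing

/-!
# The sentence `Ψ`

`PsiFor c h K` says that there is a family of slaloms `S w`, indexed by `K`, with `|S w n| ≤ h n`,
which captures every element of `∏ c`, and that no family of functions from `ω` to `ω`, indexed by
`K`, is dominating. `PsiHolds c h P K` is the translation of this statement into the forcing
language of `P`.
-/

set_option autoImplicit false

namespace Pool.Agent.H82.LI

open Pool.Agent.Helper669.Forcing

universe u

section Forcing

variable (c h : ℕ → ℕ) (P : Type u) [Preorder P]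

/-- There is a family of slaloms, indexed by `K` and bounded by `h`, which captures all elements of
`∏ c`. -/
def LocalizedHolds (K : Type) : Set P :=
  fex fun S : K → ℕ → Finset ℕ → Set P =>
    fand (fall fun w => IsFun (S w))
      (fand (fall fun w => fall fun n => fall fun A : Finset ℕ =>
          fimp (meets (S w n A)) (fground (A.card ≤ h n)))
        (fall fun x : ℕ → ℕ → Set P => fimp (IsFun x)
          (fimp (fall fun n => fall fun v => fimp (meets (x n v)) (fground (v < c n)))
            (fex fun w => fex fun m : ℕ => fall fun n => fimp (fground (m ≤ n))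
              (fall fun v => fall fun A => fimp (fand (meets (x n v)) (meets (S w n A)))
                (fground (v ∈ A)))))))

/-- No family of functions from `ω` to `ω`, indexed by `K`, is dominating. -/
def UndominatedHolds (K : Type) : Set P :=
  fall fun f : K → ℕ → ℕ → Set P => fimp (fall fun w => IsFun (f w))
    (fex fun g : ℕ → ℕ → Set P => fand (IsFun g)
      (fall fun w => fall fun N : ℕ => fex fun n => fand (fground (N ≤ n))
        (fex fun a => fex fun b : ℕ => fand (fground (a < b))
          (fand (meets (f w n a)) (meets (g n b))))))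

/-- The sentence `PsiFor c h K`, in the forcing language. -/
def PsiHolds (K : Type) : Set P := fand (LocalizedHolds c h P K) (UndominatedHolds P K)

end Forcing

/-- There is a family of slaloms, indexed by `K` and bounded by `h`, which captures all elements of
`∏ c`; and no family of functions from `ω` to `ω`, indexed by `K`, is dominating. -/
def PsiFor (c h : ℕ → ℕ) (K : Type) : Prop :=
  (∃ S : K → ℕ → Finset ℕ, (∀ w n A, S w n = A → A.card ≤ h n) ∧
    ∀ x : ℕ → ℕ, (∀ n v, x n = v → v < c n) →
      ∃ w, ∃ m : ℕ, ∀ n, m ≤ n → ∀ v A, (x n = v ∧ S w n = A) → v ∈ A) ∧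
  ∀ f : K → ℕ → ℕ, ∃ g : ℕ → ℕ, ∀ w, ∀ N : ℕ, ∃ n, N ≤ n ∧
    ∃ a, ∃ b, a < b ∧ (f w n = a ∧ g n = b)

/-- the bounds for the slaloms -/
def hh (n : ℕ) : ℕ := n + 1

/-- the bounds for the functions to be captured -/
def ccb (n : ℕ) : ℕ := (2 ^ (n + 1) + 1) ^ ((2 ^ (n + 1) + 1) ^ (n + 1) + 1)

end Pool.Agent.H82.LI
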