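import Pool.Agent.H82.LID

/-!
# Limits of sequences of conditions of the same type
-/

set_option autoImplicit false
set_option linter.unusedSectionVars false

namespace Pool.Agent.H82.LI

variable {W : Type} [LinearOrder W] [WellFoundedLT W] {c h : ℕ → ℕ}

theorem mem_supp_of {p : Cond W} (hp : p.Finite) {l : Lit W} (hl : l ∈ p) : l.1 ∈ supp p :=
  (mem_supp hp).2 ⟨l.2, hl⟩

section lim

variable (U : Ultrafilter ℕ) (p : ℕ → Cond W)

/-- the root -/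
def Root : Set W := {γ | {j | γ ∈ supp (p j)} ∈ U}

variable {U p}

theorem root_finite (K : ℕ) (hK : ∀ j, (supp (p j)).card ≤ K) : (Root U p).Finite := by
  classical
  by_contra hinf
  obtain ⟨s, hs, hcard⟩ := Set.Infinite.exists_subset_card_eq hinf (K + 1)
  have h1 : (⋂ γ ∈ s, {j | γ ∈ supp (p j)}) ∈ U :=
    (Filter.biInter_finset_mem s).2 fun γ hγ => hs hγ
  obtain ⟨j, hj⟩ := Ultrafilter.nonempty_of_mem h1
  have h2 : s ⊆ supp (p j) := by
    intro γ hγ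
    have := Set.mem_iInter₂.1 hj γ hγ
    exact this
  have h3 := Finset.card_le_card h2
  have h4 := hK j
  omega

theorem avoid_mem {T : Set W} (hT : T.Finite) (hTR : ∀ γ ∈ T, γ ∉ Root U p) :
    {j | ∀ γ ∈ T, γ ∉ supp (p j)} ∈ U := by
  have h1 : (⋂ γ ∈ T, {j | γ ∈ supp (p j)}ᶜ) ∈ U :=
    (Filter.biInter_mem hT).2 fun γ hγ => Ultrafilter.compl_mem_iff_notMem.2 (hTR γ hγ)
  refine Filter.mem_of_superset h1 fun j hj γ hγ => ?_
  have := Set.mem_iInter₂.1 hj γ hγ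
  exact this

/-- union of conditions which have no common stages above `γ` -/
theorem OK_union_of {q1 q2 q3 : Cond W} {δ : W} (h1 : ∀ a, (δ, a) ∉ q1)
    (h2 : OK c h δ q2) (h3 : OK c h δ q3) (h23 : ¬ ((∃ a, (δ, a) ∈ q2) ∧ ∃ a, (δ, a) ∈ q3)) :
    OK c h δ (q1 ∪ (q2 ∪ q3)) := by
  by_cases h4 : ∃ a, (δ, a) ∈ q3
  · refine OK_mono (p := q3)
      (rs_mono (Set.subset_union_right.trans Set.subset_union_right)) (fun a => ⟨fun ha =>
        Or.inr (Or.inr ha), ?_⟩) h3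
    rintro (ha | ha | ha)
    · exact absurd ha (h1 a)
    · exact absurd ⟨⟨a, ha⟩, h4⟩ h23
    · exact ha
  · refine OK_mono (p := q2)
      (rs_mono (Set.subset_union_left.trans Set.subset_union_right)) (fun a => ⟨fun ha =>
        Or.inr (Or.inl ha), ?_⟩) h2
    rintro (ha | ha | ha)
    · exact absurd ha (h1 a)
    · exact ha
    · exact absurd ⟨a, ha⟩ h4

/-- the property of `q` with respect to the sequence -/
def Lim (c h : ℕ → ℕ) (U : Ultrafilter ℕ) (p : ℕ → Cond W) (β : W) (q : Cond W) : Prop :=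
  ∀ q', PB c h β q' → q ⊆ q' → ∀ X ∈ U, ∃ j ∈ X, ∃ q'', PB c h β q'' ∧ q' ⊆ q'' ∧ rs β (p j) ⊆ q''

theorem lim_zero (hp : ∀ j, V c h (p j)) {β : W} (hβ : ∀ γ < β, γ ∉ Root U p) :
    Lim c h U p β ∅ := by
  intro q' hq' _ X hX
  have hq := PB_iff.1 hq'
  have h1 : {j | ∀ γ ∈ (supp q' : Set W) ∩ Set.Iio β, γ ∉ supp (p j)} ∈ U :=
    avoid_mem ((supp q').finite_toSet.subset Set.inter_subset_left) fun γ hγ => hβ γ hγ.2
  obtain ⟨j, hj1, hj2⟩ := Ultrafilter.nonempty_of_mem (Filter.inter_mem hX h1)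
  refine ⟨j, hj1, ∅ ∪ (q' ∪ rs β (p j)), ?_, fun l hl => Or.inr (Or.inl hl),
    fun l hl => Or.inr (Or.inr hl)⟩
  rw [PB_iff]
  refine ⟨⟨Set.finite_empty.union (hq.1.1.union (V_rs (hp j) β).1), fun δ => ?_⟩, ?_⟩
  · refine OK_union_of (fun a ha => ha) (hq.1.2 δ) ((V_rs (hp j) β).2 δ) ?_
    rintro ⟨⟨a, ha⟩, ⟨b, hb⟩⟩
    exact hj2 δ ⟨mem_supp_of hq.1.1 ha, hb.2⟩ (mem_supp_of (hp j).1 hb.1)
  · rintro l (hl | hl | hl)
    · exact absurd hl id
    · exact hq.2 l hl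
    · exact hl.2

theorem exists_listing {cd : W → ℕ → Bool} (hcd : Function.Injective cd)
    (hp : ∀ j, (p j).Finite) (hty : ∀ i j, ty cd (p i) = ty cd (p j)) {γ : W} {j0 : ℕ}
    (hj0 : γ ∈ supp (p j0)) :
    ∃ (k : ℕ) (t : Fin k → ℕ) (y : ℕ → Fin k → Nm W), ∀ j, γ ∈ supp (p j) →
      pr (p j) γ = Set.range (fun i => (y j i, t i)) ∧ (pr (p j) γ).ncard = k ∧
        ∀ n A, Fact (p j) γ n A ↔ Fact (p j0) γ n A := by
  have hloc : ∀ j, γ ∈ supp (p j) → loc (p j) γ = loc (p j0) γ := fun j hj =>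
    loc_eq hcd (hty j j0) hj hj0
  refine ⟨((enum (p j0) γ).map Prod.snd).length, fun i => ((enum (p j0) γ).map Prod.snd)[i],
    fun j i => ((enum (p j) γ).getD i (dummy, 0)).1, fun j hj => ?_⟩
  have h1 := hloc j hj
  unfold loc at h1
  rw [Prod.mk.injEq] at h1
  have hlen : (enum (p j) γ).length = ((enum (p j0) γ).map Prod.snd).length := by
    rw [← h1.2, List.length_map]
  have hget : ∀ (i : ℕ) (hi : i < (enum (p j) γ).length)
      (hi' : i < ((enum (p j0) γ).map Prod.snd).length),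
      (((enum (p j) γ).getD i (dummy, 0)).1, ((enum (p j0) γ).map Prod.snd)[i]) =
        (enum (p j) γ)[i] := by
    intro i hi hi'
    refine Prod.ext ?_ ?_
    · simp only [List.getD_eq_getElem _ _ hi]
    · simp only [← h1.2, List.getElem_map]
  refine ⟨?_, ?_, ?_⟩
  · ext yy
    rw [← mem_enum (hp j), List.mem_iff_getElem]
    constructor
    · rintro ⟨i, hi, rfl⟩
      exact ⟨⟨i, hlen ▸ hi⟩, hget i hi _⟩
    · rintro ⟨i, rfl⟩
      have hi : (i : ℕ) < (enum (p j) γ).length := by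
        rw [hlen]
        exact i.2
      exact ⟨i, hi, (hget i hi i.2).symm⟩
  · rw [← length_enum (hp j), hlen]
  · intro n A
    have h4 := mem_facts (hp j) (γ := γ) (y := (n, A))
    have h5 := mem_facts (hp j0) (γ := γ) (y := (n, A))
    rw [h1.1] at h4
    exact h4.symm.trans h5

theorem V_add {γ : W} {q1 G : Cond W} (h1 : PB c h γ q1) (hG : G.Finite)
    (hGγ : ∀ l ∈ G, l.1 = γ) (hb : Body c h γ (PB c h γ) (q1 ∪ G)) : V c h (q1 ∪ G) := by
  have h1' := PB_iff.1 h1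
  refine ⟨h1'.1.1.union hG, fun δ => ?_⟩
  rcases lt_trichotomy δ γ with hδ | rfl | hδ
  · refine OK_mono (p := q1) (rs_mono Set.subset_union_left) (fun a => ⟨fun ha => Or.inl ha, ?_⟩)
      (h1'.1.2 δ)
    rintro (ha | ha)
    · exact ha
    · exact absurd (hGγ _ ha) hδ.ne
  · exact OK_iff.2 hb
  · refine OK_of_empty ?_
    rintro a (ha | ha)
    · exact absurd (h1'.2 _ ha) (not_lt.2 hδ.le)
    · exact absurd (hGγ _ ha) hδ.ne'

theorem lim_step {cd : W → ℕ → Bool} (hg : Good W h) (hc : ∀ n, 0 < c n)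
    (hcd : Function.Injective cd) (hp : ∀ j, V c h (p j))
    (hty : ∀ i j, ty cd (p i) = ty cd (p j)) {β γ : W} (hγβ : γ < β) (hγ : γ ∈ Root U p)
    (hmax : ∀ δ, γ < δ → δ < β → δ ∉ Root U p) {q0 : Cond W} (hq0 : PB c h γ q0)
    (hl : Lim c h U p γ q0) : ∃ q, PB c h β q ∧ Lim c h U p β q := by
  classical
  have hJ : {j | γ ∈ supp (p j)} ∈ U := hγ
  obtain ⟨j0, hj0⟩ := Ultrafilter.nonempty_of_mem hJ
  obtain ⟨k, t, y, hk⟩ := exists_listing hcd (fun j => (hp j).1) hty hj0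
  have hy : ∀ j ∈ {j | γ ∈ supp (p j)}, ∀ i, NameAt c (PB c h γ) (y j i) := by
    intro j hj i
    refine (OK_iff.1 ((hp j).2 γ)).nm (y j i, t i) ?_
    rw [(hk j hj).1]
    exact ⟨i, rfl⟩
  obtain ⟨z, hz1, hz2⟩ := exists_limit (r := fun j => rs γ (p j)) hg hc hJ hy hl
  obtain ⟨m0, hm0, hm0'⟩ := (OK_iff.1 ((hp j0).2 γ)).len
  obtain ⟨j1, hj1, q1, h1, h2, h3, h4⟩ := hz2 q0 hq0 subset_rfl m0 _ hJ
  have h1' := PB_iff.1 h1
  have hb1 := OK_iff.1 ((hp j1).2 γ)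
  have hfe : ∀ j, γ ∈ supp (p j) → ∀ n A, Fact (p j) γ n A ↔ Fact (p j0) γ n A := fun j hj =>
    (hk j hj).2.2
  -- the condition
  let G : Cond W := {l | (∃ n A, Fact (p j0) γ n A ∧ l = (γ, Sum.inl (n, A))) ∨
    ∃ i, l = (γ, Sum.inr (z i, t i))}
  have hGfin : G.Finite := by
    have h5 : ((p j0) ∪ Set.range fun i => ((γ, Sum.inr (z i, t i)) : Lit W)).Finite :=
      (hp j0).1.union (Set.finite_range _)
    refine h5.subset ?_
    rintro l (⟨n, A, hA, rfl⟩ | ⟨i, rfl⟩)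
    · exact Or.inl hA
    · exact Or.inr ⟨i, rfl⟩
  have hGγ : ∀ l ∈ G, l.1 = γ := by
    rintro l (⟨n, A, hA, rfl⟩ | ⟨i, rfl⟩) <;> rfl
  have hno : ∀ a, (γ, a) ∉ q1 := fun a ha => lt_irrefl _ (h1'.2 _ ha)
  have hfact : ∀ n A, Fact (q1 ∪ G) γ n A ↔ Fact (p j0) γ n A := by
    intro n A
    constructor
    · rintro (ha | ⟨n', A', hA, he⟩ | ⟨i, hi⟩)
      · exact absurd ha (hno _)
      · simp only [Prod.mk.injEq, true_and, Sum.inl.injEq] at he
        rw [he.1, he.2]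
        exact hA
      · simp at hi
    · exact fun hA => Or.inr (Or.inl ⟨n, A, hA, rfl⟩)
  have hpr : pr (q1 ∪ G) γ = Set.range fun i => (z i, t i) := by
    ext yy
    constructor
    · rintro (ha | ⟨n', A', hA, he⟩ | ⟨i, hi⟩)
      · exact absurd ha (hno _)
      · simp at he
      · simp only [Prod.mk.injEq, true_and, Sum.inr.injEq] at hi
        exact ⟨i, hi.symm⟩
    · rintro ⟨i, rfl⟩
      exact Or.inr (Or.inr ⟨i, rfl⟩)
  have hrs1 : q1 ⊆ rs γ (q1 ∪ G) := fun l hl => ⟨Or.inl hl, h1'.2 l hl⟩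
  have hVq : V c h (q1 ∪ G) := by
    refine V_add h1 hGfin hGγ ?_
    refine ⟨⟨m0, ⟨fun n A hA => hm0.1 n A ((hfact n A).1 hA), fun n hn => ?_⟩, fun n hn => ?_⟩,
      fun n A hA => hb1.card n A ((hfe j1 hj1 n A).2 ((hfact n A).1 hA)),
      fun n A B hA hB => hb1.fn n A B ((hfe j1 hj1 n A).2 ((hfact n A).1 hA))
        ((hfe j1 hj1 n B).2 ((hfact n B).1 hB)), fun yy hy' => ?_, fun yy hy' n A hn hA => ?_⟩
    · obtain ⟨A, hA⟩ := hm0.2 n hn
      exact ⟨A, (hfact n A).2 hA⟩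
    · have h6 := hm0' n hn
      rw [(hk j0 hj0).2.1] at h6
      refine le_trans ?_ h6
      rw [hpr, ← Set.image_univ]
      refine (Set.ncard_image_le Set.finite_univ).trans ?_
      rw [Set.ncard_univ]
      simp
    · rw [hpr] at hy'
      obtain ⟨i, rfl⟩ := hy'
      exact hz1 i
    · rw [hpr] at hy'
      obtain ⟨i, rfl⟩ := hy'
      have hA' := (hfact n A).1 hA
      obtain ⟨v, hv, hd⟩ := hb1.dc (y j1 i, t i) (by rw [(hk j1 hj1).1]; exact ⟨i, rfl⟩) n A hn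
        ((hfe j1 hj1 n A).2 hA')
      obtain ⟨v', h5, h6⟩ := h4 i n (hm0.1 n A hA')
      have h7 : v = v' := (hy j1 hj1 i).uniq n q1 v v' h1 (hd.mono h3) h6
      exact ⟨v, hv, by rw [h7]; exact h5.mono hrs1⟩
  refine ⟨q1 ∪ G, PB_iff.2 ⟨hVq, ?_⟩, ?_⟩
  · rintro l (hl | hl)
    · exact (h1'.2 l hl).trans hγβ
    · rw [hGγ l hl]
      exact hγβ
  -- the main part
  intro q' hq' hqq X hX
  have hq'' := PB_iff.1 hq'
  obtain ⟨N, hN⟩ := hg.inf ((pr q' γ).ncard + k)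
  obtain ⟨q3, h5, h6, h7, h8, m, hm, hm'⟩ := ext_fact hq''.1 γ N
  have hb3 := OK_iff.1 (h5.2 γ)
  have h9 : q0 ⊆ rs γ q3 := fun l hl => ⟨h6 (hqq (Or.inl (h2 hl))), (PB_iff.1 hq0).2 l hl⟩
  have h10 : {j | ∀ δ ∈ (supp q3 : Set W) ∩ Set.Ioo γ β, δ ∉ supp (p j)} ∈ U :=
    avoid_mem ((supp q3).finite_toSet.subset Set.inter_subset_left) fun δ hδ =>
      hmax δ hδ.2.1 hδ.2.2
  obtain ⟨j, ⟨⟨hj1, hj2⟩, hj3⟩, q4, h11, h12, h13, h14⟩ := hz2 _ (PB_rs h5 γ) h9 m _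
    (Filter.inter_mem (Filter.inter_mem hX hJ) h10)
  have h11' := PB_iff.1 h11
  have hq3β : ∀ l ∈ q3, l.1 < β := by
    rintro ⟨δ, a⟩ hl
    by_cases hδ : γ < δ
    · exact hq''.2 _ ((h7 δ hδ a).1 hl)
    · exact (not_lt.1 hδ).trans_lt hγβ
  have hbj := OK_iff.1 ((hp j).2 γ)
  have hfin : (q4 ∪ (q3 ∪ rs β (p j))).Finite :=
    h11'.1.1.union (h5.1.union (V_rs (hp j) β).1)
  have hzq : ∀ i, (z i, t i) ∈ pr q3 γ := fun i => h6 (hqq (Or.inr (Or.inr ⟨i, rfl⟩)))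
  have hno4 : ∀ δ, γ ≤ δ → ∀ a, (δ, a) ∉ q4 := fun δ hδ a ha =>
    absurd (h11'.2 _ ha) (not_lt.2 hδ)
  refine ⟨j, hj1, q4 ∪ (q3 ∪ rs β (p j)), ?_, h6.trans (Set.subset_union_left.trans
    Set.subset_union_right), Set.subset_union_right.trans Set.subset_union_right⟩
  rw [PB_iff]
  refine ⟨⟨hfin, fun δ => ?_⟩, ?_⟩
  swap
  · rintro l (hl | hl | hl)
    · exact (h11'.2 l hl).trans hγβ
    · exact hq3β l hl
    · exact hl.2
  rcases lt_trichotomy δ γ with hδ | rfl | hδ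
  · refine OK_mono (p := q4) (rs_mono Set.subset_union_left) (fun a => ⟨fun ha => Or.inl ha, ?_⟩)
      (h11'.1.2 δ)
    rintro (ha | ha | ha)
    · exact ha
    · exact h12 ⟨ha, hδ⟩
    · exact h13 ⟨ha.1, hδ⟩
  · -- the stage of the step
    have hfact4 : ∀ n A, Fact (q4 ∪ (q3 ∪ rs β (p j))) δ n A ↔ Fact q3 δ n A := by
      intro n A
      constructor
      · rintro (ha | ha | ha)
        · exact absurd ha (hno4 δ le_rfl _)
        · exact ha
        · exact h6 (hqq (Or.inr (Or.inl ⟨n, A, (hfe j hj2 n A).1 ha.1, rfl⟩)))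
      · exact fun ha => Or.inr (Or.inl ha)
    have hpr4 : pr (q4 ∪ (q3 ∪ rs β (p j))) δ = pr q3 δ ∪ pr (p j) δ := by
      ext yy
      constructor
      · rintro (ha | ha | ha)
        · exact absurd ha (hno4 δ le_rfl _)
        · exact Or.inl ha
        · exact Or.inr ha.1
      · rintro (ha | ha)
        · exact Or.inr (Or.inl ha)
        · exact Or.inr (Or.inr ⟨ha, hγβ⟩)
    have hrs3 : rs δ q3 ⊆ rs δ (q4 ∪ (q3 ∪ rs β (p j))) :=
      rs_mono (Set.subset_union_left.trans Set.subset_union_right)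
    have hrs4 : q4 ⊆ rs δ (q4 ∪ (q3 ∪ rs β (p j))) := fun l hl => ⟨Or.inl hl, h11'.2 l hl⟩
    rw [OK_iff]
    refine ⟨⟨m, ⟨fun n A hA => hm'.1 n A ((hfact4 n A).1 hA), fun n hn => ?_⟩, fun n hn => ?_⟩,
      fun n A hA => hb3.card n A ((hfact4 n A).1 hA),
      fun n A B hA hB => hb3.fn n A B ((hfact4 n A).1 hA) ((hfact4 n B).1 hB),
      fun yy hy' => ?_, fun yy hy' n A hn hA => ?_⟩
    · obtain ⟨A, hA⟩ := hm'.2 n hn
      exact ⟨A, (hfact4 n A).2 hA⟩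
    · rw [hpr4]
      refine (Set.ncard_union_le _ _).trans ?_
      rw [h8, (hk j hj2).2.1]
      exact hN n (hm.trans hn)
    · rw [hpr4] at hy'
      rcases hy' with hy' | hy'
      · exact hb3.nm yy hy'
      · exact hbj.nm yy hy'
    · rw [hpr4] at hy'
      have hA' := (hfact4 n A).1 hA
      rcases hy' with hy' | hy'
      · obtain ⟨v, hv, hd⟩ := hb3.dc yy hy' n A hn hA'
        exact ⟨v, hv, hd.mono hrs3⟩
      · rw [(hk j hj2).1] at hy'
        obtain ⟨i, rfl⟩ := hy'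
        obtain ⟨v, hv, hd⟩ := hb3.dc (z i, t i) (hzq i) n A hn hA'
        obtain ⟨v', h15, h16⟩ := h14 i n (hm'.1 n A hA')
        have h17 : v = v' := (hz1 i).uniq n q4 v v' h11 (hd.mono h12) h15
        exact ⟨v, hv, by rw [h17]; exact h16.mono hrs4⟩
  · by_cases hδβ : δ < β
    · refine OK_union_of (hno4 δ hδ.le) (h5.2 δ) ((V_rs (hp j) β).2 δ) ?_
      rintro ⟨⟨a, ha⟩, ⟨b, hb⟩⟩
      exact hj3 δ ⟨mem_supp_of h5.1 ha, hδ, hδβ⟩ (mem_supp_of (hp j).1 hb.1)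
    · refine OK_of_empty ?_
      rintro a (ha | ha | ha)
      · exact hno4 δ hδ.le a ha
      · exact hδβ (hq3β _ ha)
      · exact hδβ ha.2

theorem exists_lim {cd : W → ℕ → Bool} (hg : Good W h) (hc : ∀ n, 0 < c n)
    (hcd : Function.Injective cd) (hp : ∀ j, V c h (p j))
    (hty : ∀ i j, ty cd (p i) = ty cd (p j)) (hR : (Root U p).Finite) (β : W) :
    ∃ q, PB c h β q ∧ Lim c h U p β q := by
  induction β using WellFoundedLT.induction with
  | ind β ih =>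
    by_cases hβ : ∀ γ < β, γ ∉ Root U p
    · exact ⟨∅, PB_empty β, lim_zero hp hβ⟩
    · push Not at hβ
      obtain ⟨γ0, h1, h2⟩ := hβ
      obtain ⟨γ, hγ, hmax⟩ := Set.exists_max_image (Root U p ∩ Set.Iio β) id
        (hR.subset Set.inter_subset_left) ⟨γ0, h2, h1⟩
      obtain ⟨q0, hq0, hl⟩ := ih γ hγ.2
      refine lim_step hg hc hcd hp hty hγ.2 hγ.1 (fun δ hδ hδβ hδR => ?_) hq0 hl
      exact absurd (hmax δ ⟨hδR, hδβ⟩) (not_le.2 hδ)

theorem supp_card {cd : W → ℕ → Bool} (hcd : Function.Injective cd) {p q : Cond W}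
    (hty : ty cd p = ty cd q) : (supp p).card = (supp q).card := by
  classical
  unfold ty at hty
  have hp := exists_level hcd (supp p)
  have hq := exists_level hcd (supp q)
  rw [dif_pos hp, dif_pos hq, Prod.mk.injEq] at hty
  have h1 := congrArg Finset.card hty.2
  rw [Finset.card_image_of_injOn, Finset.card_image_of_injOn] at h1
  · exact h1
  · intro γ hγ δ hδ he
    exact hq.choose_spec hγ hδ (congrArg Prod.fst he)
  · intro γ hγ δ hδ he
    exact hp.choose_spec hγ hδ (congrArg Prod.fst he)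

/-- every sequence of valid conditions of the same type has a limit -/
theorem exists_lim' [Nonempty W] {cd : W → ℕ → Bool} (hg : Good W h) (hc : ∀ n, 0 < c n)
    (hbd : ∀ f : ℕ → W, ∃ b, ∀ n, f n < b)
    (hcd : Function.Injective cd) (hp : ∀ j, V c h (p j))
    (hty : ∀ i j, ty cd (p i) = ty cd (p j)) :
    ∃ q, V c h q ∧ ∀ q', V c h q' → q ⊆ q' → ∀ X ∈ U, ∃ j ∈ X, ∃ q'', V c h q'' ∧ q' ⊆ q'' ∧
      p j ⊆ q'' := by
  classical
  have hR : (Root U p).Finite :=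
    root_finite (supp (p 0)).card fun j => (supp_card hcd (hty j 0)).le
  obtain ⟨β, hβ⟩ : ∃ β, ∀ j, ∀ l ∈ p j, l.1 < β := by
    have hS : (⋃ j, Prod.fst '' p j).Countable :=
      Set.countable_iUnion fun j => ((hp j).1.image _).countable
    rcases Set.eq_empty_or_nonempty (⋃ j, Prod.fst '' p j) with he | hne
    · refine ⟨Classical.arbitrary W, fun j l hl => ?_⟩
      have : l.1 ∈ (⋃ j, Prod.fst '' p j) := Set.mem_iUnion.2 ⟨j, l, hl, rfl⟩
      rw [he] at this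
      exact absurd this id
    · obtain ⟨f, hf⟩ := hS.exists_eq_range hne
      obtain ⟨b, hb⟩ := hbd f
      refine ⟨b, fun j l hl => ?_⟩
      have : l.1 ∈ (⋃ j, Prod.fst '' p j) := Set.mem_iUnion.2 ⟨j, l, hl, rfl⟩
      rw [hf] at this
      obtain ⟨i, hi⟩ := this
      rw [← hi]
      exact hb i
  obtain ⟨q, h1, h2⟩ := exists_lim hg hc hcd hp hty hR β
  refine ⟨q, (PB_iff.1 h1).1, fun q' hq' hqq X hX => ?_⟩
  obtain ⟨j, hj, q'', h3, h4, h5⟩ := h2 _ (PB_rs hq' β)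
    (fun l hl => ⟨hqq hl, (PB_iff.1 h1).2 l hl⟩) X hX
  exact ⟨j, hj, q'' ∪ q', V_union h3 hq' h4, Set.subset_union_right,
    fun l hl => Or.inl (h5 ⟨hl, hβ j l hl⟩)⟩

end lim

end Pool.Agent.H82.LI
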