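import Pool.Agent.H82.LIE
import Pool.Agent.H82.LIDefs

/-!
# The forcing with finite support iterations of bounded localization
-/

set_option autoImplicit false
set_option linter.unusedSectionVars false

namespace Pool.Agent.H82.LI

open Pool.Agent.Helper669.Forcing

/-- the set of the valid conditions -/
@[ext]
structure PP (W : Type) [LinearOrder W] [WellFoundedLT W] (c h : ℕ → ℕ) : Type where
  /-- the condition -/
  val : Cond W
  /-- it is valid -/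
  prop : V c h val

variable {W : Type} [LinearOrder W] [WellFoundedLT W] {c h : ℕ → ℕ}

instance : Preorder (PP W c h) where
  le p q := q.1 ⊆ p.1
  le_refl _ := subset_rfl
  le_trans _ _ _ h1 h2 := h2.trans h1

theorem le_def {p q : PP W c h} : p ≤ q ↔ q.1 ⊆ p.1 := Iff.rfl

/-- names for the generic slaloms -/
def Sl (w : W) (n : ℕ) (A : Finset ℕ) : Set (PP W c h) := {p | Fact p.1 w n A}

theorem down_Sl (w : W) (n : ℕ) (A : Finset ℕ) : Down (Sl (c := c) (h := h) w n A) :=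
  fun _ hp _ hq => hq hp

theorem isFun_Sl (w : W) (p : PP W c h) : p ∈ IsFun (Sl (c := c) (h := h) w) := by
  refine ⟨fun n => mem_fex.2 fun q _ => ?_, fun n A B => mem_fimp.2 fun q _ hAB => ?_⟩
  · obtain ⟨q', h1, h2, -, -, m, hm, hm'⟩ := ext_fact q.2 w (n + 1)
    obtain ⟨A, hA⟩ := hm'.2 n (by omega)
    exact ⟨⟨q', h1⟩, h2, A, meets_of_mem hA⟩
  · obtain ⟨r, hr, hrA⟩ := exists_of_meets (down_Sl w n A) hAB.1
    obtain ⟨r', hr', hrB⟩ := exists_of_meets (down_Sl w n B) (down_meets _ _ hAB.2 _ hr)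
    refine ⟨r', hr'.trans hr, ?_⟩
    exact (OK_iff.1 (r'.2.2 w)).fn n A B (down_Sl w n A _ hrA _ hr') hrB

theorem card_Sl (w : W) (n : ℕ) (A : Finset ℕ) (p : PP W c h) :
    p ∈ fimp (meets (Sl (c := c) (h := h) w n A)) (fground (A.card ≤ h n)) := by
  refine mem_fimp.2 fun q _ hA => ?_
  obtain ⟨r, hr, hrA⟩ := exists_of_meets (down_Sl w n A) hA
  exact ⟨r, hr, (OK_iff.1 (r.2.2 w)).card n A hrA⟩

theorem capture [Nonempty W] (hg : Good W h) (hc : ∀ n, 0 < c n)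
    (hbd : ∀ f : ℕ → W, ∃ b, ∀ n, f n < b) {x : ℕ → ℕ → Set (PP W c h)} {p0 : PP W c h}
    (hx : p0 ∈ IsFun x)
    (hxc : p0 ∈ fall fun n => fall fun v => fimp (meets (x n v)) (fground (v < c n))) :
    ∃ q ≤ p0, ∃ w : W, ∃ m : ℕ, q ∈ fall fun n => fimp (fground (m ≤ n))
      (fall fun v => fall fun A => fimp (fand (meets (x n v)) (meets (Sl w n A)))
        (fground (v ∈ A))) := by
  classical
  obtain ⟨γ, y, hy1, hy2⟩ := mkName' (c := c) hg hbd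
    (fun n v => {u | ∃ hu : V c h u, (p0.1 ⊆ u ∧ (⟨u, hu⟩ : PP W c h) ∈ meets (x n v)) ∨
      (v = 0 ∧ ∀ u', V c h u' → u ⊆ u' → ¬ p0.1 ⊆ u')})
    (fun n v u hu => hu.1) (by
      rintro n v u u' ⟨hu, ⟨h1, h2⟩ | ⟨h1, h2⟩⟩ hu' huu
      · exact ⟨hu', Or.inl ⟨h1.trans huu, down_meets _ _ h2 _ huu⟩⟩
      · exact ⟨hu', Or.inr ⟨h1, fun u'' h3 h4 => h2 u'' h3 (huu.trans h4)⟩⟩) (by
      rintro n v v' u ⟨hu, ⟨h1, h2⟩ | ⟨h1, h2⟩⟩ ⟨hu', ⟨h1', h2'⟩ | ⟨h1', h2'⟩⟩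
      · exact IsFun.unique (down_IsFun _ _ hx _ (show (⟨u, hu⟩ : PP W c h) ≤ p0 from h1)) h2 h2'
      · exact absurd h1 (h2' u hu subset_rfl)
      · exact absurd h1' (h2 u hu subset_rfl)
      · rw [h1, h1']) (by
      intro n q hq
      by_cases hcomp : ∃ u', V c h u' ∧ q ⊆ u' ∧ p0.1 ⊆ u'
      · obtain ⟨u', h1, h2, h3⟩ := hcomp
        obtain ⟨u2, h4, v, h5⟩ := IsFun.total (down_IsFun _ _ hx
          (⟨u', h1⟩ : PP W c h) h3) n
        obtain ⟨r, -, hr⟩ := mem_fimp.1 (hxc n v) u2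
          (h3.trans h4 : p0.1 ⊆ u2.1) h5
        exact ⟨u2.1, v, h2.trans h4, hr, u2.2, Or.inl ⟨h3.trans h4, h5⟩⟩
      · push Not at hcomp
        exact ⟨q, 0, subset_rfl, hc n, hq, Or.inr ⟨rfl, hcomp⟩⟩)
  obtain ⟨q, m, h1, h2, h3⟩ := ext_prom hg.inf p0.2 hy1
  refine ⟨⟨q, h1⟩, h2, γ, m, fun n => mem_fimp.2 fun q1 hq1 hmn => ⟨q1, le_rfl, fun v A =>
    mem_fimp.2 fun q2 hq2 hvA => ?_⟩⟩
  have hmn' : m ≤ n := hmn
  obtain ⟨r, hr, hrA⟩ := exists_of_meets (down_Sl γ n A) hvA.2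
  have hpr : (y, m) ∈ pr r.1 γ := hr (hq2 (hq1 h3))
  obtain ⟨v', hv', u, hu, hur⟩ := (OK_iff.1 (r.2.2 γ)).dc (y, m) hpr n A hmn' hrA
  have h7 : r ≤ p0 := by
    have h7a : (⟨q, h1⟩ : PP W c h) ≤ p0 := h2
    exact ((hr.trans hq2).trans hq1).trans h7a
  obtain ⟨hu', ⟨h4, h5⟩ | ⟨h4, h5⟩⟩ := hy2 n v' hu
  · have h6 : r ≤ (⟨u, hu'⟩ : PP W c h) := hur.trans rs_subset
    have h8 : v = v' := IsFun.unique (down_IsFun _ _ hx _ h7) (down_meets _ _ hvA.1 _ hr)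
      (down_meets _ _ h5 _ h6)
    refine ⟨r, hr, ?_⟩
    show v ∈ A
    rw [h8]
    exact hv'
  · exact absurd h7 (h5 r.1 r.2 (hur.trans rs_subset))

theorem localizedHolds [Nonempty W] (hg : Good W h) (hc : ∀ n, 0 < c n)
    (hbd : ∀ f : ℕ → W, ∃ b, ∀ n, f n < b) (p : PP W c h) :
    p ∈ LocalizedHolds c h (PP W c h) W := by
  refine mem_fex.2 fun q _ => ⟨q, le_rfl, Sl, fun w => isFun_Sl w q, fun w n A => card_Sl w n A q,
    fun x => mem_fimp.2 fun q1 _ hx => ⟨q1, le_rfl, mem_fimp.2 fun q2 hq2 hxc => ⟨q2, le_rfl,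
      mem_fex.2 fun q3 hq3 => ?_⟩⟩⟩
  obtain ⟨q4, h4, w, m, h5⟩ := capture hg hc hbd (down_IsFun _ _ hx _ (hq3.trans hq2))
    (down_fall (fun n => down_fall fun v => down_fimp _ _) _ hxc _ hq3)
  exact ⟨q4, h4, w, mem_fex_of_mem m (down_fall fun n => down_fimp _ _) h5⟩

theorem ccc_PP (hg : Good W h) (A : Set (PP W c h))
    (hA : ∀ p ∈ A, ∀ q ∈ A, p ≠ q → ¬ ∃ r, r ≤ p ∧ r ≤ q) : A.Countable := by
  have h1 : (PP.val '' A : Set (Cond W)).Countable := by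
    refine countable_of_antichain (c := c) (h := h) hg ?_ ?_
    · rintro _ ⟨p, _, rfl⟩
      exact p.2
    · rintro _ ⟨p, hp, rfl⟩ _ ⟨q, hq, rfl⟩ hne ⟨r, hr, h1, h2⟩
      exact hA p hp q hq (fun he => hne (congrArg PP.val he)) ⟨⟨r, hr⟩, h1, h2⟩
  exact Set.countable_of_injective_of_countable_image
    (fun p _ q _ hpq => PP.ext hpq) h1

theorem exists_bd [Nonempty W] {cd : W → ℕ → Bool} (hg : Good W h) (hc : ∀ n, 0 < c n)
    (hbd : ∀ f : ℕ → W, ∃ b, ∀ n, f n < b) (hcd : Function.Injective cd)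
    {f : ℕ → ℕ → Set (PP W c h)} {p0 : PP W c h} (hf : p0 ∈ IsFun f)
    (τ : ℕ × Finset (List Bool × (Finset (ℕ × Finset ℕ) × List ℕ))) (n : ℕ) :
    ∃ k, ∀ p ≤ p0, ty cd p.1 = τ → ∃ q ≤ p, ∃ v < k, q ∈ meets (f n v) := by
  by_contra hcon
  push Not at hcon
  choose p h1 h2 h3 using hcon
  obtain ⟨q, hq, hlim⟩ := exists_lim' (c := c) (U := Filter.hyperfilter ℕ) (p := fun j => (p j).1)
    hg hc hbd hcd (fun j => (p j).2) (fun i j => (h2 i).trans (h2 j).symm)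
  obtain ⟨j, -, q1, h4, h5, h6⟩ := hlim q hq subset_rfl Set.univ Filter.univ_mem
  have h6' : (⟨q1, h4⟩ : PP W c h) ≤ p j := h6
  have h7 : (⟨q1, h4⟩ : PP W c h) ≤ p0 := h6'.trans (h1 j)
  obtain ⟨q2, h8, v, h9⟩ := IsFun.total (down_IsFun _ _ hf _ h7) n
  have hX : {j : ℕ | v < j} ∈ (Filter.hyperfilter ℕ : Ultrafilter ℕ) :=
    Filter.mem_hyperfilter_of_finite_compl (by
      refine (Set.finite_Iic v).subset ?_
      intro j hj
      simpa using hj)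
  obtain ⟨i, hi, q3, h10, h11, h12⟩ := hlim q2.1 q2.2 (h5.trans h8) _ hX
  exact h3 i ⟨q3, h10⟩ h12 v hi (down_meets _ _ h9 (⟨q3, h10⟩ : PP W c h) h11)

theorem undominatedHolds [Nonempty W] (hg : Good W h) (hc : ∀ n, 0 < c n)
    (hbd : ∀ f : ℕ → W, ∃ b, ∀ n, f n < b)
    (hD : ∀ G : W → ℕ → ℕ, ∃ g : ℕ → ℕ, ∀ w, ∀ N : ℕ, ∃ n, N ≤ n ∧ G w n < g n)
    (p : PP W c h) : p ∈ UndominatedHolds (PP W c h) W := by
  classical
  obtain ⟨cd, hcd⟩ := hg.code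
  refine fun f => mem_fimp.2 fun p0 _ hf => ⟨p0, le_rfl, ?_⟩
  have h1 := fun w τ n => exists_bd hg hc hbd hcd (hf w) τ n
  choose B hB using h1
  obtain ⟨g, hg'⟩ := hD fun w n => (Finset.range (n + 1)).sup fun i =>
    ((Encodable.decode i).map fun τ => B w τ n).getD 0
  refine mem_fex.2 fun p1 hp1 => ⟨p1, le_rfl, fun n u => {_p | g n = u}, ?_, ?_⟩
  · refine ⟨fun n => mem_fex.2 fun q _ => ⟨q, le_rfl, g n, meets_of_mem rfl⟩,
      fun n a b => mem_fimp.2 fun q _ hab => ?_⟩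
    obtain ⟨r, hr, s, hs, -⟩ := hab.1 q le_rfl
    obtain ⟨r', hr', s', hs', -⟩ := hab.2 q le_rfl
    exact ⟨q, le_rfl, (show g n = a from hs).symm.trans hs'⟩
  · intro w N
    refine mem_fex.2 fun p2 hp2 => ?_
    let i := Encodable.encode (ty cd p2.1)
    obtain ⟨n, hn, hgn⟩ := hg' w (max N i)
    have h2 : B w (ty cd p2.1) n < g n := by
      refine lt_of_le_of_lt ?_ hgn
      refine le_trans ?_ (Finset.le_sup (b := i) (Finset.mem_range.2 (by omega)))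
      simp only [i, Encodable.encodek, Option.map_some, Option.getD_some]
      exact le_rfl
    obtain ⟨q, hq, v, hv, hqv⟩ := hB w (ty cd p2.1) n p2 (hp2.trans hp1) rfl
    refine ⟨q, hq, n, (le_max_left N i).trans hn, ?_⟩
    refine mem_fex_of_mem v (down_fex _) (mem_fex_of_mem (g n) ?_ ⟨hv.trans h2, hqv,
      meets_of_mem rfl⟩)
    exact down_fand (down_fground _) (down_fand (down_meets _) (down_meets _))

end Pool.Agent.H82.LI
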