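import Pool.Agent.H82.LIF
import Pool.Graph.R_seed8.V11242.SS.Forced
import Pool.Graph.R_seed8.W684.FM.Ambient
import Pool.Graph.R_pool_sql_team_seeded_c8625f6e.K4H98.SubseriesLoc

/-!
# The dominating number and the sentence `Ψ`
-/

set_option autoImplicit false

namespace Pool.Agent.H82.LI

open Cardinal Filter

/-- The dominating number `𝔡`: the least size of a family `D` of functions from `ω` to `ω` such
that every function from `ω` to `ω` is eventually bounded by some member of `D`. -/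
noncomputable def dNumber : Cardinal.{0} :=
  sInf {κ | ∃ D : Set (ℕ → ℕ), (∀ f : ℕ → ℕ, ∃ g ∈ D, ∀ᶠ n in atTop, f n ≤ g n) ∧ #D = κ}

theorem exists_dNumber : ∃ D : Set (ℕ → ℕ), (∀ f : ℕ → ℕ, ∃ g ∈ D, ∀ᶠ n in atTop, f n ≤ g n) ∧
    #D = dNumber :=
  csInf_mem (s := {κ | ∃ D : Set (ℕ → ℕ), (∀ f : ℕ → ℕ, ∃ g ∈ D, ∀ᶠ n in atTop, f n ≤ g n) ∧
    #D = κ}) ⟨_, Set.univ, fun f => ⟨f, trivial, Eventually.of_forall fun _ => le_rfl⟩, rfl⟩

/-- a cardinal is below `𝔡` if and only if no family of this size is dominating -/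
theorem lt_dNumber_iff {K : Type} [Nonempty K] : #K < dNumber ↔
    ∀ G : K → ℕ → ℕ, ∃ g : ℕ → ℕ, ∀ w, ∀ N : ℕ, ∃ n, N ≤ n ∧ G w n < g n := by
  constructor
  · intro hlt G
    by_contra hcon
    push Not at hcon
    have h1 : dNumber ≤ #(Set.range G) := by
      refine csInf_le' ⟨Set.range G, fun f => ?_, rfl⟩
      obtain ⟨w, N, hN⟩ := hcon f
      exact ⟨G w, ⟨w, rfl⟩, eventually_atTop.2 ⟨N, hN⟩⟩
    exact absurd (hlt.trans_le h1) (not_lt.2 mk_range_le)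
  · intro hG
    by_contra hcon
    obtain ⟨D, hD, hcard⟩ := exists_dNumber
    have hle : #D ≤ #K := by
      rw [hcard]
      exact not_lt.1 hcon
    obtain ⟨e⟩ : Nonempty (D ↪ K) := hle
    have hne : Nonempty D := by
      obtain ⟨g, hg, -⟩ := hD fun _ => 0
      exact ⟨⟨g, hg⟩⟩
    obtain ⟨g, hg⟩ := hG fun w => (Function.invFun e w).1
    obtain ⟨d, hd, hgd⟩ := hD g
    obtain ⟨N, hN⟩ := eventually_atTop.1 hgd
    obtain ⟨n, hn, hlt⟩ := hg (e ⟨d, hd⟩) N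
    rw [Function.leftInverse_invFun e.injective] at hlt
    exact absurd hlt (not_lt.2 (hN n hn))

theorem lt_dNumber_of_martin
    (hMA : Pool.Agent.W684.FM.MartinFor Pool.Agent.W684.FM.Om1) : ℵ₁ < dNumber := by
  have h1 := Pool.Agent.W684.FM.martinFor_om1_iff.1 hMA
  have h2 : #(Pool.Agent.W684.FM.Om1) = ℵ₁ := mk_ord_toType _
  have hne : Nonempty Pool.Agent.W684.FM.Om1 := by
    rw [← mk_ne_zero_iff, h2]
    exact (aleph_pos 1).ne'
  rw [← h2, lt_dNumber_iff]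
  intro G
  obtain ⟨g, hg⟩ := Pool.Agent.V11242.SS.bounded_of_martin h1 h2.le G
  refine ⟨fun n => g n + 1, fun w N => ?_⟩
  obtain ⟨M, hM⟩ := hg w
  exact ⟨max N M, le_max_left _ _, Nat.lt_succ_of_le (hM _ (le_max_right _ _))⟩

theorem psi_imp {K : Type} (hPsi : PsiFor ccb hh K) :
    Pool.Agent.K4H98.Subseries.ssCC ≤ #K ∧ #K < dNumber := by
  obtain ⟨⟨S, hS1, hS2⟩, h3⟩ := hPsi
  have hne : Nonempty K := by
    obtain ⟨w, -⟩ := hS2 (fun _ => 0) (by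
      rintro n v rfl
      exact Nat.pow_pos (Nat.succ_pos _))
    exact ⟨w⟩
  constructor
  · refine (Pool.Agent.K4H98.SubseriesLoc.ssCC_le_localizationNumber (h := hh)
      (fun n => Nat.succ_pos n) ccb (fun n => le_rfl)).trans ?_
    refine (csInf_le' ⟨Set.range S, ?_, fun f hf => ?_, rfl⟩ :
      Pool.Agent.K4H98.SubseriesLoc.localizationNumber ccb hh ≤ #(Set.range S)).trans mk_range_le
    · rintro _ ⟨w, rfl⟩ n
      exact hS1 w n _ rfl
    · obtain ⟨w, m, hm⟩ := hS2 f (by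
        rintro n v rfl
        exact hf n)
      exact ⟨S w, ⟨w, rfl⟩, eventually_atTop.2 ⟨m, fun n hn => hm n hn _ _ ⟨rfl, rfl⟩⟩⟩
  · rw [lt_dNumber_iff]
    intro G
    obtain ⟨g, hg⟩ := h3 G
    refine ⟨g, fun w N => ?_⟩
    obtain ⟨n, hn, a, b, hab, rfl, rfl⟩ := hg w N
    exact ⟨n, hn, hab⟩

theorem good_om1 : Good Pool.Agent.W684.FM.Om1 hh where
  inf k := ⟨k, fun n hn => hn.trans (Nat.le_succ n)⟩
  nomax := Pool.Agent.W684.FM.exists_gt_om1
  code := by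
    have h1 : #(Pool.Agent.W684.FM.Om1) ≤ #(ℕ → Bool) := by
      have h2 : #(Pool.Agent.W684.FM.Om1) = ℵ₁ := mk_ord_toType _
      rw [h2]
      have h3 : #(ℕ → Bool) = 2 ^ ℵ₀ := by simp
      rw [h3]
      exact aleph_one_le_continuum
    obtain ⟨e⟩ := h1
    exact ⟨e, e.injective⟩

theorem exists_forcing (hd : ℵ₁ < dNumber) : ∃ (K P : Type) (_ : Preorder P), #K = ℵ₁ ∧
    Nonempty P ∧
    (∀ A : Set P, (∀ p ∈ A, ∀ q ∈ A, p ≠ q → ¬ ∃ r, r ≤ p ∧ r ≤ q) → A.Countable) ∧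
    ∀ p : P, p ∈ PsiHolds ccb hh P K := by
  have h2 : #(Pool.Agent.W684.FM.Om1) = ℵ₁ := mk_ord_toType _
  have hne : Nonempty Pool.Agent.W684.FM.Om1 := by
    rw [← mk_ne_zero_iff, h2]
    exact (aleph_pos 1).ne'
  have hc : ∀ n, 0 < ccb n := fun n => Nat.pow_pos (Nat.succ_pos _)
  have hbd : ∀ f : ℕ → Pool.Agent.W684.FM.Om1, ∃ b, ∀ n, f n < b := by
    intro f
    obtain ⟨a, ha⟩ := Pool.Agent.W684.FM.exists_bound f
    obtain ⟨b, hb⟩ := Pool.Agent.W684.FM.exists_gt_om1 a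
    exact ⟨b, fun n => (ha n).trans_lt hb⟩
  refine ⟨Pool.Agent.W684.FM.Om1, PP Pool.Agent.W684.FM.Om1 ccb hh, inferInstance, h2,
    ⟨⟨∅, V_empty⟩⟩, ccc_PP good_om1, fun p => ⟨localizedHolds good_om1 hc hbd p,
      undominatedHolds good_om1 hc hbd (lt_dNumber_iff.1 (by rw [h2]; exact hd)) p⟩⟩

end Pool.Agent.H82.LI
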